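import Pool.Agent.TH295.PC.Bounds

set_option autoImplicit false

/-!
Admissible denominators: large, or without prime factors below `29`.
-/

namespace Pool.Agent.TH295.PC

open Finset

lemma prod_subset_ge {f : ℕ → ℝ} {S : Finset ℕ} (hS : ∀ p ∈ S, 0 < f p ∧ f p ≤ 1) (T : Finset ℕ)
    (hT : T ⊆ S) : ∏ p ∈ S, f p ≤ ∏ p ∈ T, f p := by
  rw [← Finset.prod_sdiff hT]
  have h1 : ∏ p ∈ S \ T, f p ≤ 1 := by
    calc ∏ p ∈ S \ T, f p ≤ ∏ _p ∈ S \ T, (1 : ℝ) := by
          apply Finset.prod_le_prod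
          · intro p hp; exact (hS p (Finset.sdiff_subset hp)).1.le
          · intro p hp; exact (hS p (Finset.sdiff_subset hp)).2
      _ = 1 := by simp
  have h2 : 0 ≤ ∏ p ∈ T, f p := Finset.prod_nonneg (fun p hp => (hS p (hT hp)).1.le)
  nlinarith

/-- `8^ω(d) d² ≤ (4900/3) φ(d)³` -/
lemma omega_bound {d : ℕ} (hd : 0 < d) :
    (8 : ℝ) ^ d.primeFactors.card * d ^ 2 ≤ 4900 / 3 * (d.totient : ℝ) ^ 3 := by
  have hd' : (0 : ℝ) < d := by exact_mod_cast hd
  have hpos : ∀ p ∈ d.primeFactors, (0 : ℝ) < p := fun p hp => by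
    exact_mod_cast (Nat.prime_of_mem_primeFactors hp).pos
  have hP : (0 : ℝ) < ∏ p ∈ d.primeFactors, (p : ℝ) := Finset.prod_pos hpos
  have hPd : (∏ p ∈ d.primeFactors, (p : ℝ)) ≤ d := by
    have : ((∏ p ∈ d.primeFactors, p : ℕ) : ℝ) ≤ d := by
      exact_mod_cast Nat.le_of_dvd hd (Nat.prod_primeFactors_dvd d)
    push_cast at this; exact this
  have htot := totient_real' (n := d)
  set P := ∏ p ∈ d.primeFactors, (p : ℝ) with hPdef
  set R := ∏ p ∈ d.primeFactors, ((p : ℝ) - 1) with hRdef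
  -- the product of the local factors
  have hg : (3 / 4900 : ℝ) ≤ ∏ p ∈ d.primeFactors, (((p : ℝ) - 1) ^ 3 / (8 * p ^ 2)) := by
    rw [← Finset.prod_filter_mul_prod_filter_not d.primeFactors (fun p => p < 11)]
    have h1 : (3 / 4900 : ℝ) ≤ ∏ p ∈ d.primeFactors.filter (fun p => p < 11),
        (((p : ℝ) - 1) ^ 3 / (8 * p ^ 2)) := by
      have h2 := prod_subset_ge (f := fun p : ℕ => (((p : ℝ) - 1) ^ 3 / (8 * p ^ 2)))
        (S := {2, 3, 5, 7}) (by
          intro p hp
          simp only [Finset.mem_insert, Finset.mem_singleton] at hp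
          rcases hp with h | h | h | h <;> rw [h] <;> norm_num)
        (d.primeFactors.filter (fun p => p < 11)) (by
          intro p hp
          rw [Finset.mem_filter] at hp
          have hpp := Nat.prime_of_mem_primeFactors hp.1
          have h7 := hp.2
          interval_cases p
          · exact absurd hpp (by decide)
          · exact absurd hpp (by decide)
          · decide
          · decide
          · exact absurd hpp (by decide)
          · decide
          · exact absurd hpp (by decide)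
          · decide
          · exact absurd hpp (by decide)
          · exact absurd hpp (by decide)
          · exact absurd hpp (by decide))
      refine le_trans (le_of_eq ?_) h2
      norm_num
    have h2 : (1 : ℝ) ≤ ∏ p ∈ d.primeFactors.filter (fun p => ¬ p < 11),
        (((p : ℝ) - 1) ^ 3 / (8 * p ^ 2)) := by
      calc (1 : ℝ) = ∏ _p ∈ d.primeFactors.filter (fun p => ¬ p < 11), (1 : ℝ) := by simp
        _ ≤ _ := by
          apply Finset.prod_le_prod
          · intro p hp
            norm_num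
          intro p hp
          rw [Finset.mem_filter] at hp
          have h7 : (11 : ℝ) ≤ p := by exact_mod_cast (not_lt.1 hp.2)
          rw [le_div_iff₀ (by positivity)]
          nlinarith [mul_nonneg (sub_nonneg.2 h7) (sub_nonneg.2 h7),
            mul_nonneg (mul_nonneg (sub_nonneg.2 h7) (sub_nonneg.2 h7)) (sub_nonneg.2 h7)]
    calc (3 / 4900 : ℝ) = 3 / 4900 * 1 := by ring
      _ ≤ _ := mul_le_mul h1 h2 (by norm_num) (le_trans (by norm_num) h1)
  rw [Finset.prod_div_distrib, Finset.prod_pow, Finset.prod_mul_distrib, Finset.prod_const,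
    Finset.prod_pow, ← hPdef, ← hRdef, div_le_div_iff₀ (by norm_num) (by positivity)] at hg
  -- `φ P = d R`
  have h1 : (d.totient : ℝ) = d * R / P := by field_simp; linarith
  have h2 : (d.totient : ℝ) ^ 3 = (R ^ 3 / P ^ 2) * (d ^ 2 * (d / P)) := by
    rw [h1]; field_simp
  have h3 : (8 : ℝ) ^ d.primeFactors.card ≤ 4900 / 3 * (R ^ 3 / P ^ 2) := by
    rw [mul_div_assoc', le_div_iff₀ (by positivity)]
    linarith
  have h4 : (1 : ℝ) ≤ d / P := by rw [le_div_iff₀ hP]; linarith
  have hR0 : (0 : ℝ) ≤ R := by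
    apply Finset.prod_nonneg
    intro p hp
    have : (1 : ℝ) < p := by exact_mod_cast (Nat.prime_of_mem_primeFactors hp).one_lt
    linarith
  rw [h2]
  calc (8 : ℝ) ^ d.primeFactors.card * d ^ 2 ≤ 4900 / 3 * (R ^ 3 / P ^ 2) * d ^ 2 :=
        mul_le_mul_of_nonneg_right h3 (by positivity)
    _ = 4900 / 3 * ((R ^ 3 / P ^ 2) * (d ^ 2 * 1)) := by ring
    _ ≤ 4900 / 3 * ((R ^ 3 / P ^ 2) * (d ^ 2 * (d / P))) := by
        have : (0 : ℝ) ≤ R ^ 3 / P ^ 2 := by positivity
        gcongr

/-- an admissible order: at least `M`, or without prime factors below `l` -/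
def Adm (l M d : ℕ) : Prop := M ≤ d ∨ ∀ p : ℕ, p.Prime → p ∣ d → l ≤ p

lemma tau_large {K M d : ℕ} (hK : 2 ≤ K) (hM : 1 < M) (hd : M ≤ d) {x : ℝ} (hx : 0 < x)
    (h : 4900 / 3 ≤ x ^ 3 * M ^ 2) : tau K d ≤ 1 / K + x / 2 := by
  have hd0 : 0 < d := by omega
  rw [tau_eq hK hd0]
  have h1 := sum_E_le (K := K) (by omega) (show 1 < d by omega)
  have h2 := omega_bound hd0
  have hφ : (0 : ℝ) < d.totient := by exact_mod_cast Nat.totient_pos.2 hd0
  have hd' : (M : ℝ) ≤ d := by exact_mod_cast hd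
  have hM' : (1 : ℝ) < M := by exact_mod_cast hM
  have hd1 : (0 : ℝ) < d := by linarith
  have h3 : (2 : ℝ) ^ d.primeFactors.card ≤ x * d.totient := by
    have h5 : (x * d.totient) ^ 3 * d ^ 2 ≥ ((2 : ℝ) ^ d.primeFactors.card) ^ 3 * d ^ 2 := by
      have h4 : ((2 : ℝ) ^ d.primeFactors.card) ^ 3 = 8 ^ d.primeFactors.card := by
        rw [← pow_mul, mul_comm, pow_mul]; norm_num
      rw [h4, mul_pow]
      have h6 : 4900 / 3 ≤ x ^ 3 * (d : ℝ) ^ 2 := by
        refine h.trans ?_
        have : (0 : ℝ) < M := by linarith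
        gcongr
      have h7 : (0 : ℝ) < (d.totient : ℝ) ^ 3 := by positivity
      nlinarith [mul_le_mul_of_nonneg_right h6 h7.le]
    have h6 := le_of_mul_le_mul_right h5 (by positivity)
    exact le_of_pow_le_pow_left₀ (by norm_num) (by positivity) h6
  have h6 : (∑ T ∈ d.primeFactors.powerset, (-1) ^ T.card * E K (d / ∏ p ∈ T, p)) / d.totient ≤
      x / 2 := by
    rw [div_le_iff₀ hφ]
    linarith
  linarith

lemma bet_large {M d : ℕ} (hM : 0 < M) (hd : M ≤ d) : |bet d| ≤ 1 / (6 * M) := by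
  refine (abs_bet_le (by omega)).trans ?_
  have h1 : (M : ℝ) ≤ d := by exact_mod_cast hd
  have h2 : (0 : ℝ) < M := by exact_mod_cast hM
  exact one_div_le_one_div_of_le (by positivity) (by linarith)

end Pool.Agent.TH295.PC
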