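import Pool.Agent.TH295.PC.Point
import Pool.Agent.TH295.PC.Adm

set_option autoImplicit false

/-!
The arithmetic theorem for admissible denominators.
-/

namespace Pool.Agent.TH295.PC

open Finset Pool.Agent.W280.PC

lemma tent_neg {K : ℕ} (hK : 2 ≤ K) (x : ℝ) : tent K (-x) = tent K x := by
  have hK0 : (K : ℝ) ≠ 0 := by positivity
  unfold tent
  have h1 : B (-x + 1 / K) = B (x + (K - 1) / K) := by
    rw [← B_neg, ← B_add_int (-(-x + 1 / (K : ℝ))) 1]
    congr 1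
    push_cast
    field_simp
    ring
  have h2 : B (-x + (K - 1) / K) = B (x + 1 / K) := by
    rw [← B_neg, ← B_add_int (-(-x + ((K : ℝ) - 1) / (K : ℝ))) 1]
    congr 1
    push_cast
    field_simp
    ring
  rw [h1, h2, B_neg]
  ring

lemma TS_neg {K : ℕ} (hK : 2 ≤ K) (D : ℕ) (a b r1 r2 r3 : ℤ) :
    TS K D (-a) (-b) (-r1) (-r2) (-r3) = TS K D a b r1 r2 r3 := by
  have h : ∀ z y : ℤ, z = -y → tent K ((z : ℝ) / D) = tent K ((y : ℝ) / D) := by
    intro z y h
    rw [h, ← tent_neg hK ((y : ℝ) / D)]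
    congr 1
    push_cast
    ring
  unfold TS
  rw [h (-r1) r1 rfl, h (-r2) r2 rfl, h (-r3) r3 rfl, h (-a - -b) (a - b) (by ring),
    h (-a) a rfl, h (-a + -r1) (a + r1) (by ring), h (-a + -r2) (a + r2) (by ring),
    h (-a + -r3) (a + r3) (by ring), h (-a + (-r1 + -r2)) (a + (r1 + r2)) (by ring),
    h (-a + (-r1 + -r3)) (a + (r1 + r3)) (by ring),
    h (-a + (-r2 + -r3)) (a + (r2 + r3)) (by ring),
    h (-a + (-r1 + -r2 + -r3)) (a + (r1 + r2 + r3)) (by ring)]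

/-- the cost of a difference of exponents -/
lemma cost_theta {d : ℕ} (hd : 0 < d) (h : Rough 29 d) : -2 * bet d + 1 / 12 * tau 24 d ≤ 1 / 78 := by
  rcases Nat.lt_or_ge 1 d with h1 | h1
  · by_cases hp : d.Prime
    · have hdl : (29 : ℝ) ≤ d := by exact_mod_cast h.le h1
      have h2 := tau_prime (K := 24) (by norm_num) hp
      rw [bet_prime hp]
      push_cast at h2
      have h3 : -2 * (-1 / (6 * (d : ℝ))) + 1 / 12 * (1 / 24 + (24 / (4 * d) - (1 - 1 / 24)) / (d - 1))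
          ≤ 1 / 78 := by
        have e1 : (0 : ℝ) < d := by linarith
        have e2 : (0 : ℝ) < (d : ℝ) - 1 := by linarith
        have e3 : 1 / 78 - (-2 * (-1 / (6 * (d : ℝ))) + 1 / 12 * (1 / 24 + (24 / (4 * d) - (1 - 1 / 24)) / (d - 1)))
            = ((1 / 78 - 1 / 288) * (d * (d - 1)) - (d - 1) / 3 - (6 - 23 / 24 * d) / 12) / (d * (d - 1)) := by
          field_simp
          ring
        have e4 : 0 ≤ ((1 / 78 - 1 / 288) * ((d : ℝ) * (d - 1)) - (d - 1) / 3 - (6 - 23 / 24 * d) / 12) / (d * (d - 1)) := by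
          apply div_nonneg _ (by positivity)
          nlinarith
        linarith
      linarith
    · have h2 := abs_bet_rough (by norm_num) h h1 hp
      have h3 := tau_rough (K := 24) (by norm_num) (by norm_num) h h1 hp
      have h4 := (abs_le.1 h2).1
      norm_num at h3 h4 ⊢
      linarith
  · have h2 : d = 1 := by omega
    rw [h2, bet_one, tau_one (by norm_num)]
    norm_num

/-- the cost of a sum of exponents -/
lemma cost_sig {d : ℕ} (hd : 1 < d) (h : Rough 29 d) : bet d + 1 / 12 * tau 24 d ≤ 39 / 10000 := by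
  obtain ⟨h1, h2⟩ := cost_sigma (K := 24) (l := 29) (by norm_num) (by norm_num) (by norm_num) h hd
  norm_num at h1 h2 ⊢
  linarith

lemma cost_theta_adm {d : ℕ} (hd : 0 < d) (h : Adm 29 450 d) :
    -2 * bet d + 1 / 12 * tau 24 d ≤ 1 / 78 := by
  rcases h with h | h
  · have h1 := tau_large (K := 24) (by norm_num) (by norm_num) h (x := 2006 / 10000) (by norm_num)
      (by norm_num)
    have h2 := (abs_le.1 (bet_large (by norm_num) h)).1
    have h3 : (((450 : ℕ) : ℝ)) = 450 := by norm_num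
    have h4 : (((24 : ℕ) : ℝ)) = 24 := by norm_num
    rw [h3] at h2
    rw [h4] at h1
    linarith
  · exact cost_theta hd h

lemma cost_sig_adm {d : ℕ} (hd : 1 < d) (h : Adm 29 40000 d) :
    bet d + 1 / 12 * tau 24 d ≤ 39 / 10000 := by
  rcases h with h | h
  · have h1 := tau_large (K := 24) (by norm_num) (by norm_num) h (x := 1007 / 100000)
      (by norm_num) (by norm_num)
    have h2 := (abs_le.1 (bet_large (by norm_num) h)).2
    have h3 : (((40000 : ℕ) : ℝ)) = 40000 := by norm_num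
    have h4 : (((24 : ℕ) : ℝ)) = 24 := by norm_num
    rw [h3] at h2
    rw [h4] at h1
    linarith
  · exact cost_sig hd h

/-- **The arithmetic theorem**: all the orders are admissible. -/
theorem arithA {D : ℕ} (hD : 1 < D) {a b r1 r2 r3 : ℤ}
    (hsum : (D : ℤ) ∣ a + b + r1 + r2 + r3)
    (ha : ¬ (D : ℤ) ∣ a ∧ Adm 29 40000 (D / Int.gcd a D))
    (ha1 : ¬ (D : ℤ) ∣ a + r1 ∧ Adm 29 40000 (D / Int.gcd (a + r1) D))
    (ha2 : ¬ (D : ℤ) ∣ a + r2 ∧ Adm 29 40000 (D / Int.gcd (a + r2) D))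
    (ha3 : ¬ (D : ℤ) ∣ a + r3 ∧ Adm 29 40000 (D / Int.gcd (a + r3) D))
    (ha12 : ¬ (D : ℤ) ∣ a + (r1 + r2) ∧ Adm 29 40000 (D / Int.gcd (a + (r1 + r2)) D))
    (ha13 : ¬ (D : ℤ) ∣ a + (r1 + r3) ∧ Adm 29 40000 (D / Int.gcd (a + (r1 + r3)) D))
    (ha23 : ¬ (D : ℤ) ∣ a + (r2 + r3) ∧ Adm 29 40000 (D / Int.gcd (a + (r2 + r3)) D))
    (ha123 : ¬ (D : ℤ) ∣ a + (r1 + r2 + r3) ∧ Adm 29 40000 (D / Int.gcd (a + (r1 + r2 + r3)) D))
    (hr1 : Adm 29 450 (D / Int.gcd r1 D)) (hr2 : Adm 29 450 (D / Int.gcd r2 D)) (hr3 : Adm 29 450 (D / Int.gcd r3 D))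
    (hr4 : Adm 29 450 (D / Int.gcd (a - b) D))
    (hU : ∀ c : ℤ, IsCoprime c (D : ℤ) → Uni D a b r1 r2 r3 c) : False := by
  have hD0 : 0 < D := by omega
  have hDr : (0 : ℝ) < D := by exact_mod_cast hD0
  have hb' : ¬ (D : ℤ) ∣ b := by
    intro h
    refine ha123.1 ?_
    have : a + (r1 + r2 + r3) = (a + b + r1 + r2 + r3) - b := by ring
    rw [this]
    exact dvd_sub hsum h
  -- pointwise
  have hpt : ∀ c : ℤ, IsCoprime c (D : ℤ) → (Phi D (c * a) (c * b) (c * r1) (c * r2) (c * r3) : ℝ) ≤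
      -(2 * D ^ 2 * (1 - TS 24 D (c * a) (c * b) (c * r1) (c * r2) (c * r3)) / (24 : ℕ)) := by
    have main : ∀ c : ℤ, IsCoprime c (D : ℤ) →
        (-(c * r1)) % D + (-(c * r2)) % D + (-(c * r3)) % D = (c * a) % D + (c * b) % D →
        (Phi D (c * a) (c * b) (c * r1) (c * r2) (c * r3) : ℝ) ≤
      -(2 * D ^ 2 * (1 - TS 24 D (c * a) (c * b) (c * r1) (c * r2) (c * r3)) / (24 : ℕ)) := by
      intro c hc heq
      have hs : (D : ℤ) ∣ c * a + c * b + c * r1 + c * r2 + c * r3 := by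
        have : c * a + c * b + c * r1 + c * r2 + c * r3 = c * (a + b + r1 + r2 + r3) := by ring
        rw [this]; exact hsum.mul_left c
      obtain ⟨w1, w2, w3⟩ := (hU c hc).2 heq
      exact phi_le hD0 (by norm_num) hs heq w1 w2 w3
    intro c hc
    rcases sharp hD0 hc hsum ha.1 hb' (hU c hc) (hU (-c) hc.neg_left) with h | h
    · exact main c hc h
    · have := main (-c) hc.neg_left h
      simp only [neg_mul, Phi_neg hD0, TS_neg (show 2 ≤ 24 by norm_num)] at this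
      exact this
  -- the sum over the units
  have hPhi : ∀ c : ℕ, (Phi D (c * a) (c * b) (c * r1) (c * r2) (c * r3) : ℝ) = D ^ 2 *
      (2 * (B ((c : ℝ) * r1 / D) + B ((c : ℝ) * r2 / D) + B ((c : ℝ) * r3 / D) +
        B ((c : ℝ) * (a - b : ℤ) / D)) -
       (B ((c : ℝ) * a / D) + B ((c : ℝ) * (a + r1 : ℤ) / D) + B ((c : ℝ) * (a + r2 : ℤ) / D) +
        B ((c : ℝ) * (a + r3 : ℤ) / D) + B ((c : ℝ) * (a + (r1 + r2) : ℤ) / D) +
        B ((c : ℝ) * (a + (r1 + r3) : ℤ) / D) + B ((c : ℝ) * (a + (r2 + r3) : ℤ) / D) +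
        B ((c : ℝ) * (a + (r1 + r2 + r3) : ℤ) / D))) := by
    intro c
    unfold Phi
    push_cast
    simp only [Q_B hD0]
    push_cast
    simp only [mul_add, mul_sub]
    ring
  have hTS : ∀ c : ℕ, TS 24 D (c * a) (c * b) (c * r1) (c * r2) (c * r3) =
      (tent 24 ((c : ℝ) * r1 / D) + tent 24 ((c : ℝ) * r2 / D) + tent 24 ((c : ℝ) * r3 / D) +
        tent 24 ((c : ℝ) * (a - b : ℤ) / D)) +
       (tent 24 ((c : ℝ) * a / D) + tent 24 ((c : ℝ) * (a + r1 : ℤ) / D) +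
        tent 24 ((c : ℝ) * (a + r2 : ℤ) / D) +
        tent 24 ((c : ℝ) * (a + r3 : ℤ) / D) + tent 24 ((c : ℝ) * (a + (r1 + r2) : ℤ) / D) +
        tent 24 ((c : ℝ) * (a + (r1 + r3) : ℤ) / D) + tent 24 ((c : ℝ) * (a + (r2 + r3) : ℤ) / D) +
        tent 24 ((c : ℝ) * (a + (r1 + r2 + r3) : ℤ) / D)) := by
    intro c
    unfold TS
    push_cast
    simp only [mul_add, mul_sub]
    ring
  have hsumle : ∑ c ∈ U D, (Phi D (c * a) (c * b) (c * r1) (c * r2) (c * r3) : ℝ) ≤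
      ∑ c ∈ U D, (-(2 * D ^ 2 * (1 - TS 24 D (c * a) (c * b) (c * r1) (c * r2) (c * r3)) / (24 : ℕ))) := by
    apply Finset.sum_le_sum
    intro c hc
    rw [U, Finset.mem_filter] at hc
    exact hpt c (Nat.isCoprime_iff_coprime.2 hc.2.symm)
  simp only [hPhi, hTS] at hsumle
  rw [← Finset.mul_sum] at hsumle
  have hre : ∀ s : ℝ, -(2 * (D : ℝ) ^ 2 * (1 - s) / ((24 : ℕ) : ℝ)) = D ^ 2 * (-(1 / 12) + 1 / 12 * s) := by
    intro s; push_cast; ring
  simp only [hre] at hsumle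
  rw [← Finset.mul_sum] at hsumle
  have hle := le_of_mul_le_mul_left hsumle (by positivity)
  simp only [Finset.sum_sub_distrib, Finset.sum_add_distrib, ← Finset.mul_sum, Finset.sum_const,
    card_U, nsmul_eq_mul, orbit_B hD0, orbit_tent hD0] at hle
  have hphi : (0 : ℝ) < D.totient := by exact_mod_cast Nat.totient_pos.2 hD0
  -- costs
  have hθ : ∀ z : ℤ, Adm 29 450 (D / Int.gcd z D) →
      -2 * bet (D / Int.gcd z D) + 1 / 12 * tau 24 (D / Int.gcd z D) ≤ 1 / 78 :=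
    fun z hz => cost_theta_adm (div_gcd_dvd hD0 z).2 hz
  have hσ : ∀ z : ℤ, (¬ (D : ℤ) ∣ z ∧ Adm 29 40000 (D / Int.gcd z D)) →
      bet (D / Int.gcd z D) + 1 / 12 * tau 24 (D / Int.gcd z D) ≤ 39 / 10000 := by
    intro z hz
    obtain ⟨h1, h2⟩ := div_gcd_dvd hD0 z
    refine cost_sig_adm ?_ hz.2
    have : D / Int.gcd z D ≠ 1 := fun h => hz.1 (div_gcd_eq_one hD0 h)
    omega
  have c1 := hθ r1 hr1
  have c2 := hθ r2 hr2
  have c3 := hθ r3 hr3
  have c4 := hθ (a - b) hr4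
  have s1 := hσ a ha
  have s2 := hσ (a + r1) ha1
  have s3 := hσ (a + r2) ha2
  have s4 := hσ (a + r3) ha3
  have s5 := hσ (a + (r1 + r2)) ha12
  have s6 := hσ (a + (r1 + r3)) ha13
  have s7 := hσ (a + (r2 + r3)) ha23
  have s8 := hσ (a + (r1 + r2 + r3)) ha123
  have hfin : (D.totient : ℝ) * (1 / 12 - (4 * (1 / 78) + 8 * (39 / 10000))) ≤ 0 := by
    have := mul_le_mul_of_nonneg_left c1 hphi.le
    have := mul_le_mul_of_nonneg_left c2 hphi.le
    have := mul_le_mul_of_nonneg_left c3 hphi.le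
    have := mul_le_mul_of_nonneg_left c4 hphi.le
    have := mul_le_mul_of_nonneg_left s1 hphi.le
    have := mul_le_mul_of_nonneg_left s2 hphi.le
    have := mul_le_mul_of_nonneg_left s3 hphi.le
    have := mul_le_mul_of_nonneg_left s4 hphi.le
    have := mul_le_mul_of_nonneg_left s5 hphi.le
    have := mul_le_mul_of_nonneg_left s6 hphi.le
    have := mul_le_mul_of_nonneg_left s7 hphi.le
    have := mul_le_mul_of_nonneg_left s8 hphi.le
    linarith
  nlinarith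

end Pool.Agent.TH295.PC
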