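import Pool.Agent.TH295.PC.Gen

set_option autoImplicit false

/-!
Bounds for the costs.
-/

namespace Pool.Agent.TH295.PC

open Finset Pool.Agent.W280.PC

lemma cost_diff {K l M d : ℕ} {k w x x₀ : ℝ} (hK : 2 ≤ K) (hl : 3 ≤ l) (hM : 1 < M) (hk : 0 ≤ k)
    (hw : 0 ≤ w) (hx₀ : 0 < x₀) (hx₀' : 4900 / 3 ≤ x₀ ^ 3 * M ^ 2) (h1 : k - w / 6 ≤ x)
    (hp : ∀ t : ℝ, (l : ℝ) ≤ t → w / (6 * t) + k * (1 / K + (K / (4 * t) - (1 - 1 / K)) / (t - 1)) ≤ x)
    (hc : k * (1 / K + 2 / ((l : ℝ) - 1) ^ 2) + w / (6 * l ^ 2) ≤ x)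
    (hb : k * (1 / K + x₀ / 2) + w / (6 * M) ≤ x) (hd : 0 < d) (h : Adm l M d) :
    k * tau K d - w * bet d ≤ x := by
  rcases h with h | h
  · have h2 := tau_large hK hM h hx₀ hx₀'
    have h3 := (abs_le.1 (bet_large (by omega) h)).1
    have h4 : k * tau K d ≤ k * (1 / K + x₀ / 2) := mul_le_mul_of_nonneg_left h2 hk
    have h5 : w * (-(1 / (6 * M))) ≤ w * bet d := mul_le_mul_of_nonneg_left h3 hw
    have h6 : w / (6 * (M : ℝ)) = -(w * (-(1 / (6 * M)))) := by ring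
    linarith
  · rcases Nat.lt_or_ge 1 d with hd1 | hd1
    · by_cases hpr : d.Prime
      · have hdl : (l : ℝ) ≤ d := by exact_mod_cast Rough.le h hd1
        have h2 := tau_prime hK hpr
        have h3 := hp d hdl
        have h4 : k * tau K d ≤ k * (1 / K + (K / (4 * d) - (1 - 1 / K)) / (d - 1)) :=
          mul_le_mul_of_nonneg_left h2 hk
        rw [bet_prime hpr]
        have h5 : w * (-1 / (6 * (d : ℝ))) = -(w / (6 * d)) := by ring
        rw [h5]
        linarith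
      · have h2 := tau_rough hK hl h hd1 hpr
        have h3 := (abs_le.1 (abs_bet_rough (by omega) h hd1 hpr)).1
        have h4 : k * tau K d ≤ k * (1 / K + 2 / ((l : ℝ) - 1) ^ 2) :=
          mul_le_mul_of_nonneg_left h2 hk
        have h5 : w * (-(1 / (6 * (l : ℝ) ^ 2))) ≤ w * bet d := mul_le_mul_of_nonneg_left h3 hw
        have h6 : w / (6 * (l : ℝ) ^ 2) = -(w * (-(1 / (6 * (l : ℝ) ^ 2)))) := by ring
        linarith
    · have h2 : d = 1 := by omega
      rw [h2, bet_one, tau_one hK]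
      linarith

lemma cost_sum {K l M d : ℕ} {k v y x₀ : ℝ} (hK : 2 ≤ K) (hl : 3 ≤ l) (hKl : K ≤ 2 * l)
    (hM : 1 < M) (hk : 0 ≤ k)
    (hv : 0 ≤ v) (hx₀ : 0 < x₀) (hx₀' : 4900 / 3 ≤ x₀ ^ 3 * M ^ 2)
    (hc : k * (1 / K + 2 / ((l : ℝ) - 1) ^ 2) + v / (6 * l ^ 2) ≤ y)
    (hb : k * (1 / K + x₀ / 2) + v / (6 * M) ≤ y) (hd : 1 < d) (h : Adm l M d) :
    k * tau K d + v * bet d ≤ y := by
  rcases h with h | h
  · have h2 := tau_large hK hM h hx₀ hx₀'
    have h3 := (abs_le.1 (bet_large (by omega) h)).2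
    have h4 : k * tau K d ≤ k * (1 / K + x₀ / 2) := mul_le_mul_of_nonneg_left h2 hk
    have h5 : v * bet d ≤ v * (1 / (6 * M)) := mul_le_mul_of_nonneg_left h3 hv
    have h6 : v / (6 * (M : ℝ)) = v * (1 / (6 * M)) := by ring
    linarith
  · have hl' : (3 : ℝ) ≤ l := by exact_mod_cast hl
    by_cases hpr : d.Prime
    · have hdl : (l : ℝ) ≤ d := by exact_mod_cast Rough.le h hd
      have hK' : (2 : ℝ) ≤ K := by exact_mod_cast hK
      have hKl' : (K : ℝ) ≤ 2 * l := by exact_mod_cast hKl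
      have h2 := tau_prime hK hpr
      have h3 : ((K : ℝ) / (4 * d) - (1 - 1 / K)) / (d - 1) ≤ 0 := by
        have e1 : (K : ℝ) / (4 * d) ≤ 1 / 2 := by
          rw [div_le_div_iff₀ (by linarith) (by norm_num)]; linarith
        have e2 : (1 : ℝ) / K ≤ 1 / 2 := one_div_le_one_div_of_le (by norm_num) hK'
        exact div_nonpos_of_nonpos_of_nonneg (by linarith) (by linarith)
      have h4 : (0 : ℝ) ≤ 2 / ((l : ℝ) - 1) ^ 2 := by positivity
      have h5 : k * tau K d ≤ k * (1 / K + 2 / ((l : ℝ) - 1) ^ 2) :=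
        mul_le_mul_of_nonneg_left (by linarith) hk
      rw [bet_prime hpr]
      have h6 : v * (-1 / (6 * (d : ℝ))) ≤ 0 := by
        have : -1 / (6 * (d : ℝ)) ≤ 0 := div_nonpos_of_nonpos_of_nonneg (by norm_num) (by positivity)
        exact mul_nonpos_of_nonneg_of_nonpos hv this
      have h7 : (0 : ℝ) ≤ v / (6 * l ^ 2) := by positivity
      linarith
    · have h2 := tau_rough hK hl h hd hpr
      have h3 := (abs_le.1 (abs_bet_rough (by omega) h hd hpr)).2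
      have h4 : k * tau K d ≤ k * (1 / K + 2 / ((l : ℝ) - 1) ^ 2) :=
        mul_le_mul_of_nonneg_left h2 hk
      have h5 : v * bet d ≤ v * (1 / (6 * (l : ℝ) ^ 2)) := mul_le_mul_of_nonneg_left h3 hv
      have h6 : v / (6 * (l : ℝ) ^ 2) = v * (1 / (6 * (l : ℝ) ^ 2)) := by ring
      linarith

end Pool.Agent.TH295.PC
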