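import Pool.Agent.W280.PE.Point7

set_option autoImplicit false
set_option linter.unusedVariables false
set_option maxHeartbeats 4000000

/-!
The quantitative pointwise inequality for rank four (type E7).
-/

namespace Pool.Agent.TH295.PC

open Pool.Agent.W280.PC Pool.Agent.W280.PE

lemma a3_absM {r1 r2 r3 M : ℤ} (m1 : M ≤ |r1|) (m2 : M ≤ |r2|) (m3 : M ≤ |r3|)
    (m4 : M ≤ |r1 + r2 + r3|) (m5 : M ≤ |r1 + r2|) (m6 : M ≤ |r2 + r3|) :
    |r1| + |r2| + |r3| + |r1 + r2 + r3| + |r1 + r2| + |r2 + r3| ≤ -3 * (3 * r1 + 2 * r2 + r3) - 8 * M ∨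
    |r1| + |r2| + |r3| + |r1 + r2 + r3| + |r1 + r2| + |r2 + r3| ≤ -3 * (-r1 + 2 * r2 + r3) - 8 * M ∨
    |r1| + |r2| + |r3| + |r1 + r2 + r3| + |r1 + r2| + |r2 + r3| ≤ -3 * (-r1 - 2 * r2 + r3) - 8 * M ∨
    |r1| + |r2| + |r3| + |r1 + r2 + r3| + |r1 + r2| + |r2 + r3| ≤
      -3 * (-r1 - 2 * r2 - 3 * r3) - 8 * M := by
  rcases abs_cases r1 with ⟨h1, g1⟩ | ⟨h1, g1⟩ <;>
  rcases abs_cases r2 with ⟨h2, g2⟩ | ⟨h2, g2⟩ <;>
  rcases abs_cases r3 with ⟨h3, g3⟩ | ⟨h3, g3⟩ <;>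
  rcases abs_cases (r1 + r2 + r3) with ⟨h4, g4⟩ | ⟨h4, g4⟩ <;>
  rcases abs_cases (r1 + r2) with ⟨h5, g5⟩ | ⟨h5, g5⟩ <;>
  rcases abs_cases (r2 + r3) with ⟨h6, g6⟩ | ⟨h6, g6⟩ <;>
  rw [h1] at m1 <;> rw [h2] at m2 <;> rw [h3] at m3 <;> rw [h4] at m4 <;> rw [h5] at m5 <;>
  rw [h6] at m6 <;>
  rw [h1, h2, h3, h4, h5, h6] <;> omega

lemma e7_absM {D M a0 a1 a2 a3 b0 b1 b2 b3 c0 c1 : ℤ}
    (hs : a0 + a1 + a2 + a3 + b0 + b1 + b2 + b3 + 2 * c0 + 2 * c1 = 0)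
    (ga0 : a0 + M ≤ a1)
    (ga1 : a1 + M ≤ a2)
    (ga2 : a2 + M ≤ a3)
    (ga3 : a3 + M ≤ a0 + D)
    (gb0 : b0 + M ≤ b1)
    (gb1 : b1 + M ≤ b2)
    (gb2 : b2 + M ≤ b3)
    (gb3 : b3 + M ≤ b0 + D)
    (gc0 : c0 + M ≤ c1)
    (gc1 : c1 + M ≤ c0 + D)
    (f010 : -D + M ≤ a0 + b1 + c0)
    (f011 : a0 + b1 + c1 ≤ -M)
    (f030 : a0 + b3 + c0 ≤ -M)
    (f031 : M ≤ a0 + b3 + c1)
    (f100 : -D + M ≤ a1 + b0 + c0)
    (f101 : a1 + b0 + c1 ≤ -M)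
    (f120 : a1 + b2 + c0 ≤ -M)
    (f121 : M ≤ a1 + b2 + c1)
    (f210 : a2 + b1 + c0 ≤ -M)
    (f211 : M ≤ a2 + b1 + c1)
    (f230 : M ≤ a2 + b3 + c0)
    (f231 : a2 + b3 + c1 ≤ D - M)
    (f300 : a3 + b0 + c0 ≤ -M)
    (f301 : M ≤ a3 + b0 + c1)
    (f320 : M ≤ a3 + b2 + c0)
    (f321 : a3 + b2 + c1 ≤ D - M)
    (k0113 : a0 + a1 + b1 + b3 + c0 + c1 ≤ -M)
    (k0203 : a0 + a2 + b0 + b3 + c0 + c1 ≤ -M)
    (k0212 : a0 + a2 + b1 + b2 + c0 + c1 ≤ -M)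
    (k0302 : a0 + a3 + b0 + b2 + c0 + c1 ≤ -M)
    (k1202 : a1 + a2 + b0 + b2 + c0 + c1 ≤ -M)
    (k1301 : a1 + a3 + b0 + b1 + c0 + c1 ≤ -M)
    (k1323 : a1 + a3 + b2 + b3 + c0 + c1 ≤ D - M)
    (k2313 : a2 + a3 + b1 + b3 + c0 + c1 ≤ D - M)
    (m0 : M ≤ |a3 + b1 + c0|)
    (m1 : M ≤ |a0 + b2 + c1|)
    (m2 : M ≤ |a1 + b3 + c0|)
    (m3 : M ≤ |a2 + b0 + c1|)
    (m4 : M ≤ |a0 + a3 + b1 + b2 + c0 + c1|)
    (m5 : M ≤ |a0 + a1 + b2 + b3 + c0 + c1|)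
    (m6 : M ≤ |a1 + b1 + c1|)
    (m7 : M ≤ |a2 + b2 + c0|)
    (m8 : M ≤ |a3 + b3 + c1 - D|)
    (m9 : M ≤ |a0 + b0 + c0 + D|)
    (m10 : M ≤ |a1 + a2 + b1 + b2 + c0 + c1|)
    (m11 : M ≤ |a2 + a3 + b2 + b3 + c0 + c1 - D|)
    (m12 : M ≤ |a0 + a2 + b1 + b3 + c0 + c1|)
    : (|a3 + b1 + c0| + |a0 + b2 + c1| + |a1 + b3 + c0| + |a2 + b0 + c1| + |a0 + a3 + b1 + b2 + c0 + c1| + |a0 + a1 + b2 + b3 + c0 + c1|) + (|a1 + b1 + c1| + |a2 + b2 + c0| + |a3 + b3 + c1 - D| + |a0 + b0 + c0 + D| + |a1 + a2 + b1 + b2 + c0 + c1| + |a2 + a3 + b2 + b3 + c0 + c1 - D|) + |a0 + a2 + b1 + b3 + c0 + c1| ≤ 3 * D - 33 * M := by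
  have k1 := a3_absM (r1 := a3 + b1 + c0) (r2 := a0 + b2 + c1) (r3 := a1 + b3 + c0) m0 m1 m2
    (by rw [show (a3 + b1 + c0) + (a0 + b2 + c1) + (a1 + b3 + c0) = -(a2 + b0 + c1) by linarith, abs_neg]; exact m3)
    (by rw [show (a3 + b1 + c0) + (a0 + b2 + c1) = a0 + a3 + b1 + b2 + c0 + c1 by ring]; exact m4)
    (by rw [show (a0 + b2 + c1) + (a1 + b3 + c0) = a0 + a1 + b2 + b3 + c0 + c1 by ring]; exact m5)
  have k2 := a3_absM (r1 := a1 + b1 + c1) (r2 := a2 + b2 + c0) (r3 := a3 + b3 + c1 - D) m6 m7 m8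
    (by rw [show (a1 + b1 + c1) + (a2 + b2 + c0) + (a3 + b3 + c1 - D) = -(a0 + b0 + c0 + D) by linarith, abs_neg]; exact m9)
    (by rw [show (a1 + b1 + c1) + (a2 + b2 + c0) = a1 + a2 + b1 + b2 + c0 + c1 by ring]; exact m10)
    (by rw [show (a2 + b2 + c0) + (a3 + b3 + c1 - D) = a2 + a3 + b2 + b3 + c0 + c1 - D by ring]; exact m11)
  rw [show (a3 + b1 + c0) + (a0 + b2 + c1) + (a1 + b3 + c0) = -(a2 + b0 + c1) by linarith, abs_neg,
    show (a3 + b1 + c0) + (a0 + b2 + c1) = a0 + a3 + b1 + b2 + c0 + c1 by ring,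
    show (a0 + b2 + c1) + (a1 + b3 + c0) = a0 + a1 + b2 + b3 + c0 + c1 by ring] at k1
  rw [show (a1 + b1 + c1) + (a2 + b2 + c0) + (a3 + b3 + c1 - D) = -(a0 + b0 + c0 + D) by linarith, abs_neg,
    show (a1 + b1 + c1) + (a2 + b2 + c0) = a1 + a2 + b1 + b2 + c0 + c1 by ring,
    show (a2 + b2 + c0) + (a3 + b3 + c1 - D) = a2 + a3 + b2 + b3 + c0 + c1 - D by ring] at k2
  clear m0 m1 m2 m3 m4 m5 m6 m7 m8 m9 m10 m11
  generalize |a3 + b1 + c0| + |a0 + b2 + c1| + |a1 + b3 + c0| + |a2 + b0 + c1| + |a0 + a3 + b1 + b2 + c0 + c1| + |a0 + a1 + b2 + b3 + c0 + c1| = S1 at k1 ⊢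
  generalize |a1 + b1 + c1| + |a2 + b2 + c0| + |a3 + b3 + c1 - D| + |a0 + b0 + c0 + D| + |a1 + a2 + b1 + b2 + c0 + c1| + |a2 + a3 + b2 + b3 + c0 + c1 - D| = S2 at k2 ⊢
  rcases abs_cases (a0 + a2 + b1 + b3 + c0 + c1) with ⟨h0, g0⟩ | ⟨h0, g0⟩
  · rw [h0] at m12 ⊢
    rcases k1 with k1 | k1 | k1 | k1
    · rcases k2 with k2 | k2 | k2 | k2
      · linarith only [hs, k1, k2, k0203, m12]
      · linarith only [hs, k1, k2, f320, m12]
      · linarith only [hs, k1, k2, ga2, m12]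
      · linarith only [hs, k1, k2, f231, m12]
    · rcases k2 with k2 | k2 | k2 | k2
      · linarith only [hs, k1, k2, f121, m12]
      · linarith only [hs, k1, k2, gb1, m12]
      · linarith only [hs, k1, k2, f210, m12]
      · linarith only [hs, k1, k2, k2313, m12]
    · rcases k2 with k2 | k2 | k2 | k2
      · linarith only [hs, k1, k2, ga0, m12]
      · linarith only [hs, k1, k2, f011, m12]
      · linarith only [hs, k1, k2, k0212, m12]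
      · linarith only [hs, k1, k2, f100, m12]
    · rcases k2 with k2 | k2 | k2 | k2
      · linarith only [hs, k1, k2, f030, m12]
      · linarith only [hs, k1, k2, k0113, m12]
      · linarith only [hs, k1, k2, f301, m12]
      · linarith only [hs, k1, k2, gb3, m12]
  · rw [h0] at m12 ⊢
    rcases k1 with k1 | k1 | k1 | k1
    · rcases k2 with k2 | k2 | k2 | k2
      · linarith only [hs, k1, k2, gb0, m12]
      · linarith only [hs, k1, k2, f101, m12]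
      · linarith only [hs, k1, k2, k1202, m12]
      · linarith only [hs, k1, k2, f010, m12]
    · rcases k2 with k2 | k2 | k2 | k2
      · linarith only [hs, k1, k2, f300, m12]
      · linarith only [hs, k1, k2, k1301, m12]
      · linarith only [hs, k1, k2, f031, m12]
      · linarith only [hs, k1, k2, ga3, m12]
    · rcases k2 with k2 | k2 | k2 | k2
      · linarith only [hs, k1, k2, k0302, m12]
      · linarith only [hs, k1, k2, f230, m12]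
      · linarith only [hs, k1, k2, gb2, m12]
      · linarith only [hs, k1, k2, f321, m12]
    · rcases k2 with k2 | k2 | k2 | k2
      · linarith only [hs, k1, k2, f211, m12]
      · linarith only [hs, k1, k2, ga1, m12]
      · linarith only [hs, k1, k2, f120, m12]
      · linarith only [hs, k1, k2, k1323, m12]

/-- three points, rank four, one leg with doubled exponents -/
lemma e7_pointM {D : ℕ} (hD : 0 < D) {M a0 a1 a2 a3 b0 b1 b2 b3 c0 c1 : ℤ} (hM : 0 ≤ M)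
    (hs : a0 + a1 + a2 + a3 + b0 + b1 + b2 + b3 + 2 * c0 + 2 * c1 = 0)
    (ga0 : a0 + M ≤ a1)
    (ga1 : a1 + M ≤ a2)
    (ga2 : a2 + M ≤ a3)
    (ga3 : a3 + M ≤ a0 + (D : ℤ))
    (gb0 : b0 + M ≤ b1)
    (gb1 : b1 + M ≤ b2)
    (gb2 : b2 + M ≤ b3)
    (gb3 : b3 + M ≤ b0 + (D : ℤ))
    (gc0 : c0 + M ≤ c1)
    (gc1 : c1 + M ≤ c0 + (D : ℤ))
    (f010 : -(D : ℤ) + M ≤ a0 + b1 + c0)
    (f011 : a0 + b1 + c1 ≤ -M)
    (f030 : a0 + b3 + c0 ≤ -M)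
    (f031 : M ≤ a0 + b3 + c1)
    (f100 : -(D : ℤ) + M ≤ a1 + b0 + c0)
    (f101 : a1 + b0 + c1 ≤ -M)
    (f120 : a1 + b2 + c0 ≤ -M)
    (f121 : M ≤ a1 + b2 + c1)
    (f210 : a2 + b1 + c0 ≤ -M)
    (f211 : M ≤ a2 + b1 + c1)
    (f230 : M ≤ a2 + b3 + c0)
    (f231 : a2 + b3 + c1 ≤ (D : ℤ) - M)
    (f300 : a3 + b0 + c0 ≤ -M)
    (f301 : M ≤ a3 + b0 + c1)
    (f320 : M ≤ a3 + b2 + c0)
    (f321 : a3 + b2 + c1 ≤ (D : ℤ) - M)
    (k0113 : a0 + a1 + b1 + b3 + c0 + c1 ≤ -M)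
    (k0203 : a0 + a2 + b0 + b3 + c0 + c1 ≤ -M)
    (k0212 : a0 + a2 + b1 + b2 + c0 + c1 ≤ -M)
    (k0302 : a0 + a3 + b0 + b2 + c0 + c1 ≤ -M)
    (k1202 : a1 + a2 + b0 + b2 + c0 + c1 ≤ -M)
    (k1301 : a1 + a3 + b0 + b1 + c0 + c1 ≤ -M)
    (k1323 : a1 + a3 + b2 + b3 + c0 + c1 ≤ (D : ℤ) - M)
    (k2313 : a2 + a3 + b1 + b3 + c0 + c1 ≤ (D : ℤ) - M)
    (m0 : M ≤ |a3 + b1 + c0|)
    (m1 : M ≤ |a0 + b2 + c1|)
    (m2 : M ≤ |a1 + b3 + c0|)
    (m3 : M ≤ |a2 + b0 + c1|)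
    (m4 : M ≤ |a0 + a3 + b1 + b2 + c0 + c1|)
    (m5 : M ≤ |a0 + a1 + b2 + b3 + c0 + c1|)
    (m6 : M ≤ |a1 + b1 + c1|)
    (m7 : M ≤ |a2 + b2 + c0|)
    (m8 : M ≤ |a3 + b3 + c1 - (D : ℤ)|)
    (m9 : M ≤ |a0 + b0 + c0 + (D : ℤ)|)
    (m10 : M ≤ |a1 + a2 + b1 + b2 + c0 + c1|)
    (m11 : M ≤ |a2 + a3 + b2 + b3 + c0 + c1 - (D : ℤ)|)
    (m12 : M ≤ |a0 + a2 + b1 + b3 + c0 + c1|)
    : 7 * (Q D (a1 - a0) + Q D (a2 - a0) + Q D (a3 - a0) + Q D (a2 - a1) + Q D (a3 - a1) + Q D (a3 - a2) + Q D (b1 - b0) + Q D (b2 - b0) + Q D (b3 - b0) + Q D (b2 - b1) + Q D (b3 - b1) + Q D (b3 - b2))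
      + 16 * Q D (c1 - c0)
      - 2 * (Q D (a0 + b0 + c0) + Q D (a0 + b0 + c1) + Q D (a0 + b1 + c0) + Q D (a0 + b1 + c1) + Q D (a0 + b2 + c0) + Q D (a0 + b2 + c1) + Q D (a0 + b3 + c0) + Q D (a0 + b3 + c1) + Q D (a1 + b0 + c0) + Q D (a1 + b0 + c1) + Q D (a1 + b1 + c0) + Q D (a1 + b1 + c1) + Q D (a1 + b2 + c0) + Q D (a1 + b2 + c1) + Q D (a1 + b3 + c0) + Q D (a1 + b3 + c1) + Q D (a2 + b0 + c0) + Q D (a2 + b0 + c1) + Q D (a2 + b1 + c0) + Q D (a2 + b1 + c1) + Q D (a2 + b2 + c0) + Q D (a2 + b2 + c1) + Q D (a2 + b3 + c0) + Q D (a2 + b3 + c1) + Q D (a3 + b0 + c0) + Q D (a3 + b0 + c1) + Q D (a3 + b1 + c0) + Q D (a3 + b1 + c1) + Q D (a3 + b2 + c0) + Q D (a3 + b2 + c1) + Q D (a3 + b3 + c0) + Q D (a3 + b3 + c1))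
      - (Q D (a0 + a1 + b0 + b1 + c0 + c1) + Q D (a0 + a1 + b0 + b2 + c0 + c1) + Q D (a0 + a1 + b0 + b3 + c0 + c1) + Q D (a0 + a1 + b1 + b2 + c0 + c1) + Q D (a0 + a1 + b1 + b3 + c0 + c1) + Q D (a0 + a1 + b2 + b3 + c0 + c1) + Q D (a0 + a2 + b0 + b1 + c0 + c1) + Q D (a0 + a2 + b0 + b2 + c0 + c1) + Q D (a0 + a2 + b0 + b3 + c0 + c1) + Q D (a0 + a2 + b1 + b2 + c0 + c1) + Q D (a0 + a2 + b1 + b3 + c0 + c1) + Q D (a0 + a2 + b2 + b3 + c0 + c1) + Q D (a0 + a3 + b0 + b1 + c0 + c1) + Q D (a0 + a3 + b0 + b2 + c0 + c1) + Q D (a0 + a3 + b0 + b3 + c0 + c1) + Q D (a0 + a3 + b1 + b2 + c0 + c1) + Q D (a0 + a3 + b1 + b3 + c0 + c1) + Q D (a0 + a3 + b2 + b3 + c0 + c1) + Q D (a1 + a2 + b0 + b1 + c0 + c1) + Q D (a1 + a2 + b0 + b2 + c0 + c1) + Q D (a1 + a2 + b0 + b3 + c0 + c1) + Q D (a1 + a2 + b1 + b2 + c0 + c1) + Q D (a1 + a2 + b1 + b3 + c0 + c1) + Q D (a1 + a2 + b2 + b3 + c0 + c1) + Q D (a1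 + a3 + b0 + b1 + c0 + c1) + Q D (a1 + a3 + b0 + b2 + c0 + c1) + Q D (a1 + a3 + b0 + b3 + c0 + c1) + Q D (a1 + a3 + b1 + b2 + c0 + c1) + Q D (a1 + a3 + b1 + b3 + c0 + c1) + Q D (a1 + a3 + b2 + b3 + c0 + c1) + Q D (a2 + a3 + b0 + b1 + c0 + c1) + Q D (a2 + a3 + b0 + b2 + c0 + c1) + Q D (a2 + a3 + b0 + b3 + c0 + c1) + Q D (a2 + a3 + b1 + b2 + c0 + c1) + Q D (a2 + a3 + b1 + b3 + c0 + c1) + Q D (a2 + a3 + b2 + b3 + c0 + c1)) ≤ -(66 * M * D) := by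
  have hD' : (0 : ℤ) < D := by exact_mod_cast hD
  have key := e7_absM hs ga0 ga1 ga2 ga3 gb0 gb1 gb2 gb3 gc0 gc1 f010 f011 f030 f031 f100 f101 f120 f121 f210 f211 f230 f231 f300 f301 f320 f321 k0113 k0203 k0212 k0302 k1202 k1301 k1323 k2313 m0 m1 m2 m3 m4 m5 m6 m7 m8 m9 m10 m11 m12
  clear m0 m1 m2 m3 m4 m5 m6 m7 m8 m9 m10 m11 m12
  have qa01 := Q_of hD (a1 - a0) (by linarith only [hs, ga0, hM]) (by linarith only [hs, ga1, ga2, ga3, hM])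
  have qa02 := Q_of hD (a2 - a0) (by linarith only [hs, ga0, ga1, hM]) (by linarith only [hs, ga3, f210, f231, k1202, hM])
  have qa03 := Q_of hD (a3 - a0) (by linarith only [hs, ga1, ga2, gb0, gb2, f011, f030, hM]) (by linarith only [hs, ga3, hM])
  have qa12 := Q_of hD (a2 - a1) (by linarith only [hs, ga1, hM]) (by linarith only [hs, ga0, ga2, ga3, hM])
  have qa13 := Q_of hD (a3 - a1) (by linarith only [hs, ga1, ga2, hM]) (by linarith only [hs, ga0, ga3, hM])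
  have qa23 := Q_of hD (a3 - a2) (by linarith only [hs, ga2, hM]) (by linarith only [hs, ga0, ga1, ga3, hM])
  have qb01 := Q_of hD (b1 - b0) (by linarith only [hs, gb0, hM]) (by linarith only [hs, gb1, gb2, gb3, hM])
  have qb02 := Q_of hD (b2 - b0) (by linarith only [hs, gb0, gb1, hM]) (by linarith only [hs, gb2, gb3, hM])
  have qb03 := Q_of hD (b3 - b0) (by linarith only [hs, gb0, gb1, gb2, hM]) (by linarith only [hs, gb3, hM])
  have qb12 := Q_of hD (b2 - b1) (by linarith only [hs, gb1, hM]) (by linarith only [hs, gb0, gb2, gb3, hM])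
  have qb13 := Q_of hD (b3 - b1) (by linarith only [hs, gb1, gb2, hM]) (by linarith only [hs, gb0, gb3, hM])
  have qb23 := Q_of hD (b3 - b2) (by linarith only [hs, gb2, hM]) (by linarith only [hs, gb0, gb1, gb3, hM])
  have qc := Q_of hD (c1 - c0) (by linarith only [hs, gc0, hM]) (by linarith only [hs, gc1, hM])
  have e000 := Q_ofm hD (a0 + b0 + c0) (by linarith only [hs, gb3, gc1, f031, hM]) (by linarith only [hs, ga0, gb0, gc0, f230, f320, hM])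
  have e001 := Q_of' hD (a0 + b0 + c1) (by linarith only [hs, gb3, f031, hM]) (by linarith only [hs, ga0, f101, hM])
  have e010 := Q_of' hD (a0 + b1 + c0) (by linarith only [hs, f010, hM]) (by linarith only [hs, gc0, f011, hM])
  have e011 := Q_of' hD (a0 + b1 + c1) (by linarith only [hs, gc0, f010, hM]) (by linarith only [hs, f011, hM])
  have e020 := Q_of' hD (a0 + b2 + c0) (by linarith only [hs, gb1, f010, hM]) (by linarith only [hs, gb2, f030, hM])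
  have e021 := Q_of0 hD (a0 + b2 + c1) (by linarith only [hs, ga3, gb1, gc0, f101, f231, hM]) (by linarith only [hs, ga0, gb2, gc1, f211, f301, hM])
  have e030 := Q_of' hD (a0 + b3 + c0) (by linarith only [hs, gc1, f031, hM]) (by linarith only [hs, f030, hM])
  have e031 := Q_of hD (a0 + b3 + c1) (by linarith only [hs, f031, hM]) (by linarith only [hs, gc1, f030, hM])
  have e100 := Q_of' hD (a1 + b0 + c0) (by linarith only [hs, f100, hM]) (by linarith only [hs, gc0, f101, hM])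
  have e101 := Q_of' hD (a1 + b0 + c1) (by linarith only [hs, gc0, f100, hM]) (by linarith only [hs, f101, hM])
  have e110 := Q_of' hD (a1 + b1 + c0) (by linarith only [hs, ga0, gb0, f231, f321, hM]) (by linarith only [hs, ga1, gb1, f031, f301, hM])
  have e111 := Q_of0 hD (a1 + b1 + c1) (by linarith only [hs, ga0, gc0, f010, hM]) (by linarith only [hs, ga1, gb1, gc1, f031, f301, hM])
  have e120 := Q_of' hD (a1 + b2 + c0) (by linarith only [hs, gc1, f121, hM]) (by linarith only [hs, f120, hM])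
  have e121 := Q_of hD (a1 + b2 + c1) (by linarith only [hs, f121, hM]) (by linarith only [hs, gc1, f120, hM])
  have e130 := Q_of0 hD (a1 + b3 + c0) (by linarith only [hs, ga0, gc1, f031, hM]) (by linarith only [hs, ga1, gb3, gc0, f010, f320, hM])
  have e131 := Q_of hD (a1 + b3 + c1) (by linarith only [hs, ga0, f031, hM]) (by linarith only [hs, ga1, gb3, f010, f320, hM])
  have e200 := Q_of' hD (a2 + b0 + c0) (by linarith only [hs, ga1, f100, hM]) (by linarith only [hs, ga2, gb0, f031, f121, hM])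
  have e201 := Q_of0 hD (a2 + b0 + c1) (by linarith only [hs, ga1, gb3, gc0, f011, f321, hM]) (by linarith only [hs, gc1, f031, k0203, hM])
  have e210 := Q_of' hD (a2 + b1 + c0) (by linarith only [hs, gc1, f211, hM]) (by linarith only [hs, f210, hM])
  have e211 := Q_of hD (a2 + b1 + c1) (by linarith only [hs, f211, hM]) (by linarith only [hs, gc1, f210, hM])
  have e220 := Q_of0 hD (a2 + b2 + c0) (by linarith only [hs, gc1, f030, k1301, hM]) (by linarith only [hs, ga2, gc0, f321, hM])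
  have e221 := Q_of hD (a2 + b2 + c1) (by linarith only [hs, ga1, f121, hM]) (by linarith only [hs, ga2, f321, hM])
  have e230 := Q_of hD (a2 + b3 + c0) (by linarith only [hs, f230, hM]) (by linarith only [hs, gc0, f231, hM])
  have e231 := Q_of hD (a2 + b3 + c1) (by linarith only [hs, gc0, f230, hM]) (by linarith only [hs, f231, hM])
  have e300 := Q_of' hD (a3 + b0 + c0) (by linarith only [hs, gc1, f301, hM]) (by linarith only [hs, f300, hM])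
  have e301 := Q_of hD (a3 + b0 + c1) (by linarith only [hs, f301, hM]) (by linarith only [hs, gc1, f300, hM])
  have e310 := Q_of0 hD (a3 + b1 + c0) (by linarith only [hs, ga2, gb0, gc1, f030, f120, hM]) (by linarith only [hs, ga3, gb1, gc0, f100, f230, hM])
  have e311 := Q_of hD (a3 + b1 + c1) (by linarith only [hs, ga2, f211, hM]) (by linarith only [hs, ga3, f011, hM])
  have e320 := Q_of hD (a3 + b2 + c0) (by linarith only [hs, f320, hM]) (by linarith only [hs, gc0, f321, hM])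
  have e321 := Q_of hD (a3 + b2 + c1) (by linarith only [hs, gc0, f320, hM]) (by linarith only [hs, f321, hM])
  have e330 := Q_of hD (a3 + b3 + c0) (by linarith only [hs, ga2, gb2, f011, f101, hM]) (by linarith only [hs, ga3, f030, hM])
  have e331 := Q_ofp hD (a3 + b3 + c1) (by linarith only [hs, ga2, gb2, gc0, f011, f101, hM]) (by linarith only [hs, ga3, gb3, gc1, f121, f211, hM])
  have u0102 := Q_of' hD (a0 + a1 + b0 + b2 + c0 + c1) (by linarith only [hs, k2313, hM]) (by linarith only [hs, ga0, f101, f120, hM])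
  have v0102 : Q D (a2 + a3 + b1 + b3 + c0 + c1) = Q D (a0 + a1 + b0 + b2 + c0 + c1) := by
    rw [← Q_neg hD (a0 + a1 + b0 + b2 + c0 + c1)]; congr 1; linarith only [hs]
  have u0103 := Q_of' hD (a0 + a1 + b0 + b3 + c0 + c1) (by linarith only [hs, ga3, gb2, f100, f210, hM]) (by linarith only [hs, f030, f101, hM])
  have v0103 : Q D (a2 + a3 + b1 + b2 + c0 + c1) = Q D (a0 + a1 + b0 + b3 + c0 + c1) := by
    rw [← Q_neg hD (a0 + a1 + b0 + b3 + c0 + c1)]; congr 1; linarith only [hs]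
  have u0112 := Q_of' hD (a0 + a1 + b1 + b2 + c0 + c1) (by linarith only [hs, f010, f121, hM]) (by linarith only [hs, f011, f120, hM])
  have v0112 : Q D (a2 + a3 + b0 + b3 + c0 + c1) = Q D (a0 + a1 + b1 + b2 + c0 + c1) := by
    rw [← Q_neg hD (a0 + a1 + b1 + b2 + c0 + c1)]; congr 1; linarith only [hs]
  have u0113 := Q_of' hD (a0 + a1 + b1 + b3 + c0 + c1) (by linarith only [hs, ga3, f100, f210, k0203, k0302, k1202, hM]) (by linarith only [hs, k0113, hM])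
  have v0113 : Q D (a2 + a3 + b0 + b2 + c0 + c1) = Q D (a0 + a1 + b1 + b3 + c0 + c1) := by
    rw [← Q_neg hD (a0 + a1 + b1 + b3 + c0 + c1)]; congr 1; linarith only [hs]
  have u0123 := Q_of0 hD (a0 + a1 + b2 + b3 + c0 + c1) (by linarith only [hs, gc1, f210, f300, hM]) (by linarith only [hs, gc1, f030, f120, hM])
  have v0123 : Q D (a2 + a3 + b0 + b1 + c0 + c1) = Q D (a0 + a1 + b2 + b3 + c0 + c1) := by
    rw [← Q_neg hD (a0 + a1 + b2 + b3 + c0 + c1)]; congr 1; linarith only [hs]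
  have u0201 := Q_of' hD (a0 + a2 + b0 + b1 + c0 + c1) (by linarith only [hs, k1323, hM]) (by linarith only [hs, ga2, gb0, gb1, gb2, f011, f121, hM])
  have v0201 : Q D (a1 + a3 + b2 + b3 + c0 + c1) = Q D (a0 + a2 + b0 + b1 + c0 + c1) := by
    rw [← Q_neg hD (a0 + a2 + b0 + b1 + c0 + c1)]; congr 1; linarith only [hs]
  have u0202 := Q_of' hD (a0 + a2 + b0 + b2 + c0 + c1) (by linarith only [hs, ga1, ga3, gb1, gb3, hM]) (by linarith only [hs, ga0, k1202, hM])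
  have v0202 : Q D (a1 + a3 + b1 + b3 + c0 + c1) = Q D (a0 + a2 + b0 + b2 + c0 + c1) := by
    rw [← Q_neg hD (a0 + a2 + b0 + b2 + c0 + c1)]; congr 1; linarith only [hs]
  have u0203 := Q_of' hD (a0 + a2 + b0 + b3 + c0 + c1) (by linarith only [hs, gb1, f120, f321, hM]) (by linarith only [hs, k0203, hM])
  have v0203 : Q D (a1 + a3 + b1 + b2 + c0 + c1) = Q D (a0 + a2 + b0 + b3 + c0 + c1) := by
    rw [← Q_neg hD (a0 + a2 + b0 + b3 + c0 + c1)]; congr 1; linarith only [hs]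
  have u0212 := Q_of' hD (a0 + a2 + b1 + b2 + c0 + c1) (by linarith only [hs, gb1, f010, f211, hM]) (by linarith only [hs, k0212, hM])
  have v0212 : Q D (a1 + a3 + b0 + b3 + c0 + c1) = Q D (a0 + a2 + b1 + b2 + c0 + c1) := by
    rw [← Q_neg hD (a0 + a2 + b1 + b2 + c0 + c1)]; congr 1; linarith only [hs]
  have u0213 := Q_of0 hD (a0 + a2 + b1 + b3 + c0 + c1) (by linarith only [hs, f010, f031, f211, f230, hM, hD']) (by linarith only [hs, ga0, gb3, f210, f320, hM, hD'])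
  have v0213 : Q D (a1 + a3 + b0 + b2 + c0 + c1) = Q D (a0 + a2 + b1 + b3 + c0 + c1) := by
    rw [← Q_neg hD (a0 + a2 + b1 + b3 + c0 + c1)]; congr 1; linarith only [hs]
  have u0301 := Q_of' hD (a0 + a3 + b0 + b1 + c0 + c1) (by linarith only [hs, ga2, gb3, f010, f120, hM]) (by linarith only [hs, f011, f121, k0302, k1301, hM])
  have v0301 : Q D (a1 + a2 + b2 + b3 + c0 + c1) = Q D (a0 + a3 + b0 + b1 + c0 + c1) := by
    rw [← Q_neg hD (a0 + a3 + b0 + b1 + c0 + c1)]; congr 1; linarith only [hs]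
  have u0302 := Q_of' hD (a0 + a3 + b0 + b2 + c0 + c1) (by linarith only [hs, gb1, f120, f231, hM]) (by linarith only [hs, k0302, hM])
  have v0302 : Q D (a1 + a2 + b1 + b3 + c0 + c1) = Q D (a0 + a3 + b0 + b2 + c0 + c1) := by
    rw [← Q_neg hD (a0 + a3 + b0 + b2 + c0 + c1)]; congr 1; linarith only [hs]
  have u0312 := Q_of0 hD (a0 + a3 + b1 + b2 + c0 + c1) (by linarith only [hs, gc0, f010, f320, hM]) (by linarith only [hs, gc0, f011, f321, hM])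
  have v0312 : Q D (a1 + a2 + b0 + b3 + c0 + c1) = Q D (a0 + a3 + b1 + b2 + c0 + c1) := by
    rw [← Q_neg hD (a0 + a3 + b1 + b2 + c0 + c1)]; congr 1; linarith only [hs]
  have u1201 := Q_of' hD (a1 + a2 + b0 + b1 + c0 + c1) (by linarith only [hs, f030, f100, k0302, k1323, hM]) (by linarith only [hs, ga2, gb1, f031, f101, hM])
  have v1201 : Q D (a0 + a3 + b2 + b3 + c0 + c1) = Q D (a1 + a2 + b0 + b1 + c0 + c1) := by
    rw [← Q_neg hD (a1 + a2 + b0 + b1 + c0 + c1)]; congr 1; linarith only [hs]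
  have u1202 := Q_of' hD (a1 + a2 + b0 + b2 + c0 + c1) (by linarith only [hs, ga1, f100, f121, hM]) (by linarith only [hs, k1202, hM])
  have v1202 : Q D (a0 + a3 + b1 + b3 + c0 + c1) = Q D (a1 + a2 + b0 + b2 + c0 + c1) := by
    rw [← Q_neg hD (a1 + a2 + b0 + b2 + c0 + c1)]; congr 1; linarith only [hs]
  have u1212 := Q_of0 hD (a1 + a2 + b1 + b2 + c0 + c1) (by linarith only [hs, gc1, f121, f211, hM]) (by linarith only [hs, gc1, f120, f210, hM])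
  have v1212 : Q D (a0 + a3 + b0 + b3 + c0 + c1) = Q D (a1 + a2 + b1 + b2 + c0 + c1) := by
    rw [← Q_neg hD (a1 + a2 + b1 + b2 + c0 + c1)]; congr 1; linarith only [hs]
  have u1301 := Q_of' hD (a1 + a3 + b0 + b1 + c0 + c1) (by linarith only [hs, gb2, f010, f100, f211, f301, k0203, hM]) (by linarith only [hs, k1301, hM])
  have v1301 : Q D (a0 + a2 + b2 + b3 + c0 + c1) = Q D (a1 + a3 + b0 + b1 + c0 + c1) := by
    rw [← Q_neg hD (a1 + a3 + b0 + b1 + c0 + c1)]; congr 1; linarith only [hs]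
  have u2323 := Q_ofp hD (a2 + a3 + b2 + b3 + c0 + c1) (by linarith only [hs, gc0, f011, f101, hM]) (by linarith only [hs, gc0, f010, f100, hM])
  have v2323 : Q D (a0 + a1 + b0 + b1 + c0 + c1) = Q D (a2 + a3 + b2 + b3 + c0 + c1) := by
    rw [← Q_neg hD (a2 + a3 + b2 + b3 + c0 + c1)]; congr 1; linarith only [hs]
  have h3 := mul_le_mul_of_nonneg_left key hD'.le
  have hc : b3 = -(a0 + a1 + a2 + a3 + b0 + b1 + b2 + 2 * c0 + 2 * c1) := by linarith only [hs]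
  have h4 : 7 * (Q D (a1 - a0) + Q D (a2 - a0) + Q D (a3 - a0) + Q D (a2 - a1) + Q D (a3 - a1) + Q D (a3 - a2) + Q D (b1 - b0) + Q D (b2 - b0) + Q D (b3 - b0) + Q D (b2 - b1) + Q D (b3 - b1) + Q D (b3 - b2))
      + 16 * Q D (c1 - c0)
      - 2 * (Q D (a0 + b0 + c0) + Q D (a0 + b0 + c1) + Q D (a0 + b1 + c0) + Q D (a0 + b1 + c1) + Q D (a0 + b2 + c0) + Q D (a0 + b2 + c1) + Q D (a0 + b3 + c0) + Q D (a0 + b3 + c1) + Q D (a1 + b0 + c0) + Q D (a1 + b0 + c1) + Q D (a1 + b1 + c0) + Q D (a1 + b1 + c1) + Q D (a1 + b2 + c0) + Q D (a1 + b2 + c1) + Q D (a1 + b3 + c0) + Q D (a1 + b3 + c1) + Q D (a2 + b0 + c0) + Q D (a2 + b0 + c1) + Q D (a2 + b1 + c0) + Q D (a2 + b1 + c1) + Q D (a2 + b2 + c0) + Q D (a2 + b2 + c1) + Q D (a2 + b3 + c0) + Q D (a2 + b3 + c1) + Q D (a3 + b0 + c0) + Q D (a3 + b0 + c1) + Q D (a3 + b1 + c0) + Q D (a3 + b1 + c1) + Q D (a3 + b2 + c0) + Q D (a3 + b2 + c1) + Q D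 (a3 + b3 + c0) + Q D (a3 + b3 + c1))
      - (Q D (a0 + a1 + b0 + b1 + c0 + c1) + Q D (a0 + a1 + b0 + b2 + c0 + c1) + Q D (a0 + a1 + b0 + b3 + c0 + c1) + Q D (a0 + a1 + b1 + b2 + c0 + c1) + Q D (a0 + a1 + b1 + b3 + c0 + c1) + Q D (a0 + a1 + b2 + b3 + c0 + c1) + Q D (a0 + a2 + b0 + b1 + c0 + c1) + Q D (a0 + a2 + b0 + b2 + c0 + c1) + Q D (a0 + a2 + b0 + b3 + c0 + c1) + Q D (a0 + a2 + b1 + b2 + c0 + c1) + Q D (a0 + a2 + b1 + b3 + c0 + c1) + Q D (a0 + a2 + b2 + b3 + c0 + c1) + Q D (a0 + a3 + b0 + b1 + c0 + c1) + Q D (a0 + a3 + b0 + b2 + c0 + c1) + Q D (a0 + a3 + b0 + b3 + c0 + c1) + Q D (a0 + a3 + b1 + b2 + c0 + c1) + Q D (a0 + a3 + b1 + b3 + c0 + c1) + Q D (a0 + a3 + b2 + b3 + c0 + c1) + Q D (a1 + a2 + b0 + b1 + c0 + c1) + Q D (a1 + a2 + b0 + b2 + c0 + c1) + Q D (a1 + a2 + b0 + b3 + c0 + c1) + Q D (a1 + a2 + b1 + b2 + c0 + c1) + Q D (a1 + a2 + b1 + b3 + c0 + c1) + Q D (a1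 + a2 + b2 + b3 + c0 + c1) + Q D (a1 + a3 + b0 + b1 + c0 + c1) + Q D (a1 + a3 + b0 + b2 + c0 + c1) + Q D (a1 + a3 + b0 + b3 + c0 + c1) + Q D (a1 + a3 + b1 + b2 + c0 + c1) + Q D (a1 + a3 + b1 + b3 + c0 + c1) + Q D (a1 + a3 + b2 + b3 + c0 + c1) + Q D (a2 + a3 + b0 + b1 + c0 + c1) + Q D (a2 + a3 + b0 + b2 + c0 + c1) + Q D (a2 + a3 + b0 + b3 + c0 + c1) + Q D (a2 + a3 + b1 + b2 + c0 + c1) + Q D (a2 + a3 + b1 + b3 + c0 + c1) + Q D (a2 + a3 + b2 + b3 + c0 + c1)) =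
      2 * (D : ℤ) * (|a3 + b1 + c0| + |a0 + b2 + c1| + |a1 + b3 + c0| + |a2 + b0 + c1| + |a0 + a3 + b1 + b2 + c0 + c1| + |a0 + a1 + b2 + b3 + c0 + c1| + |a1 + b1 + c1| + |a2 + b2 + c0| + |a3 + b3 + c1 - (D : ℤ)| + |a0 + b0 + c0 + (D : ℤ)| + |a1 + a2 + b1 + b2 + c0 + c1| + |a2 + a3 + b2 + b3 + c0 + c1 - (D : ℤ)| + |a0 + a2 + b1 + b3 + c0 + c1|) - 6 * (D : ℤ) ^ 2 := by
    subst hc
    linear_combination 7 * qa01 + 7 * qa02 + 7 * qa03 + 7 * qa12 + 7 * qa13 + 7 * qa23 + 7 * qb01 + 7 * qb02 + 7 * qb03 + 7 * qb12 + 7 * qb13 + 7 * qb23 + 16 * qc + (-2) * e000 + (-2) * e001 + (-2) * e010 + (-2) * e011 + (-2) * e020 + (-2) * e021 + (-2) * e030 + (-2) * e031 + (-2) * e100 + (-2) * e101 + (-2) * e110 + (-2) * e111 + (-2) * e120 + (-2) * e121 + (-2) * e130 + (-2) * e131 + (-2) * e200 + (-2) * e201 + (-2) * e210 + (-2) * e211 + (-2) * e220 + (-2) * e221 + (-2) * e230 + (-2) * e231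 + (-2) * e300 + (-2) * e301 + (-2) * e310 + (-2) * e311 + (-2) * e320 + (-2) * e321 + (-2) * e330 + (-2) * e331 + (-2) * u0102 + (-2) * u0103 + (-2) * u0112 + (-2) * u0113 + (-2) * u0123 + (-2) * u0201 + (-2) * u0202 + (-2) * u0203 + (-2) * u0212 + (-2) * u0213 + (-2) * u0301 + (-2) * u0302 + (-2) * u0312 + (-2) * u1201 + (-2) * u1202 + (-2) * u1212 + (-2) * u1301 + (-2) * u2323 + (-1) * v0102 + (-1) * v0103 + (-1) * v0112 + (-1) * v0113 + (-1) * v0123 + (-1) * v0201 + (-1) * v0202 + (-1) * v0203 + (-1) * v0212 + (-1) * v0213 + (-1) * v0301 + (-1) * v0302 + (-1) * v0312 + (-1) * v1201 + (-1) * v1202 + (-1) * v1212 + (-1) * v1301 + (-1) * v2323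
  rw [h4]
  linarith [h3]

end Pool.Agent.TH295.PC
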