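import Pool.Agent.W280.PE.Final7
import Pool.Agent.TH295.PC.Cost
import Pool.Agent.TH295.PC.E7

set_option autoImplicit false
set_option maxHeartbeats 4000000
set_option linter.unusedVariables false
set_option linter.unusedSimpArgs false

/-!
The arithmetic theorem for rank four, admissible orders.
-/

namespace Pool.Agent.TH295.PC

open Finset Pool.Agent.W280.PC Pool.Agent.W280.PE

/-- The pointwise inequality for rank four. -/
lemma point7M {N : ℕ} (hN : 0 < N) {e1 e2 e3 : Fin 4 → ℤ} {a : ℤ} (ha : IsCoprime a (N : ℤ))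
    (hd0 : (N : ℤ) ∣ e3 0 - e3 1) (hd1 : (N : ℤ) ∣ e3 2 - e3 3)
    {M : ℤ} (hM0 : 0 ≤ M)
    (F1 : ∀ l l', l ≠ l' → Far N M (a * (e1 l - e1 l')))
    (F2 : ∀ l l', l ≠ l' → Far N M (a * (e2 l - e2 l')))
    (F3 : Far N M (a * (e3 2 - e3 0)))
    (FF0 : ∀ i k, Far N M (a * (e1 i + e2 k + e3 0)))
    (FF2 : ∀ i k, Far N M (a * (e1 i + e2 k + e3 2)))
    (FG : ∀ i i' k k', i ≠ i' → k ≠ k' →
      Far N M (a * ((e1 i + e1 i') + (e2 k + e2 k') + (e3 0 + e3 2))))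
    {X Y C : ℤ → ℤ} (h : Good N e1 e2 e3 a X Y C) :
    Psi (Q N) (fun i => a * e1 i) (fun i => a * e2 i) (a * e3 0) (a * e3 2) ≤ -(264 * M * N) := by
  have hN' : (0 : ℤ) < N := by exact_mod_cast hN
  -- alignment
  obtain ⟨t0, ht0⟩ := hd0
  obtain ⟨t1, ht1⟩ := hd1
  obtain ⟨s, hs⟩ := h.sC.align hN (d := 2) (by norm_num) (T0 := a * t0 + a * t1)
    (g := fun v => (v - a * e3 0) / (N : ℤ) + (v - a * e3 2) / (N : ℤ)) (by
      intro v
      rw [Fin.sum_univ_four]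
      have h1 : v - a * e3 1 = (v - a * e3 0) + N * (a * t0) := by linear_combination a * ht0
      have h2 : v - a * e3 3 = (v - a * e3 2) + N * (a * t1) := by linear_combination a * ht1
      rw [h1, h2, Int.add_mul_ediv_left _ _ hN'.ne', Int.add_mul_ediv_left _ _ hN'.ne']
      push_cast
      ring)
  have h' := h.shift s
  set X' : ℤ → ℤ := fun i => X (-s + i) with hX'
  set C' : ℤ → ℤ := fun l => C (s + l) with hC'
  have hC01 : C' 0 = C' 1 := by
    have := hs 0 0 1 le_rfl (by norm_num) (by norm_num) (by norm_num)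
    simpa [hC'] using this
  have hC23 : C' 2 = C' 3 := by
    have := hs 1 0 1 le_rfl (by norm_num) (by norm_num) (by norm_num)
    simp only [hC']
    rw [show s + 2 = s + ((2 : ℕ) : ℤ) * 1 + 0 by push_cast; ring,
      show s + 3 = s + ((2 : ℕ) : ℤ) * 1 + 1 by push_cast; ring]
    exact this
  obtain ⟨sX, sY, sC, hsum, i1, j1, i2, j2⟩ := h'
  -- the residues
  obtain ⟨σ, hσ⟩ := sX.res
  obtain ⟨τ, hτ⟩ := sY.res
  obtain ⟨ρ, hρ⟩ := sC.res
  have r0 := hρ 0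
  have r1 := hρ 1
  have r2 := hρ 2
  have r3 := hρ 3
  simp only [Fin.isValue, Fin.coe_ofNat_eq_mod, Nat.zero_mod, Nat.one_mod, Nat.reduceMod,
    Nat.cast_zero, Nat.cast_one, Nat.cast_ofNat] at r0 r1 r2 r3
  rw [← hC01] at r1
  rw [← hC23] at r3
  have d01 : (N : ℤ) ∣ a * e3 0 - a * e3 1 := ⟨a * t0, by linear_combination a * ht0⟩
  have d23 : (N : ℤ) ∣ a * e3 2 - a * e3 3 := ⟨a * t1, by linear_combination a * ht1⟩
  have key : ∀ {c : ℤ} {l : Fin 4}, (N : ℤ) ∣ c - a * e3 l →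
      ((l = 0 ∨ l = 1) → (N : ℤ) ∣ c - a * e3 0) ∧ ((l = 2 ∨ l = 3) → (N : ℤ) ∣ c - a * e3 2) := by
    intro c l hl
    constructor
    · rintro (rfl | rfl)
      · exact hl
      · have := dvd_sub hl d01
        rwa [show c - a * e3 1 - (a * e3 0 - a * e3 1) = c - a * e3 0 by ring] at this
    · rintro (rfl | rfl)
      · exact hl
      · have := dvd_sub hl d23
        rwa [show c - a * e3 3 - (a * e3 2 - a * e3 3) = c - a * e3 2 by ring] at this
  have hres : ((N : ℤ) ∣ C' 0 - a * e3 0 ∧ (N : ℤ) ∣ C' 2 - a * e3 2) ∨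
      ((N : ℤ) ∣ C' 0 - a * e3 2 ∧ (N : ℤ) ∣ C' 2 - a * e3 0) := by
    rcases perm4 ρ with ⟨h0, h2 | h3⟩ | ⟨h0, h2 | h3⟩
    · exact Or.inl ⟨(key r0).1 h0, (key r2).2 h2⟩
    · exact Or.inl ⟨(key r0).1 h0, (key r3).2 h3⟩
    · exact Or.inr ⟨(key r0).2 h0, (key r2).1 h2⟩
    · exact Or.inr ⟨(key r0).2 h0, (key r3).1 h3⟩
  -- reduction to the sequences
  have hQc : ∀ z z', (N : ℤ) ∣ z - z' → Q N z = Q N z' := fun z z' => Q_congr
  have hred : Psi (Q N) (fun i => a * e1 i) (fun i => a * e2 i) (a * e3 0) (a * e3 2) =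
      Psi (Q N) (fun i : Fin 4 => X' ((i : ℕ) : ℤ)) (fun k : Fin 4 => Y ((k : ℕ) : ℤ))
        (C' 0) (C' 2) := by
    rw [← Psi_permX _ _ _ _ _ σ, ← Psi_permY _ _ _ _ _ τ]
    rcases hres with ⟨k0, k2⟩ | ⟨k0, k2⟩
    · exact (Psi_congr hQc hσ hτ k0 k2).symm
    · rw [Psi_symm (Q_neg hN) _ _ (a * e3 0) (a * e3 2)]
      exact (Psi_congr hQc hσ hτ k0 k2).symm
  rw [hred]
  -- the inequalities
  have pC : ∀ i q, C' (i + 4 * q) = C' i + N * q := fun i q => by exact_mod_cast sC.per i q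
  have pX : ∀ i q, X' (i + 4 * q) = X' i + N * q := fun i q => by exact_mod_cast sX.per i q
  have pY : ∀ i q, Y (i + 4 * q) = Y i + N * q := fun i q => by exact_mod_cast sY.per i q
  have cm4 : C' (-4) = C' 0 - N := by have := pC 0 (-1); norm_num at this; linarith
  have cm2 : C' (-2) = C' 2 - N := by have := pC 2 (-1); norm_num at this; linarith
  have c4 : C' 4 = C' 0 + N := by have := pC 0 1; norm_num at this; linarith
  have c5 : C' 5 = C' 0 + N := by have := pC 1 1; norm_num at this; linarith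
  have x4 : X' 4 = X' 0 + N := by have := pX 0 1; norm_num at this; linarith
  have y4 : Y 4 = Y 0 + N := by have := pY 0 1; norm_num at this; linarith
  have hsum' : X' 0 + X' 1 + X' 2 + X' 3 + Y 0 + Y 1 + Y 2 + Y 3 + 2 * C' 0 + 2 * C' 2 = 0 := by
    simp only [Fin.sum_univ_four, Fin.isValue, Fin.coe_ofNat_eq_mod, Nat.zero_mod, Nat.one_mod,
      Nat.reduceMod, Nat.cast_zero, Nat.cast_one, Nat.cast_ofNat] at hsum
    linarith
  have I : ∀ i k l : ℤ, i + k + l ≤ 3 → X' i + Y k + C' l ≤ 0 := fun i k l h1 =>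
    i1 i k l (by push_cast; linarith)
  have J : ∀ i k l : ℤ, 6 ≤ i + k + l → 0 ≤ X' i + Y k + C' l := fun i k l h1 =>
    j1 i k l (by push_cast; linarith)
  -- the distances
  have xr : ∀ l : Fin 4, (N : ℤ) ∣ a * e1 (σ l) - X' ((l : ℕ) : ℤ) := fun l => by
    rw [← neg_sub]; exact (dvd_neg).2 (hσ l)
  have yr : ∀ l : Fin 4, (N : ℤ) ∣ a * e2 (τ l) - Y ((l : ℕ) : ℤ) := fun l => by
    rw [← neg_sub]; exact (dvd_neg).2 (hτ l)
  have gX : ∀ l l' : Fin 4, l ≠ l' → Far N M (X' ((l : ℕ) : ℤ) - X' ((l' : ℕ) : ℤ)) := by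
    intro l l' hne
    refine (F1 (σ l) (σ l') (fun hh => hne (σ.injective hh))).congr ?_
    have := dvd_sub (xr l) (xr l')
    rwa [show a * e1 (σ l) - X' ((l : ℕ) : ℤ) - (a * e1 (σ l') - X' ((l' : ℕ) : ℤ)) =
      a * (e1 (σ l) - e1 (σ l')) - (X' ((l : ℕ) : ℤ) - X' ((l' : ℕ) : ℤ)) by ring] at this
  have gY : ∀ l l' : Fin 4, l ≠ l' → Far N M (Y ((l : ℕ) : ℤ) - Y ((l' : ℕ) : ℤ)) := by
    intro l l' hne
    refine (F2 (τ l) (τ l') (fun hh => hne (τ.injective hh))).congr ?_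
    have := dvd_sub (yr l) (yr l')
    rwa [show a * e2 (τ l) - Y ((l : ℕ) : ℤ) - (a * e2 (τ l') - Y ((l' : ℕ) : ℤ)) =
      a * (e2 (τ l) - e2 (τ l')) - (Y ((l : ℕ) : ℤ) - Y ((l' : ℕ) : ℤ)) by ring] at this
  have gC : Far N M (C' 2 - C' 0) := by
    rcases hres with ⟨k0, k2⟩ | ⟨k0, k2⟩
    · refine F3.congr ?_
      have := dvd_sub k0 k2
      rwa [show C' 0 - a * e3 0 - (C' 2 - a * e3 2) = a * (e3 2 - e3 0) - (C' 2 - C' 0) by ring]
        at this
    · refine F3.neg.congr ?_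
      have := dvd_sub k0 k2
      rwa [show C' 0 - a * e3 2 - (C' 2 - a * e3 0) = -(a * (e3 2 - e3 0)) - (C' 2 - C' 0) by ring]
        at this
  have fF : ∀ i k : Fin 4, Far N M (X' ((i : ℕ) : ℤ) + Y ((k : ℕ) : ℤ) + C' 0) ∧
      Far N M (X' ((i : ℕ) : ℤ) + Y ((k : ℕ) : ℤ) + C' 2) := by
    intro i k
    have hx := xr i
    have hy := yr k
    rcases hres with ⟨k0, k2⟩ | ⟨k0, k2⟩
    · refine ⟨(FF0 (σ i) (τ k)).congr ?_, (FF2 (σ i) (τ k)).congr ?_⟩
      · have := dvd_sub (dvd_add hx hy) k0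
        rwa [show a * e1 (σ i) - X' ((i : ℕ) : ℤ) + (a * e2 (τ k) - Y ((k : ℕ) : ℤ)) -
          (C' 0 - a * e3 0) = a * (e1 (σ i) + e2 (τ k) + e3 0) -
          (X' ((i : ℕ) : ℤ) + Y ((k : ℕ) : ℤ) + C' 0) by ring] at this
      · have := dvd_sub (dvd_add hx hy) k2
        rwa [show a * e1 (σ i) - X' ((i : ℕ) : ℤ) + (a * e2 (τ k) - Y ((k : ℕ) : ℤ)) -
          (C' 2 - a * e3 2) = a * (e1 (σ i) + e2 (τ k) + e3 2) -
          (X' ((i : ℕ) : ℤ) + Y ((k : ℕ) : ℤ) + C' 2) by ring] at this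
    · refine ⟨(FF2 (σ i) (τ k)).congr ?_, (FF0 (σ i) (τ k)).congr ?_⟩
      · have := dvd_sub (dvd_add hx hy) k0
        rwa [show a * e1 (σ i) - X' ((i : ℕ) : ℤ) + (a * e2 (τ k) - Y ((k : ℕ) : ℤ)) -
          (C' 0 - a * e3 2) = a * (e1 (σ i) + e2 (τ k) + e3 2) -
          (X' ((i : ℕ) : ℤ) + Y ((k : ℕ) : ℤ) + C' 0) by ring] at this
      · have := dvd_sub (dvd_add hx hy) k2
        rwa [show a * e1 (σ i) - X' ((i : ℕ) : ℤ) + (a * e2 (τ k) - Y ((k : ℕ) : ℤ)) -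
          (C' 2 - a * e3 0) = a * (e1 (σ i) + e2 (τ k) + e3 0) -
          (X' ((i : ℕ) : ℤ) + Y ((k : ℕ) : ℤ) + C' 2) by ring] at this
  have hcc : (N : ℤ) ∣ (C' 0 + C' 2) - a * (e3 0 + e3 2) := by
    rcases hres with ⟨k0, k2⟩ | ⟨k0, k2⟩
    · have := dvd_add k0 k2
      rwa [show C' 0 - a * e3 0 + (C' 2 - a * e3 2) = (C' 0 + C' 2) - a * (e3 0 + e3 2) by ring]
        at this
    · have := dvd_add k0 k2
      rwa [show C' 0 - a * e3 2 + (C' 2 - a * e3 0) = (C' 0 + C' 2) - a * (e3 0 + e3 2) by ring]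
        at this
  have fG : ∀ i i' k k' : Fin 4, i ≠ i' → k ≠ k' → Far N M (X' ((i : ℕ) : ℤ) + X' ((i' : ℕ) : ℤ) +
      Y ((k : ℕ) : ℤ) + Y ((k' : ℕ) : ℤ) + C' 0 + C' 2) := by
    intro i i' k k' hi hk
    refine (FG (σ i) (σ i') (τ k) (τ k') (fun hh => hi (σ.injective hh))
      (fun hh => hk (τ.injective hh))).congr ?_
    have := dvd_sub (dvd_add (dvd_add (xr i) (xr i')) (dvd_add (yr k) (yr k'))) hcc
    rwa [show a * e1 (σ i) - X' ((i : ℕ) : ℤ) + (a * e1 (σ i') - X' ((i' : ℕ) : ℤ)) +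
      (a * e2 (τ k) - Y ((k : ℕ) : ℤ) + (a * e2 (τ k') - Y ((k' : ℕ) : ℤ))) -
      (C' 0 + C' 2 - a * (e3 0 + e3 2)) =
      a * ((e1 (σ i) + e1 (σ i')) + (e2 (τ k) + e2 (τ k')) + (e3 0 + e3 2)) -
      (X' ((i : ℕ) : ℤ) + X' ((i' : ℕ) : ℤ) + Y ((k : ℕ) : ℤ) + Y ((k' : ℕ) : ℤ) + C' 0 + C' 2)
      by ring] at this
  have I2' : ∀ i i' k k' l l' : ℤ, i < i' → i' < i + 4 → k < k' → k' < k + 4 → l < l' →
      l' < l + 4 → i + i' + k + k' + l + l' ≤ 7 → i' + k + l ≤ 3 → i + k' + l ≤ 3 →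
      i + k + l' ≤ 3 → i' + k' + l' ≤ 7 → X' i + X' i' + Y k + Y k' + C' l + C' l' ≤ 0 := by
    intro i i' k k' l l' g1 g2 g3 g4 g5 g6 g7 g8 g9 g10 g11
    exact i2 i i' k k' l l' g1 (by push_cast; linarith) g3 (by push_cast; linarith) g5
      (by push_cast; linarith) (by push_cast; linarith) (by push_cast; linarith)
      (by push_cast; linarith) (by push_cast; linarith) (by push_cast; linarith)
  have m1 := I2' 1 3 2 3 (-2) 0 (by norm_num) (by norm_num) (by norm_num) (by norm_num)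
    (by norm_num) (by norm_num) (by norm_num) (by norm_num) (by norm_num) (by norm_num)
    (by norm_num)
  have m2 := I2' 2 3 1 3 (-2) 0 (by norm_num) (by norm_num) (by norm_num) (by norm_num)
    (by norm_num) (by norm_num) (by norm_num) (by norm_num) (by norm_num) (by norm_num)
    (by norm_num)
  have q0 : ((( 0 : Fin 4) : ℕ) : ℤ) = 0 := rfl
  have q1 : ((( 1 : Fin 4) : ℕ) : ℤ) = 1 := rfl
  have q2 : ((( 2 : Fin 4) : ℕ) : ℤ) = 2 := rfl
  have q3 : ((( 3 : Fin 4) : ℕ) : ℤ) = 3 := rfl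
  have gX0 : X' 0 + M ≤ X' 1 := by
    have h1 := (gX 1 0 (by decide)).le_pos (by rw [q1, q0]; linarith [sX.mono 0 1 (by norm_num)])
    rw [q1, q0] at h1; linarith
  have gX1 : X' 1 + M ≤ X' 2 := by
    have h1 := (gX 2 1 (by decide)).le_pos (by rw [q2, q1]; linarith [sX.mono 1 2 (by norm_num)])
    rw [q2, q1] at h1; linarith
  have gX2 : X' 2 + M ≤ X' 3 := by
    have h1 := (gX 3 2 (by decide)).le_pos (by rw [q3, q2]; linarith [sX.mono 2 3 (by norm_num)])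
    rw [q3, q2] at h1; linarith
  have gX3 : X' 3 + M ≤ X' 0 + N := by
    have h1 := (gX 3 0 (by decide)).le_sub (by rw [q3, q0]; linarith [sX.mono 3 4 (by norm_num), x4])
    rw [q3, q0] at h1; linarith
  have gY0 : Y 0 + M ≤ Y 1 := by
    have h1 := (gY 1 0 (by decide)).le_pos (by rw [q1, q0]; linarith [sY.mono 0 1 (by norm_num)])
    rw [q1, q0] at h1; linarith
  have gY1 : Y 1 + M ≤ Y 2 := by
    have h1 := (gY 2 1 (by decide)).le_pos (by rw [q2, q1]; linarith [sY.mono 1 2 (by norm_num)])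
    rw [q2, q1] at h1; linarith
  have gY2 : Y 2 + M ≤ Y 3 := by
    have h1 := (gY 3 2 (by decide)).le_pos (by rw [q3, q2]; linarith [sY.mono 2 3 (by norm_num)])
    rw [q3, q2] at h1; linarith
  have gY3 : Y 3 + M ≤ Y 0 + N := by
    have h1 := (gY 3 0 (by decide)).le_sub (by rw [q3, q0]; linarith [sY.mono 3 4 (by norm_num), y4])
    rw [q3, q0] at h1; linarith
  have gC0 : C' 0 + M ≤ C' 2 := by
    have h1 := gC.le_pos (by linarith [sC.mono 0 2 (by norm_num)])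
    linarith
  have gC1 : C' 2 + M ≤ C' 0 + N := by
    have h1 := gC.le_sub (by linarith [sC.mono 2 4 (by norm_num)])
    linarith
  have f010 : -(N : ℤ) + M ≤ X' 0 + Y 1 + C' 0 := by
    have h1 := (fF 0 1).1
    rw [q0, q1] at h1
    exact h1.le_add (by linarith [J 0 1 5 (by norm_num)])
  have f011 : X' 0 + Y 1 + C' 2 ≤ -M := by
    have h1 := (fF 0 1).2
    rw [q0, q1] at h1
    exact h1.le_neg (by linarith [I 0 1 2 (by norm_num)])
  have f030 : X' 0 + Y 3 + C' 0 ≤ -M := by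
    have h1 := (fF 0 3).1
    rw [q0, q3] at h1
    exact h1.le_neg (by linarith [I 0 3 0 (by norm_num)])
  have f031 : M ≤ X' 0 + Y 3 + C' 2 := by
    have h1 := (fF 0 3).2
    rw [q0, q3] at h1
    exact h1.le_pos (by linarith [J 0 3 3 (by norm_num)])
  have f100 : -(N : ℤ) + M ≤ X' 1 + Y 0 + C' 0 := by
    have h1 := (fF 1 0).1
    rw [q1, q0] at h1
    exact h1.le_add (by linarith [J 1 0 5 (by norm_num)])
  have f101 : X' 1 + Y 0 + C' 2 ≤ -M := by
    have h1 := (fF 1 0).2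
    rw [q1, q0] at h1
    exact h1.le_neg (by linarith [I 1 0 2 (by norm_num)])
  have f120 : X' 1 + Y 2 + C' 0 ≤ -M := by
    have h1 := (fF 1 2).1
    rw [q1, q2] at h1
    exact h1.le_neg (by linarith [I 1 2 0 (by norm_num)])
  have f121 : M ≤ X' 1 + Y 2 + C' 2 := by
    have h1 := (fF 1 2).2
    rw [q1, q2] at h1
    exact h1.le_pos (by linarith [J 1 2 3 (by norm_num)])
  have f210 : X' 2 + Y 1 + C' 0 ≤ -M := by
    have h1 := (fF 2 1).1
    rw [q2, q1] at h1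
    exact h1.le_neg (by linarith [I 2 1 0 (by norm_num)])
  have f211 : M ≤ X' 2 + Y 1 + C' 2 := by
    have h1 := (fF 2 1).2
    rw [q2, q1] at h1
    exact h1.le_pos (by linarith [J 2 1 3 (by norm_num)])
  have f230 : M ≤ X' 2 + Y 3 + C' 0 := by
    have h1 := (fF 2 3).1
    rw [q2, q3] at h1
    exact h1.le_pos (by linarith [J 2 3 1 (by norm_num)])
  have f231 : X' 2 + Y 3 + C' 2 ≤ (N : ℤ) - M := by
    have h1 := (fF 2 3).2
    rw [q2, q3] at h1
    exact h1.le_sub (by linarith [I 2 3 (-2) (by norm_num)])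
  have f300 : X' 3 + Y 0 + C' 0 ≤ -M := by
    have h1 := (fF 3 0).1
    rw [q3, q0] at h1
    exact h1.le_neg (by linarith [I 3 0 0 (by norm_num)])
  have f301 : M ≤ X' 3 + Y 0 + C' 2 := by
    have h1 := (fF 3 0).2
    rw [q3, q0] at h1
    exact h1.le_pos (by linarith [J 3 0 3 (by norm_num)])
  have f320 : M ≤ X' 3 + Y 2 + C' 0 := by
    have h1 := (fF 3 2).1
    rw [q3, q2] at h1
    exact h1.le_pos (by linarith [J 3 2 1 (by norm_num)])
  have f321 : X' 3 + Y 2 + C' 2 ≤ (N : ℤ) - M := by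
    have h1 := (fF 3 2).2
    rw [q3, q2] at h1
    exact h1.le_sub (by linarith [I 3 2 (-2) (by norm_num)])
  have k0113 : X' 0 + X' 1 + Y 1 + Y 3 + C' 0 + C' 2 ≤ -M := by
    have h1 := fG 0 1 1 3 (by decide) (by decide)
    simp only [q0, q1, q2, q3] at h1
    exact h1.le_neg (by linarith [I2' 0 1 1 3 0 2 (by norm_num) (by norm_num) (by norm_num) (by norm_num) (by norm_num) (by norm_num) (by norm_num) (by norm_num) (by norm_num) (by norm_num) (by norm_num)])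
  have k0203 : X' 0 + X' 2 + Y 0 + Y 3 + C' 0 + C' 2 ≤ -M := by
    have h1 := fG 0 2 0 3 (by decide) (by decide)
    simp only [q0, q1, q2, q3] at h1
    exact h1.le_neg (by linarith [I2' 0 2 0 3 0 2 (by norm_num) (by norm_num) (by norm_num) (by norm_num) (by norm_num) (by norm_num) (by norm_num) (by norm_num) (by norm_num) (by norm_num) (by norm_num)])
  have k0212 : X' 0 + X' 2 + Y 1 + Y 2 + C' 0 + C' 2 ≤ -M := by
    have h1 := fG 0 2 1 2 (by decide) (by decide)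
    simp only [q0, q1, q2, q3] at h1
    exact h1.le_neg (by linarith [I2' 0 2 1 2 0 2 (by norm_num) (by norm_num) (by norm_num) (by norm_num) (by norm_num) (by norm_num) (by norm_num) (by norm_num) (by norm_num) (by norm_num) (by norm_num)])
  have k0302 : X' 0 + X' 3 + Y 0 + Y 2 + C' 0 + C' 2 ≤ -M := by
    have h1 := fG 0 3 0 2 (by decide) (by decide)
    simp only [q0, q1, q2, q3] at h1
    exact h1.le_neg (by linarith [I2' 0 3 0 2 0 2 (by norm_num) (by norm_num) (by norm_num) (by norm_num) (by norm_num) (by norm_num) (by norm_num) (by norm_num) (by norm_num) (by norm_num) (by norm_num)])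
  have k1202 : X' 1 + X' 2 + Y 0 + Y 2 + C' 0 + C' 2 ≤ -M := by
    have h1 := fG 1 2 0 2 (by decide) (by decide)
    simp only [q0, q1, q2, q3] at h1
    exact h1.le_neg (by linarith [I2' 1 2 0 2 0 2 (by norm_num) (by norm_num) (by norm_num) (by norm_num) (by norm_num) (by norm_num) (by norm_num) (by norm_num) (by norm_num) (by norm_num) (by norm_num)])
  have k1301 : X' 1 + X' 3 + Y 0 + Y 1 + C' 0 + C' 2 ≤ -M := by
    have h1 := fG 1 3 0 1 (by decide) (by decide)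
    simp only [q0, q1, q2, q3] at h1
    exact h1.le_neg (by linarith [I2' 1 3 0 1 0 2 (by norm_num) (by norm_num) (by norm_num) (by norm_num) (by norm_num) (by norm_num) (by norm_num) (by norm_num) (by norm_num) (by norm_num) (by norm_num)])
  have k1323 : X' 1 + X' 3 + Y 2 + Y 3 + C' 0 + C' 2 ≤ (N : ℤ) - M := by
    have h1 := fG 1 3 2 3 (by decide) (by decide)
    simp only [q0, q1, q2, q3] at h1
    exact h1.le_sub (by linarith [m1, m2])
  have k2313 : X' 2 + X' 3 + Y 1 + Y 3 + C' 0 + C' 2 ≤ (N : ℤ) - M := by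
    have h1 := fG 2 3 1 3 (by decide) (by decide)
    simp only [q0, q1, q2, q3] at h1
    exact h1.le_sub (by linarith [m1, m2])
  have w0 : M ≤ |X' 3 + Y 1 + C' 0| := by
    have h1 := (fF 3 1).1
    simp only [q0, q1, q2, q3] at h1
    exact h1.abs0
  have w1 : M ≤ |X' 0 + Y 2 + C' 2| := by
    have h1 := (fF 0 2).2
    simp only [q0, q1, q2, q3] at h1
    exact h1.abs0
  have w2 : M ≤ |X' 1 + Y 3 + C' 0| := by
    have h1 := (fF 1 3).1
    simp only [q0, q1, q2, q3] at h1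
    exact h1.abs0
  have w3 : M ≤ |X' 2 + Y 0 + C' 2| := by
    have h1 := (fF 2 0).2
    simp only [q0, q1, q2, q3] at h1
    exact h1.abs0
  have w4 : M ≤ |X' 0 + X' 3 + Y 1 + Y 2 + C' 0 + C' 2| := by
    have h1 := fG 0 3 1 2 (by decide) (by decide)
    simp only [q0, q1, q2, q3] at h1
    exact h1.abs0
  have w5 : M ≤ |X' 0 + X' 1 + Y 2 + Y 3 + C' 0 + C' 2| := by
    have h1 := fG 0 1 2 3 (by decide) (by decide)
    simp only [q0, q1, q2, q3] at h1
    exact h1.abs0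
  have w6 : M ≤ |X' 1 + Y 1 + C' 2| := by
    have h1 := (fF 1 1).2
    simp only [q0, q1, q2, q3] at h1
    exact h1.abs0
  have w7 : M ≤ |X' 2 + Y 2 + C' 0| := by
    have h1 := (fF 2 2).1
    simp only [q0, q1, q2, q3] at h1
    exact h1.abs0
  have w8 : M ≤ |X' 3 + Y 3 + C' 2 - (N : ℤ)| := by
    have h1 := (fF 3 3).2
    simp only [q0, q1, q2, q3] at h1
    have h2 := h1 (1)
    rwa [show X' 3 + Y 3 + C' 2 - (1) * (N : ℤ) = X' 3 + Y 3 + C' 2 - (N : ℤ) by ring] at h2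
  have w9 : M ≤ |X' 0 + Y 0 + C' 0 + (N : ℤ)| := by
    have h1 := (fF 0 0).1
    simp only [q0, q1, q2, q3] at h1
    have h2 := h1 (-1)
    rwa [show X' 0 + Y 0 + C' 0 - (-1) * (N : ℤ) = X' 0 + Y 0 + C' 0 + (N : ℤ) by ring] at h2
  have w10 : M ≤ |X' 1 + X' 2 + Y 1 + Y 2 + C' 0 + C' 2| := by
    have h1 := fG 1 2 1 2 (by decide) (by decide)
    simp only [q0, q1, q2, q3] at h1
    exact h1.abs0
  have w11 : M ≤ |X' 2 + X' 3 + Y 2 + Y 3 + C' 0 + C' 2 - (N : ℤ)| := by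
    have h1 := fG 2 3 2 3 (by decide) (by decide)
    simp only [q0, q1, q2, q3] at h1
    have h2 := h1 (1)
    rwa [show X' 2 + X' 3 + Y 2 + Y 3 + C' 0 + C' 2 - (1) * (N : ℤ) = X' 2 + X' 3 + Y 2 + Y 3 + C' 0 + C' 2 - (N : ℤ) by ring] at h2
  have w12 : M ≤ |X' 0 + X' 2 + Y 1 + Y 3 + C' 0 + C' 2| := by
    have h1 := fG 0 2 1 3 (by decide) (by decide)
    simp only [q0, q1, q2, q3] at h1
    exact h1.abs0
  have hpt := e7_pointM hN hM0 (a0 := X' 0) (a1 := X' 1) (a2 := X' 2) (a3 := X' 3) (b0 := Y 0)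
    (b1 := Y 1) (b2 := Y 2) (b3 := Y 3) (c0 := C' 0) (c1 := C' 2) (by linarith)
    gX0 gX1 gX2 gX3 gY0 gY1 gY2 gY3 gC0 gC1 f010 f011 f030 f031 f100 f101 f120 f121 f210 f211 f230 f231 f300 f301 f320 f321
    k0113 k0203 k0212 k0302 k1202 k1301 k1323 k2313
    w0 w1 w2 w3 w4 w5 w6 w7 w8 w9 w10 w11 w12
  unfold Psi
  rw [sum4_diff (Q_neg hN) (Q_zero (dvd_zero _)), sum4_diff (Q_neg hN) (Q_zero (dvd_zero _)),
    sum4_pairs (Q N), ← Q_neg hN (C' 0 - C' 2), neg_sub]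
  simp only [Fin.sum_univ_four, Fin.isValue, Fin.coe_ofNat_eq_mod, Nat.zero_mod, Nat.one_mod,
      Nat.reduceMod, Nat.cast_zero, Nat.cast_one, Nat.cast_ofNat, ← add_assoc]
  linarith

lemma cost_sum' {K l M d : ℕ} {k v y x₀ : ℝ} (hK : 2 ≤ K) (hl : 3 ≤ l) (hKl : (K : ℝ) / (4 * l) ≤ 1 - 1 / K)
    (hM : 1 < M) (hk : 0 ≤ k)
    (hv : 0 ≤ v) (hx₀ : 0 < x₀) (hx₀' : 4900 / 3 ≤ x₀ ^ 3 * M ^ 2)
    (hc : k * (1 / K + 2 / ((l : ℝ) - 1) ^ 2) + v / (6 * l ^ 2) ≤ y)
    (hb : k * (1 / K + x₀ / 2) + v / (6 * M) ≤ y) (hd : 1 < d) (h : Adm l M d) :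
    k * tau K d + v * bet d ≤ y := by
  rcases h with h | h
  · have h2 := tau_large hK hM h hx₀ hx₀'
    have h3 := (abs_le.1 (bet_large (by omega) h)).2
    have h4 : k * tau K d ≤ k * (1 / K + x₀ / 2) := mul_le_mul_of_nonneg_left h2 hk
    have h5 : v * bet d ≤ v * (1 / (6 * M)) := mul_le_mul_of_nonneg_left h3 hv
    have h6 : v / (6 * (M : ℝ)) = v * (1 / (6 * M)) := by ring
    linarith
  · have hl' : (3 : ℝ) ≤ l := by exact_mod_cast hl
    by_cases hpr : d.Prime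
    · have hdl : (l : ℝ) ≤ d := by exact_mod_cast Rough.le h hd
      have h2 := tau_prime hK hpr
      have h3 : ((K : ℝ) / (4 * d) - (1 - 1 / K)) / (d - 1) ≤ 0 := by
        have e1 : (K : ℝ) / (4 * d) ≤ K / (4 * l) :=
          div_le_div_of_nonneg_left (Nat.cast_nonneg K) (by linarith) (by linarith)
        exact div_nonpos_of_nonpos_of_nonneg (by linarith) (by linarith)
      have h4 : (0 : ℝ) ≤ 2 / ((l : ℝ) - 1) ^ 2 := by positivity
      have h5 : k * tau K d ≤ k * (1 / K + 2 / ((l : ℝ) - 1) ^ 2) :=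
        mul_le_mul_of_nonneg_left (by linarith) hk
      rw [bet_prime hpr]
      have h6 : v * (-1 / (6 * (d : ℝ))) ≤ 0 := by
        have : -1 / (6 * (d : ℝ)) ≤ 0 := div_nonpos_of_nonpos_of_nonneg (by norm_num) (by positivity)
        exact mul_nonpos_of_nonneg_of_nonpos hv this
      have h7 : (0 : ℝ) ≤ v / (6 * l ^ 2) := by positivity
      linarith
    · have h2 := tau_rough hK hl h hd hpr
      have h3 := (abs_le.1 (abs_bet_rough (by omega) h hd hpr)).2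
      have h4 : k * tau K d ≤ k * (1 / K + 2 / ((l : ℝ) - 1) ^ 2) :=
        mul_le_mul_of_nonneg_left h2 hk
      have h5 : v * bet d ≤ v * (1 / (6 * (l : ℝ) ^ 2)) := mul_le_mul_of_nonneg_left h3 hv
      have h6 : v / (6 * (l : ℝ) ^ 2) = v * (1 / (6 * (l : ℝ) ^ 2)) := by ring
      linarith


/-- the first members of the pairs -/
def pa : Fin 6 → Fin 4 := ![0, 0, 0, 1, 1, 2]

/-- the second members of the pairs -/
def pb : Fin 6 → Fin 4 := ![1, 2, 3, 2, 3, 3]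

lemma pab (q : Fin 6) : pa q ≠ pb q := by revert q; decide

lemma pab_surj (l l' : Fin 4) (h : l ≠ l') :
    ∃ q, (l = pa q ∧ l' = pb q) ∨ (l' = pa q ∧ l = pb q) := by
  revert h; revert l l'; decide

/-- the index set of the characters of type E7 -/
abbrev I7 : Type := (Fin 2 × Fin 6) ⊕ Unit ⊕ (Fin 4 × Fin 4 × Fin 2) ⊕ (Fin 3 × Fin 6)

/-- the characters of type E7 -/
def z7 (e1 e2 : Fin 4 → ℤ) (u v : ℤ) : I7 → ℤ :=
  Sum.elim (fun t => (![e1, e2] t.1) (pb t.2) - (![e1, e2] t.1) (pa t.2))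
    (Sum.elim (fun _ => v - u) (Sum.elim (fun t => e1 t.1 + e2 t.2.1 + ![u, v] t.2.2)
      (fun t => (e1 0 + e1 t.1.succ) + (e2 (pa t.2) + e2 (pb t.2)) + (u + v))))

/-- the weights of the characters -/
def w7 : I7 → ℤ := Sum.elim (fun _ => 7) (Sum.elim (fun _ => 16) (Sum.elim (fun _ => -2) (fun _ => -2)))

lemma sum_w7 : ∑ i, w7 i = 0 := by
  simp [w7, Fintype.sum_sum_type]

/-- the symmetric expression as a sum over the characters -/
lemma psi7_eq {S : ℤ → ℤ} {N : ℤ} (hS : ∀ z, S (-z) = S z) (h0 : S 0 = 0)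
    (hc : ∀ z z', N ∣ z - z' → S z = S z') {x y : Fin 4 → ℤ} {u v : ℤ}
    (hrel : N ∣ ∑ l, x l + ∑ l, y l + 2 * (u + v)) :
    Psi S x y u v = 4 * ∑ i, w7 i * S (z7 x y u v i) := by
  have hcomp : ∀ A B : ℤ, N ∣ A + B → S A = S B := by
    intro A B h
    rw [← hS B]
    apply hc
    rwa [sub_neg_eq_add]
  rw [Fin.sum_univ_four, Fin.sum_univ_four] at hrel
  obtain ⟨n, hn⟩ := hrel
  unfold Psi
  rw [sum4_diff hS h0, sum4_diff hS h0, sum4_pairs S]
  have c1 : S (x 2 + x 3 + (y 2 + y 3) + (u + v)) = S (x 0 + x 1 + (y 0 + y 1) + (u + v)) :=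
    hcomp _ _ ⟨n, by linear_combination hn⟩
  have c2 : S (x 2 + x 3 + (y 1 + y 3) + (u + v)) = S (x 0 + x 1 + (y 0 + y 2) + (u + v)) :=
    hcomp _ _ ⟨n, by linear_combination hn⟩
  have c3 : S (x 2 + x 3 + (y 1 + y 2) + (u + v)) = S (x 0 + x 1 + (y 0 + y 3) + (u + v)) :=
    hcomp _ _ ⟨n, by linear_combination hn⟩
  have c4 : S (x 2 + x 3 + (y 0 + y 3) + (u + v)) = S (x 0 + x 1 + (y 1 + y 2) + (u + v)) :=
    hcomp _ _ ⟨n, by linear_combination hn⟩
  have c5 : S (x 2 + x 3 + (y 0 + y 2) + (u + v)) = S (x 0 + x 1 + (y 1 + y 3) + (u + v)) :=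
    hcomp _ _ ⟨n, by linear_combination hn⟩
  have c6 : S (x 2 + x 3 + (y 0 + y 1) + (u + v)) = S (x 0 + x 1 + (y 2 + y 3) + (u + v)) :=
    hcomp _ _ ⟨n, by linear_combination hn⟩
  have d1 : S (x 1 + x 3 + (y 2 + y 3) + (u + v)) = S (x 0 + x 2 + (y 0 + y 1) + (u + v)) :=
    hcomp _ _ ⟨n, by linear_combination hn⟩
  have d2 : S (x 1 + x 3 + (y 1 + y 3) + (u + v)) = S (x 0 + x 2 + (y 0 + y 2) + (u + v)) :=
    hcomp _ _ ⟨n, by linear_combination hn⟩
  have d3 : S (x 1 + x 3 + (y 1 + y 2) + (u + v)) = S (x 0 + x 2 + (y 0 + y 3) + (u + v)) :=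
    hcomp _ _ ⟨n, by linear_combination hn⟩
  have d4 : S (x 1 + x 3 + (y 0 + y 3) + (u + v)) = S (x 0 + x 2 + (y 1 + y 2) + (u + v)) :=
    hcomp _ _ ⟨n, by linear_combination hn⟩
  have d5 : S (x 1 + x 3 + (y 0 + y 2) + (u + v)) = S (x 0 + x 2 + (y 1 + y 3) + (u + v)) :=
    hcomp _ _ ⟨n, by linear_combination hn⟩
  have d6 : S (x 1 + x 3 + (y 0 + y 1) + (u + v)) = S (x 0 + x 2 + (y 2 + y 3) + (u + v)) :=
    hcomp _ _ ⟨n, by linear_combination hn⟩
  have f1 : S (x 1 + x 2 + (y 2 + y 3) + (u + v)) = S (x 0 + x 3 + (y 0 + y 1) + (u + v)) :=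
    hcomp _ _ ⟨n, by linear_combination hn⟩
  have f2 : S (x 1 + x 2 + (y 1 + y 3) + (u + v)) = S (x 0 + x 3 + (y 0 + y 2) + (u + v)) :=
    hcomp _ _ ⟨n, by linear_combination hn⟩
  have f3 : S (x 1 + x 2 + (y 1 + y 2) + (u + v)) = S (x 0 + x 3 + (y 0 + y 3) + (u + v)) :=
    hcomp _ _ ⟨n, by linear_combination hn⟩
  have f4 : S (x 1 + x 2 + (y 0 + y 3) + (u + v)) = S (x 0 + x 3 + (y 1 + y 2) + (u + v)) :=
    hcomp _ _ ⟨n, by linear_combination hn⟩
  have f5 : S (x 1 + x 2 + (y 0 + y 2) + (u + v)) = S (x 0 + x 3 + (y 1 + y 3) + (u + v)) :=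
    hcomp _ _ ⟨n, by linear_combination hn⟩
  have f6 : S (x 1 + x 2 + (y 0 + y 1) + (u + v)) = S (x 0 + x 3 + (y 2 + y 3) + (u + v)) :=
    hcomp _ _ ⟨n, by linear_combination hn⟩
  rw [c1, c2, c3, c4, c5, c6, d1, d2, d3, d4, d5, d6, f1, f2, f3, f4, f5, f6, ← hS (u - v), neg_sub]
  simp only [w7, z7, Fintype.sum_sum_type, Sum.elim_inl, Sum.elim_inr, Fintype.sum_prod_type,
    Finset.univ_unique, Finset.sum_singleton, ← Finset.mul_sum]
  have g1 : ∑ t : Fin 2, ∑ q : Fin 6, S ((![x, y] t) (pb q) - (![x, y] t) (pa q)) =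
      (S (x 1 - x 0) + S (x 2 - x 0) + S (x 3 - x 0) + S (x 2 - x 1) + S (x 3 - x 1) +
        S (x 3 - x 2)) + (S (y 1 - y 0) + S (y 2 - y 0) + S (y 3 - y 0) + S (y 2 - y 1) +
        S (y 3 - y 1) + S (y 3 - y 2)) := by
    rw [Fin.sum_univ_two]
    rw [Fin.sum_univ_six, Fin.sum_univ_six]
    rfl
  have g2 : ∑ i : Fin 4, ∑ k : Fin 4, ∑ s : Fin 2, S (x i + y k + ![u, v] s) =
      ∑ i, ∑ k, (S (x i + y k + u) + S (x i + y k + v)) := by
    refine Finset.sum_congr rfl fun i _ => Finset.sum_congr rfl fun k _ => ?_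
    rw [Fin.sum_univ_two]
    rfl
  have g3 : ∑ t : Fin 3, ∑ q : Fin 6, S ((x 0 + x t.succ) + (y (pa q) + y (pb q)) + (u + v)) =
      (S (x 0 + x 1 + (y 0 + y 1) + (u + v)) + S (x 0 + x 1 + (y 0 + y 2) + (u + v)) +
       S (x 0 + x 1 + (y 0 + y 3) + (u + v)) + S (x 0 + x 1 + (y 1 + y 2) + (u + v)) +
       S (x 0 + x 1 + (y 1 + y 3) + (u + v)) + S (x 0 + x 1 + (y 2 + y 3) + (u + v))) +
      (S (x 0 + x 2 + (y 0 + y 1) + (u + v)) + S (x 0 + x 2 + (y 0 + y 2) + (u + v)) +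
       S (x 0 + x 2 + (y 0 + y 3) + (u + v)) + S (x 0 + x 2 + (y 1 + y 2) + (u + v)) +
       S (x 0 + x 2 + (y 1 + y 3) + (u + v)) + S (x 0 + x 2 + (y 2 + y 3) + (u + v))) +
      (S (x 0 + x 3 + (y 0 + y 1) + (u + v)) + S (x 0 + x 3 + (y 0 + y 2) + (u + v)) +
       S (x 0 + x 3 + (y 0 + y 3) + (u + v)) + S (x 0 + x 3 + (y 1 + y 2) + (u + v)) +
       S (x 0 + x 3 + (y 1 + y 3) + (u + v)) + S (x 0 + x 3 + (y 2 + y 3) + (u + v))) := by
    rw [Fin.sum_univ_three]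
    rw [Fin.sum_univ_six, Fin.sum_univ_six, Fin.sum_univ_six]
    rfl
  rw [g1, g2, g3]
  ring

/-- **The arithmetic theorem** for rank four, admissible orders. -/
theorem arith7A {D : ℕ} (hD : 1 < D) {e1 e2 e3 : Fin 4 → ℤ}
    (hd0 : (D : ℤ) ∣ e3 0 - e3 1) (hd1 : (D : ℤ) ∣ e3 2 - e3 3)
    (hsum : ∑ l, e1 l + ∑ l, e2 l + ∑ l, e3 l = 0)
    (h1 : ∀ l l', Adm 59 3000 (D / Int.gcd (e1 l - e1 l') D))
    (h2 : ∀ l l', Adm 59 3000 (D / Int.gcd (e2 l - e2 l') D))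
    (h3 : Adm 59 3000 (D / Int.gcd (e3 2 - e3 0) D))
    (hF0 : ∀ i k, ¬ (D : ℤ) ∣ e1 i + e2 k + e3 0 ∧
      Adm 59 400000 (D / Int.gcd (e1 i + e2 k + e3 0) D))
    (hF2 : ∀ i k, ¬ (D : ℤ) ∣ e1 i + e2 k + e3 2 ∧
      Adm 59 400000 (D / Int.gcd (e1 i + e2 k + e3 2) D))
    (hG : ∀ i i' k k', i ≠ i' → k ≠ k' →
      ¬ (D : ℤ) ∣ (e1 i + e1 i') + (e2 k + e2 k') + (e3 0 + e3 2) ∧
      Adm 59 400000 (D / Int.gcd ((e1 i + e1 i') + (e2 k + e2 k') + (e3 0 + e3 2)) D))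
    (hU : ∀ a : ℤ, IsCoprime a (D : ℤ) → ∃ X Y C, Good D e1 e2 e3 a X Y C) : False := by
  have hD0 : 0 < D := by omega
  have hrel : (D : ℤ) ∣ ∑ l, e1 l + ∑ l, e2 l + 2 * (e3 0 + e3 2) := by
    rw [Fin.sum_univ_four (f := e3)] at hsum
    obtain ⟨m, hm⟩ := hd0
    obtain ⟨n, hn⟩ := hd1
    exact ⟨m + n, by linear_combination hsum + hm + hn⟩
  have hpt : ∀ c : ℤ, IsCoprime c (D : ℤ) → ∀ M : ℤ, 0 ≤ M →
      (∀ i, Far D M (c * z7 e1 e2 (e3 0) (e3 2) i)) →
      ∑ i, w7 i * Q D (c * z7 e1 e2 (e3 0) (e3 2) i) ≤ -(66 * M * D) := by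
    intro c hc M hM hF
    obtain ⟨X, Y, C, hgood⟩ := hU c hc
    have f0 : ∀ g : Fin 2, ∀ l l' : Fin 4, l ≠ l' →
        Far D M (c * ((![e1, e2] g) l - (![e1, e2] g) l')) := by
      intro g l l' hne
      obtain ⟨q, ⟨rfl, rfl⟩ | ⟨rfl, rfl⟩⟩ := pab_surj l l' hne
      · have := (hF (Sum.inl (g, q))).neg
        change Far D M (-(c * ((![e1, e2] g) (pb q) - (![e1, e2] g) (pa q)))) at this
        rwa [show -(c * ((![e1, e2] g) (pb q) - (![e1, e2] g) (pa q))) =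
          c * ((![e1, e2] g) (pa q) - (![e1, e2] g) (pb q)) by ring] at this
      · exact hF (Sum.inl (g, q))
    have fF : ∀ i k, ∀ s : Fin 2, Far D M (c * (e1 i + e2 k + ![e3 0, e3 2] s)) :=
      fun i k s => hF (Sum.inr (Sum.inr (Sum.inl (i, k, s))))
    have fG0 : ∀ (t : Fin 3) (q : Fin 6), Far D M (c * ((e1 0 + e1 t.succ) +
        (e2 (pa q) + e2 (pb q)) + (e3 0 + e3 2))) :=
      fun t q => hF (Sum.inr (Sum.inr (Sum.inr (t, q))))
    have fG1 : ∀ (t : Fin 3) (k k' : Fin 4), k ≠ k' → Far D M (c * ((e1 0 + e1 t.succ) +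
        (e2 k + e2 k') + (e3 0 + e3 2))) := by
      intro t k k' hne
      obtain ⟨q, ⟨rfl, rfl⟩ | ⟨rfl, rfl⟩⟩ := pab_surj k k' hne
      · exact fG0 t q
      · rw [add_comm (e2 (pb q))]; exact fG0 t q
    have fG : ∀ i i' k k', i ≠ i' → k ≠ k' → Far D M (c * ((e1 i + e1 i') +
        (e2 k + e2 k') + (e3 0 + e3 2))) := by
      intro i i' k k' hi hk
      have hcase : (∃ t : Fin 3, (i = 0 ∧ i' = t.succ) ∨ (i' = 0 ∧ i = t.succ)) ∨
          (∃ t : Fin 3, ∃ j j' : Fin 4, j ≠ j' ∧ ∀ f : Fin 4 → ℤ,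
            f i + f i' = ∑ l, f l - (f 0 + f t.succ)) := by
        by_cases h0 : i = 0 ∨ i' = 0
        · left
          rcases h0 with h0 | h0
          · obtain ⟨t, ht⟩ := Fin.exists_succ_eq.2 (fun h => hi (h0.trans h.symm) : i' ≠ 0)
            exact ⟨t, Or.inl ⟨h0, ht.symm⟩⟩
          · obtain ⟨t, ht⟩ := Fin.exists_succ_eq.2 (fun h => hi (h.trans h0.symm) : i ≠ 0)
            exact ⟨t, Or.inr ⟨h0, ht.symm⟩⟩
        · right
          push Not at h0
          have hex : ∀ i i' : Fin 4, i ≠ i' → i ≠ 0 → i' ≠ 0 → ∃ t : Fin 3,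
              (t.succ ≠ i ∧ t.succ ≠ i') := by decide
          obtain ⟨t, ht1, ht2⟩ := hex i i' hi h0.1 h0.2
          refine ⟨t, 0, 1, by decide, fun f => ?_⟩
          have huniv : (univ : Finset (Fin 4)) = {0, t.succ, i, i'} := by
            have : ∀ (t : Fin 3) (i i' : Fin 4), i ≠ i' → i ≠ 0 → i' ≠ 0 → t.succ ≠ i →
              t.succ ≠ i' → (univ : Finset (Fin 4)) = {0, t.succ, i, i'} := by decide
            exact this t i i' hi h0.1 h0.2 ht1 ht2
          rw [huniv, Finset.sum_insert (by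
            simp only [Finset.mem_insert, Finset.mem_singleton, not_or]
            exact ⟨(Fin.succ_ne_zero t).symm, h0.1.symm, h0.2.symm⟩), Finset.sum_insert (by
            simp only [Finset.mem_insert, Finset.mem_singleton, not_or]
            exact ⟨ht1, ht2⟩), Finset.sum_pair hi]
          ring
      rcases hcase with ⟨t, ⟨rfl, rfl⟩ | ⟨rfl, rfl⟩⟩ | ⟨t, j, j', hj, hf⟩
      · exact fG1 t k k' hk
      · rw [add_comm (e1 t.succ)]; exact fG1 t k k' hk
      · -- the complement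
        have hex : ∀ k k' : Fin 4, k ≠ k' → ∃ l l' : Fin 4, l ≠ l' ∧
            (univ : Finset (Fin 4)) = {l, l', k, k'} ∧ l ≠ k ∧ l ≠ k' ∧ l' ≠ k ∧ l' ≠ k' := by
          decide
        obtain ⟨l, l', hl, hu, n1, n2, n3, n4⟩ := hex k k' hk
        have hy : e2 k + e2 k' = ∑ l, e2 l - (e2 l + e2 l') := by
          rw [hu, Finset.sum_insert (by
            simp only [Finset.mem_insert, Finset.mem_singleton, not_or]
            exact ⟨hl, n1, n2⟩), Finset.sum_insert (by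
            simp only [Finset.mem_insert, Finset.mem_singleton, not_or]
            exact ⟨n3, n4⟩), Finset.sum_pair hk]
          ring
        have := (fG1 t l l' hl).neg
        refine this.congr ?_
        obtain ⟨n, hn⟩ := hrel
        rw [hf e1, hy]
        exact ⟨-(c * n), by linear_combination -c * hn⟩
    have hp := point7M hD0 hc hd0 hd1 hM (f0 0) (f0 1) (hF (Sum.inr (Sum.inl ())))
      (fun i k => fF i k 0) (fun i k => fF i k 1) fG hgood
    rw [Psi_smul] at hp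
    change Psi (fun z => Q D (c * z)) e1 e2 (e3 0) (e3 2) ≤ _ at hp
    rw [psi7_eq (S := fun z => Q D (c * z)) (N := (D : ℤ)) (fun z => by
        rw [mul_neg, Q_neg hD0]) (by rw [mul_zero]; exact Q_zero (dvd_zero _)) (fun z z' h => by
        apply Q_congr
        rw [← mul_sub]
        exact h.mul_left c) hrel] at hp
    linarith
  have hθ7 : ∀ v : ℤ, Adm 59 3000 (D / Int.gcd v D) →
      (66 : ℝ) / 126 * tau 126 (D / Int.gcd v D) - 7 * bet (D / Int.gcd v D) ≤ 199 / 10000 := by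
    intro v hv
    have := cost_diff (K := 126) (l := 59) (M := 3000) (k := 66 / 126) (w := 7) (x := 199 / 10000)
      (x₀ := 567 / 10000) (by norm_num) (by norm_num) (by norm_num) (by norm_num) (by norm_num)
      (by norm_num) (by norm_num) (by norm_num) (by
        intro t ht
        push_cast at ht ⊢
        have e1 : (0 : ℝ) < t := by linarith
        have e2 : (0 : ℝ) < t - 1 := by linarith
        rw [← sub_nonneg]
        have e3 : 199 / 10000 - (7 / (6 * t) + 66 / 126 * (1 / 126 + (126 / (4 * t) - (1 - 1 / 126)) / (t - 1)))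
            = ((199 / 10000 - 66 / 15876) * (t * (t - 1)) - 7 * (t - 1) / 6 -
              66 / 126 * (126 / 4 - 125 / 126 * t)) / (t * (t - 1)) := by
          field_simp
          ring
        rw [e3]
        apply div_nonneg _ (by positivity)
        nlinarith) (by norm_num) (by norm_num) (div_gcd_dvd hD0 v).2 hv
    exact this
  have hθ16 : ∀ v : ℤ, Adm 59 3000 (D / Int.gcd v D) →
      (66 : ℝ) / 126 * tau 126 (D / Int.gcd v D) - 16 * bet (D / Int.gcd v D) ≤ 455 / 10000 := by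
    intro v hv
    have := cost_diff (K := 126) (l := 59) (M := 3000) (k := 66 / 126) (w := 16) (x := 455 / 10000)
      (x₀ := 567 / 10000) (by norm_num) (by norm_num) (by norm_num) (by norm_num) (by norm_num)
      (by norm_num) (by norm_num) (by norm_num) (by
        intro t ht
        push_cast at ht ⊢
        have e1 : (0 : ℝ) < t := by linarith
        have e2 : (0 : ℝ) < t - 1 := by linarith
        rw [← sub_nonneg]
        have e3 : 455 / 10000 - (16 / (6 * t) + 66 / 126 * (1 / 126 + (126 / (4 * t) - (1 - 1 / 126)) / (t - 1)))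
            = ((455 / 10000 - 66 / 15876) * (t * (t - 1)) - 8 * (t - 1) / 3 -
              66 / 126 * (126 / 4 - 125 / 126 * t)) / (t * (t - 1)) := by
          field_simp
          ring
        rw [e3]
        apply div_nonneg _ (by positivity)
        nlinarith) (by norm_num) (by norm_num) (div_gcd_dvd hD0 v).2 hv
    exact this
  have hσ : ∀ v : ℤ, (¬ (D : ℤ) ∣ v ∧ Adm 59 400000 (D / Int.gcd v D)) →
      (66 : ℝ) / 126 * tau 126 (D / Int.gcd v D) + 2 * bet (D / Int.gcd v D) ≤ 475 / 100000 := by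
    intro v hv
    have h4 : 1 < D / Int.gcd v D := by
      have := (div_gcd_dvd hD0 v).2
      have : D / Int.gcd v D ≠ 1 := fun h => hv.1 (div_gcd_eq_one hD0 h)
      omega
    exact cost_sum' (K := 126) (l := 59) (M := 400000) (k := 66 / 126) (v := 2) (y := 475 / 100000)
      (x₀ := 217 / 100000) (by norm_num) (by norm_num) (by norm_num) (by norm_num) (by norm_num)
      (by norm_num) (by norm_num) (by norm_num) (by norm_num) (by norm_num) h4 hv.2
  refine avg_false hD0 (z7 e1 e2 (e3 0) (e3 2)) w7 sum_w7 (C := 66) (by norm_num) (K := 126)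
    (by norm_num) hpt (Sum.elim (fun _ => 199 / 10000) (Sum.elim (fun _ => 455 / 10000)
      (Sum.elim (fun _ => 475 / 100000) (fun _ => 475 / 100000)))) ?_ ?_
  · rintro (⟨g, q⟩ | (u | (⟨i, k, s⟩ | ⟨t, q⟩)))
    · simp only [z7, w7, Sum.elim_inl]
      push_cast
      apply hθ7
      have : ∀ g : Fin 2, ∀ l l', Adm 59 3000 (D / Int.gcd ((![e1, e2] g) l - (![e1, e2] g) l') D) := by
        intro g
        fin_cases g
        · exact h1
        · exact h2
      exact this g _ _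
    · simp only [z7, w7, Sum.elim_inl, Sum.elim_inr]
      push_cast
      exact hθ16 _ h3
    · simp only [z7, w7, Sum.elim_inl, Sum.elim_inr]
      have h5 : ∀ s : Fin 2, ¬ (D : ℤ) ∣ e1 i + e2 k + ![e3 0, e3 2] s ∧
          Adm 59 400000 (D / Int.gcd (e1 i + e2 k + ![e3 0, e3 2] s) D) := by
        intro s
        fin_cases s
        · exact hF0 i k
        · exact hF2 i k
      have := hσ _ (h5 s)
      push_cast
      linarith
    · simp only [z7, w7, Sum.elim_inr]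
      have := hσ _ (hG 0 t.succ (pa q) (pb q) (Fin.succ_ne_zero t).symm (pab q))
      push_cast
      linarith
  · simp only [Fintype.sum_sum_type, Sum.elim_inl, Sum.elim_inr, Finset.sum_const, Finset.card_univ,
      Fintype.card_prod, Fintype.card_fin, Fintype.card_unit]
    norm_num

end Pool.Agent.TH295.PC
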