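import Pool.Agent.W280.PE.Affine4
import Pool.Agent.TH295.PC.Sys7

set_option autoImplicit false
set_option maxHeartbeats 4000000

/-!
Rank four systems on the line with three punctures, admissible orders.
-/

namespace Pool.Agent.TH295.PC

open Finset Polynomial Pool.Agent.W280.PC Pool.Agent.W280.PE Pool.Agent.W432.PC

universe u

variable {R : Type u} [CommRing R] [IsDomain R] [CharZero R]

/-- `z / N` is not an integer and has an admissible denominator -/
def NR (N : ℕ) (z : ℤ) : Prop := ¬ (N : ℤ) ∣ z ∧ Adm 59 400000 (N / Int.gcd z N)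

theorem affine4A (α : Fin 2 → R) (hα : ∀ i j, i ≠ j → IsUnit (α i - α j))
    (A : Fin 2 → Matrix (Fin 4) (Fin 4) R) (N : ℕ) (hN : 1 < N) (e : Fin 3 → Fin 4 → ℤ)
    (he0 : HasExponents (A 0) (fun l => (e 0 l : ℚ) / N))
    (he1 : HasExponents (A 1) (fun l => (e 1 l : ℚ) / N))
    (he2 : HasExponents (A 0 + A 1) (fun l => -(e 2 l : ℚ) / N))
    (j : Fin 3) (hj0 : (N : ℤ) ∣ e j 0 - e j 1) (hj1 : (N : ℤ) ∣ e j 2 - e j 3)
    (h1 : ∀ j l l', Adm 59 3000 (N / Int.gcd (e j l - e j l') N))
    (h2 : ∀ κ : Fin 3 → Fin 4, NR N (∑ i, e i (κ i)))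
    (h3 : ∀ κ κ' : Fin 3 → Fin 4, (∀ i, κ i ≠ κ' i) → κ j < 2 → 2 ≤ κ' j →
      NR N (∑ i, e i (κ i) + ∑ i, e i (κ' i))) :
    BadClass α A N := by
  by_contra hcon
  have hg := good_all α hα A N hN e he0 he1 he2 hcon
  have hsum0 : ∑ l, e 0 l + ∑ l, e 1 l + ∑ l, e 2 l = 0 := by
    have h := trace_rel A N hN ![e 0, e 1] (fun l => -e 2 l) (by
      intro j
      fin_cases j
      · exact he0
      · exact he1) (by
      rw [Fin.sum_univ_two]
      push_cast
      exact he2)
    rw [Fin.sum_univ_two, Finset.sum_neg_distrib] at h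
    change ∑ l, e 0 l + ∑ l, e 1 l = _ at h
    linarith
  fin_cases j
  · -- the special point is the first
    refine arith7A hN (e1 := e 1) (e2 := e 2) (e3 := e 0) hj0 hj1 (by linarith) (h1 1) (h1 2)
      (h1 0 2 0)
      (fun i k => ?_) (fun i k => ?_) (fun i i' k k' hi hk => ?_) (fun a ha => ?_)
    · have := h2 ![0, i, k]
      rw [Fin.sum_univ_three] at this
      simp only [Matrix.cons_val_zero, Matrix.cons_val_one, Matrix.cons_val] at this
      rwa [show e 0 0 + e 1 i + e 2 k = e 1 i + e 2 k + e 0 0 by ring] at this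
    · have := h2 ![2, i, k]
      rw [Fin.sum_univ_three] at this
      simp only [Matrix.cons_val_zero, Matrix.cons_val_one, Matrix.cons_val] at this
      rwa [show e 0 2 + e 1 i + e 2 k = e 1 i + e 2 k + e 0 2 by ring] at this
    · have := h3 ![0, i, k] ![2, i', k'] (by
        intro t
        fin_cases t
        · exact (by decide : (0 : Fin 4) ≠ 2)
        · exact hi
        · exact hk) (by simp) (by simp)
      rw [Fin.sum_univ_three, Fin.sum_univ_three] at this
      simp only [Matrix.cons_val_zero, Matrix.cons_val_one, Matrix.cons_val] at this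
      rwa [show e 0 0 + e 1 i + e 2 k + (e 0 2 + e 1 i' + e 2 k') =
        (e 1 i + e 1 i') + (e 2 k + e 2 k') + (e 0 0 + e 0 2) by ring] at this
    · obtain ⟨X, Y, C, h⟩ := hg a ha
      exact ⟨Y, C, X, h.rot⟩
  · refine arith7A hN (e1 := e 2) (e2 := e 0) (e3 := e 1) hj0 hj1 (by linarith) (h1 2) (h1 0)
      (h1 1 2 0)
      (fun i k => ?_) (fun i k => ?_) (fun i i' k k' hi hk => ?_) (fun a ha => ?_)
    · have := h2 ![k, 0, i]
      rw [Fin.sum_univ_three] at this
      simp only [Matrix.cons_val_zero, Matrix.cons_val_one, Matrix.cons_val] at this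
      rwa [show e 0 k + e 1 0 + e 2 i = e 2 i + e 0 k + e 1 0 by ring] at this
    · have := h2 ![k, 2, i]
      rw [Fin.sum_univ_three] at this
      simp only [Matrix.cons_val_zero, Matrix.cons_val_one, Matrix.cons_val] at this
      rwa [show e 0 k + e 1 2 + e 2 i = e 2 i + e 0 k + e 1 2 by ring] at this
    · have := h3 ![k, 0, i] ![k', 2, i'] (by
        intro t
        fin_cases t
        · exact hk
        · exact (by decide : (0 : Fin 4) ≠ 2)
        · exact hi) (by simp) (by simp)
      rw [Fin.sum_univ_three, Fin.sum_univ_three] at this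
      simp only [Matrix.cons_val_zero, Matrix.cons_val_one, Matrix.cons_val] at this
      rwa [show e 0 k + e 1 0 + e 2 i + (e 0 k' + e 1 2 + e 2 i') =
        (e 2 i + e 2 i') + (e 0 k + e 0 k') + (e 1 0 + e 1 2) by ring] at this
    · obtain ⟨X, Y, C, h⟩ := hg a ha
      exact ⟨C, X, Y, h.rot.rot⟩
  · refine arith7A hN (e1 := e 0) (e2 := e 1) (e3 := e 2) hj0 hj1 (by linarith) (h1 0) (h1 1)
      (h1 2 2 0)
      (fun i k => ?_) (fun i k => ?_) (fun i i' k k' hi hk => ?_) (fun a ha => ?_)
    · have := h2 ![i, k, 0]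
      rw [Fin.sum_univ_three] at this
      simp only [Matrix.cons_val_zero, Matrix.cons_val_one, Matrix.cons_val] at this
      exact this
    · have := h2 ![i, k, 2]
      rw [Fin.sum_univ_three] at this
      simp only [Matrix.cons_val_zero, Matrix.cons_val_one, Matrix.cons_val] at this
      exact this
    · have := h3 ![i, k, 0] ![i', k', 2] (by
        intro t
        fin_cases t
        · exact hi
        · exact hk
        · exact (by decide : (0 : Fin 4) ≠ 2)) (by simp) (by simp)
      rw [Fin.sum_univ_three, Fin.sum_univ_three] at this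
      simp only [Matrix.cons_val_zero, Matrix.cons_val_one, Matrix.cons_val] at this
      rwa [show e 0 i + e 1 k + e 2 0 + (e 0 i' + e 1 k' + e 2 2) =
        (e 0 i + e 0 i') + (e 1 k + e 1 k') + (e 2 0 + e 2 2) by ring] at this
    · exact hg a ha

end Pool.Agent.TH295.PC
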