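import Mathlib

set_option autoImplicit false

/-!
Averages over the residues prime to `d` of the periodic Bernoulli function and of tent functions.
-/

namespace Pool.Agent.TH295.PC

open Finset

/-- the periodic second Bernoulli function -/
noncomputable def B (x : ℝ) : ℝ := Int.fract x ^ 2 - Int.fract x + 1 / 6

/-- the tent function with peak `1` at the integers, vanishing at distance `≥ 1/K` from them -/
noncomputable def tent (K : ℕ) (x : ℝ) : ℝ :=
  1 / K - (K : ℝ) / 2 * (B (x + 1 / K) - 2 * B x + B (x + (K - 1) / K))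

lemma B_add_int (x : ℝ) (n : ℤ) : B (x + n) = B x := by
  unfold B; rw [Int.fract_add_intCast]

lemma tent_add_int (K : ℕ) (x : ℝ) (n : ℤ) : tent K (x + n) = tent K x := by
  unfold tent
  rw [show x + n + 1 / K = (x + 1 / K) + n by ring, show x + n + (K - 1) / K = (x + (K - 1) / K) + n by ring,
    B_add_int, B_add_int, B_add_int]

lemma B_neg (x : ℝ) : B (-x) = B x := by
  unfold B
  by_cases h : Int.fract x = 0
  · rw [Int.fract_neg_eq_zero.2 h, h]
  · rw [Int.fract_neg h]; ring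

lemma B_of {x : ℝ} (h0 : 0 ≤ x) (h1 : x < 1) : B x = x ^ 2 - x + 1 / 6 := by
  unfold B; rw [Int.fract_eq_self.2 ⟨h0, h1⟩]

lemma B_of1 {x : ℝ} (h0 : 1 ≤ x) (h1 : x < 2) : B x = (x - 1) ^ 2 - (x - 1) + 1 / 6 := by
  have := B_add_int (x - 1) 1
  rw [show x - 1 + ((1 : ℤ) : ℝ) = x by push_cast; ring] at this
  rw [this, B_of (by linarith) (by linarith)]

/-- explicit values of the tent function -/
lemma tent_cases {K : ℕ} (hK : 2 ≤ K) {x : ℝ} (h0 : 0 ≤ x) (h1 : x < 1) :
    (x ≤ 1 / K ∧ tent K x = 1 - K * x) ∨ (1 / K ≤ x ∧ x ≤ 1 - 1 / K ∧ tent K x = 0) ∨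
      (1 - 1 / K ≤ x ∧ tent K x = 1 - K * (1 - x)) := by
  have hK' : (2 : ℝ) ≤ K := by exact_mod_cast hK
  have hK0 : (0 : ℝ) < K := by linarith
  set h : ℝ := 1 / K with hh
  have hKh : (K : ℝ) * h = 1 := by rw [hh]; field_simp
  have hhpos : 0 < h := by rw [hh]; positivity
  have hh2 : h ≤ 1 / 2 := by rw [hh]; exact one_div_le_one_div_of_le (by norm_num) hK'
  have e1 : ((K : ℝ) - 1) / K = 1 - h := by rw [hh]; field_simp
  unfold tent
  rw [← hh, e1]
  have hx : B x = x ^ 2 - x + 1 / 6 := B_of h0 h1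
  rcases lt_or_ge x h with hlt | hge
  · left
    refine ⟨hlt.le, ?_⟩
    rw [hx, B_of (by linarith) (by linarith), B_of (x := x + (1 - h)) (by linarith) (by linarith)]
    linear_combination (1 - h) * hKh
  · right
    rcases lt_or_ge x (1 - h) with hlt' | hge'
    · left
      refine ⟨hge, hlt'.le, ?_⟩
      rw [hx, B_of (x := x + h) (by linarith) (by linarith), B_of1 (x := x + (1 - h)) (by linarith) (by linarith)]
      linear_combination (-h) * hKh
    · right
      refine ⟨hge', ?_⟩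
      rw [hx, B_of1 (x := x + h) (by linarith) (by linarith), B_of1 (x := x + (1 - h)) (by linarith) (by linarith)]
      linear_combination (1 - h) * hKh

lemma tent_fract (K : ℕ) (x : ℝ) : tent K (Int.fract x) = tent K x := by
  have := tent_add_int K (Int.fract x) ⌊x⌋
  rw [Int.fract_add_floor] at this
  exact this.symm

lemma B_fract (x : ℝ) : B (Int.fract x) = B x := by
  unfold B; rw [Int.fract_fract]

lemma tent_nonneg {K : ℕ} (hK : 2 ≤ K) (x : ℝ) : 0 ≤ tent K x := by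
  have hK' : (2 : ℝ) ≤ K := by exact_mod_cast hK
  have hK0 : (0 : ℝ) < K := by linarith
  rw [← tent_fract]
  rcases tent_cases hK (Int.fract_nonneg x) (Int.fract_lt_one x) with ⟨h, e⟩ | ⟨-, -, e⟩ | ⟨h, e⟩
  · rw [e]
    have := mul_le_mul_of_nonneg_left h hK0.le
    rw [mul_one_div_cancel hK0.ne'] at this
    linarith
  · rw [e]
  · rw [e]
    have := mul_le_mul_of_nonneg_left h hK0.le
    have e2 : (K : ℝ) * (1 / K) = 1 := mul_one_div_cancel hK0.ne'
    nlinarith

/-- the distance of `x` from an integer is at least `(1 - tent x)/K` -/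
lemma tent_dist {K : ℕ} (hK : 2 ≤ K) (x : ℝ) (n : ℤ) : (1 - tent K x) / K ≤ |x - n| := by
  have hK' : (2 : ℝ) ≤ K := by exact_mod_cast hK
  have hK0 : (0 : ℝ) < K := by linarith
  have e2 : (K : ℝ) * (1 / K) = 1 := mul_one_div_cancel hK0.ne'
  rw [div_le_iff₀ hK0]
  have hmin : Int.fract x ≤ |x - n| ∨ 1 - Int.fract x ≤ |x - n| := by
    have h1 : x - n = Int.fract x + ((⌊x⌋ - n : ℤ) : ℝ) := by
      push_cast
      have := Int.fract_add_floor x
      linarith
    rcases le_or_gt 0 (⌊x⌋ - n) with h | h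
    · left
      rw [h1]
      have h2 : (0 : ℝ) ≤ ((⌊x⌋ - n : ℤ) : ℝ) := by exact_mod_cast h
      refine le_trans ?_ (le_abs_self _)
      linarith
    · right
      rw [h1]
      have h2 : (((⌊x⌋ - n : ℤ)) : ℝ) ≤ -1 := by exact_mod_cast (by omega : (⌊x⌋ - n : ℤ) ≤ -1)
      refine le_trans ?_ (neg_le_abs _)
      linarith
  have hf0 := Int.fract_nonneg x
  have hf1 := Int.fract_lt_one x
  have key : 1 - tent K x ≤ K * Int.fract x ∧ 1 - tent K x ≤ K * (1 - Int.fract x) := by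
    rw [← tent_fract]
    rcases tent_cases hK hf0 hf1 with ⟨h, e⟩ | ⟨h, h', e⟩ | ⟨h, e⟩
    · rw [e]
      have h3 : Int.fract x ≤ 1 / 2 := h.trans (one_div_le_one_div_of_le (by norm_num) hK')
      constructor <;> nlinarith
    · rw [e]
      constructor <;> nlinarith
    · rw [e]
      have h3 : (1 : ℝ) / K ≤ 1 / 2 := one_div_le_one_div_of_le (by norm_num) hK'
      constructor <;> nlinarith
  rcases hmin with h | h
  · calc 1 - tent K x ≤ K * Int.fract x := key.1
      _ ≤ |x - n| * K := by rw [mul_comm]; exact mul_le_mul_of_nonneg_right h hK0.le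
  · calc 1 - tent K x ≤ K * (1 - Int.fract x) := key.2
      _ ≤ |x - n| * K := by rw [mul_comm]; exact mul_le_mul_of_nonneg_right h hK0.le

/-! ### sums over all residues -/

lemma sum_shift {g : ℕ → ℝ} {e : ℕ} (hg : ∀ n, g (n + e) = g n) (q : ℕ) :
    ∑ b ∈ range e, g (b + q) = ∑ b ∈ range e, g b := by
  induction q with
  | zero => rfl
  | succ q ih =>
    rw [← ih]
    have h1 := Finset.sum_range_succ (fun b => g (b + q)) e
    have h2 := Finset.sum_range_succ' (fun b => g (b + q)) e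
    rw [h1] at h2
    have h3 : g (e + q) = g (0 + q) := by rw [add_comm e q, hg, zero_add]
    rw [h3] at h2
    have h4 : ∑ b ∈ range e, g (b + (q + 1)) = ∑ b ∈ range e, g (b + 1 + q) :=
      Finset.sum_congr rfl (fun b _ => by rw [show b + (q + 1) = b + 1 + q by ring])
    rw [h4]
    linarith

lemma sum_id (e : ℕ) : ∑ b ∈ range e, (b : ℝ) = e * (e - 1) / 2 := by
  induction e with
  | zero => simp
  | succ e ih => rw [Finset.sum_range_succ, ih]; push_cast; ring

lemma sum_sq (e : ℕ) : ∑ b ∈ range e, (b : ℝ) ^ 2 = e * (e - 1) * (2 * e - 1) / 6 := by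
  induction e with
  | zero => simp
  | succ e ih => rw [Finset.sum_range_succ, ih]; push_cast; ring

/-- the distribution relation -/
lemma sum_B {e : ℕ} (he : 0 < e) {s : ℝ} (hs : 0 ≤ s) :
    ∑ b ∈ range e, B ((b : ℝ) / e + s) = B (e * s) / e := by
  have he' : (0 : ℝ) < e := by exact_mod_cast he
  set y : ℝ := e * s with hy
  have hy0 : 0 ≤ y := by positivity
  set q : ℕ := ⌊y⌋₊ with hq
  set r : ℝ := y - q with hr
  have hr0 : 0 ≤ r := by rw [hr]; linarith [Nat.floor_le hy0]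
  have hr1 : r < 1 := by rw [hr]; linarith [Nat.lt_floor_add_one y]
  have h1 : ∀ b : ℕ, (b : ℝ) / e + s = (((b + q : ℕ) : ℝ) + r) / e := by
    intro b
    push_cast
    rw [hr]
    field_simp
    rw [hy]; ring
  simp only [h1]
  have hper : ∀ n : ℕ, B ((((n + e : ℕ) : ℝ) + r) / e) = B (((n : ℝ) + r) / e) := by
    intro n
    have := B_add_int (((n : ℝ) + r) / e) 1
    rw [← this]
    congr 1
    push_cast
    field_simp
    ring
  rw [sum_shift (g := fun n : ℕ => B (((n : ℝ) + r) / e)) hper q]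
  have h2 : ∀ b ∈ range e, B (((b : ℝ) + r) / e) = ((b : ℝ) ^ 2 + 2 * r * b + r ^ 2) / e ^ 2
      - ((b : ℝ) + r) / e + 1 / 6 := by
    intro b hb
    have hb' : (b : ℝ) + 1 ≤ e := by exact_mod_cast (Finset.mem_range.1 hb)
    rw [B_of (by positivity) (by rw [div_lt_one he']; linarith)]
    ring
  rw [Finset.sum_congr rfl h2]
  rw [Finset.sum_add_distrib, Finset.sum_sub_distrib, ← Finset.sum_div, ← Finset.sum_div,
    Finset.sum_add_distrib, Finset.sum_add_distrib, Finset.sum_add_distrib, ← Finset.mul_sum,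
    sum_id, sum_sq]
  simp only [Finset.sum_const, Finset.card_range, nsmul_eq_mul]
  have h3 : B y = r ^ 2 - r + 1 / 6 := by
    have := B_add_int r q
    rw [show r + ((q : ℤ) : ℝ) = y by rw [hr]; push_cast; ring] at this
    rw [this, B_of hr0 hr1]
  rw [h3]
  field_simp
  ring

/-- the error term of the tent sum -/
noncomputable def E (K : ℕ) (e : ℕ) : ℝ :=
  (K : ℝ) / e * (Int.fract ((e : ℝ) / K) * (1 - Int.fract ((e : ℝ) / K)))

lemma sum_tent {K : ℕ} (hK : 2 ≤ K) {e : ℕ} (he : 0 < e) :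
    ∑ b ∈ range e, tent K ((b : ℝ) / e) = e / K + E K e := by
  have hK' : (2 : ℝ) ≤ K := by exact_mod_cast hK
  have hK0 : (0 : ℝ) < K := by linarith
  have he' : (0 : ℝ) < e := by exact_mod_cast he
  unfold tent
  rw [Finset.sum_sub_distrib, ← Finset.mul_sum, Finset.sum_add_distrib, Finset.sum_sub_distrib,
    ← Finset.mul_sum, sum_B he (by positivity), sum_B he (by
      apply div_nonneg <;> linarith)]
  have h0 := sum_B he (le_refl (0 : ℝ))
  simp only [add_zero, mul_zero] at h0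
  rw [h0]
  have h1 : B ((e : ℝ) * ((K - 1) / K)) = B ((e : ℝ) * (1 / K)) := by
    rw [← B_neg ((e : ℝ) * (1 / K)), ← B_add_int (-((e : ℝ) * (1 / K))) e]
    congr 1
    push_cast
    field_simp
    ring
  rw [h1]
  have h2 : B 0 = 1 / 6 := by rw [B_of le_rfl one_pos]; norm_num
  rw [h2]
  simp only [Finset.sum_const, Finset.card_range, nsmul_eq_mul]
  unfold E B
  rw [mul_one_div (e : ℝ) (K : ℝ)]
  generalize Int.fract ((e : ℝ) / K) = f
  field_simp
  ring

lemma E_nonneg (K e : ℕ) : 0 ≤ E K e := by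
  unfold E
  have h0 := Int.fract_nonneg ((e : ℝ) / K)
  have h1 := Int.fract_lt_one ((e : ℝ) / K)
  have : 0 ≤ 1 - Int.fract ((e : ℝ) / K) := by linarith
  positivity

lemma E_le (K e : ℕ) : E K e ≤ K / (4 * e) := by
  unfold E
  have h : Int.fract ((e : ℝ) / K) * (1 - Int.fract ((e : ℝ) / K)) ≤ 1 / 4 := by
    nlinarith [sq_nonneg (Int.fract ((e : ℝ) / K) - 1 / 2)]
  calc (K : ℝ) / e * (Int.fract ((e : ℝ) / K) * (1 - Int.fract ((e : ℝ) / K)))
      ≤ (K : ℝ) / e * (1 / 4) := mul_le_mul_of_nonneg_left h (by positivity)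
    _ = K / (4 * e) := by ring

lemma E_lt {K e : ℕ} (he : 0 < e) (h : e < K) : E K e = 1 - e / K := by
  have he' : (0 : ℝ) < e := by exact_mod_cast he
  have hK0 : (0 : ℝ) < K := by exact_mod_cast (by omega : 0 < K)
  have h1 : (e : ℝ) < K := by exact_mod_cast h
  unfold E
  rw [Int.fract_eq_self.2 ⟨by positivity, (div_lt_one hK0).2 h1⟩]
  field_simp

lemma E_le_one {K e : ℕ} (he : 0 < e) (hK : 0 < K) : E K e ≤ 1 := by
  have he' : (0 : ℝ) < e := by exact_mod_cast he
  have hK' : (0 : ℝ) < K := by exact_mod_cast hK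
  rcases lt_or_ge e K with h | h
  · rw [E_lt he h]
    have : (0 : ℝ) ≤ (e : ℝ) / K := by positivity
    linarith
  · refine (E_le K e).trans ?_
    rw [div_le_one (by positivity)]
    have : (K : ℝ) ≤ e := by exact_mod_cast h
    linarith

/-! ### sums over the residues prime to `n` -/

/-- the residues prime to `n` -/
def U (n : ℕ) : Finset ℕ := (range n).filter (fun b => n.Coprime b)

lemma card_U (n : ℕ) : (U n).card = n.totient := rfl

lemma prod_dvd_iff {T : Finset ℕ} (hT : ∀ p ∈ T, p.Prime) (b : ℕ) :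
    (∏ p ∈ T, p) ∣ b ↔ ∀ p ∈ T, p ∣ b := by
  constructor
  · intro h p hp
    exact (Finset.dvd_prod_of_mem _ hp).trans h
  · intro h
    exact Finset.prod_primes_dvd b (fun p hp => (hT p hp).prime) h

lemma indicator_eq {n : ℕ} (hn : 0 < n) (b : ℕ) :
    (if n.Coprime b then (1 : ℝ) else 0) =
      ∑ T ∈ n.primeFactors.powerset, (-1) ^ T.card * (if (∏ p ∈ T, p) ∣ b then (1 : ℝ) else 0) := by
  have h1 : (if n.Coprime b then (1 : ℝ) else 0) =
      ∏ p ∈ n.primeFactors, (-(if p ∣ b then (1 : ℝ) else 0) + 1) := by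
    by_cases h : n.Coprime b
    · rw [if_pos h]
      symm
      apply Finset.prod_eq_one
      intro p hp
      have hp' := Nat.mem_primeFactors.1 hp
      have : ¬ p ∣ b := fun hb => by
        have h2 := Nat.dvd_gcd hp'.2.1 hb
        rw [h] at h2
        exact hp'.1.one_lt.ne' (Nat.dvd_one.1 h2)
      rw [if_neg this]; norm_num
    · rw [if_neg h]
      symm
      obtain ⟨p, hp, hpn, hpb⟩ := Nat.Prime.not_coprime_iff_dvd.1 h
      apply Finset.prod_eq_zero (Nat.mem_primeFactors.2 ⟨hp, hpn, hn.ne'⟩)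
      rw [if_pos hpb]; norm_num
  rw [h1, Finset.prod_add]
  apply Finset.sum_congr rfl
  intro T hT
  rw [Finset.prod_const_one, mul_one]
  have hTp : ∀ p ∈ T, p.Prime := fun p hp =>
    Nat.prime_of_mem_primeFactors (Finset.mem_powerset.1 hT hp)
  have h2 : ∏ p ∈ T, (-(if p ∣ b then (1 : ℝ) else 0)) = (-1) ^ T.card *
      ∏ p ∈ T, (if p ∣ b then (1 : ℝ) else 0) := by
    rw [← Finset.prod_const, ← Finset.prod_mul_distrib]
    apply Finset.prod_congr rfl
    intro p _
    ring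
  rw [h2]
  congr 1
  by_cases h : (∏ p ∈ T, p) ∣ b
  · rw [if_pos h]
    apply Finset.prod_eq_one
    intro p hp
    rw [if_pos ((prod_dvd_iff hTp b).1 h p hp)]
  · rw [if_neg h]
    rw [prod_dvd_iff hTp] at h
    push Not at h
    obtain ⟨p, hp, hpb⟩ := h
    exact Finset.prod_eq_zero hp (if_neg hpb)

lemma sum_multiples {n m : ℕ} (hn : 0 < n) (hm : m ∣ n) (f : ℝ → ℝ) :
    ∑ b ∈ range n, (if m ∣ b then (1 : ℝ) else 0) * f ((b : ℝ) / n) =
      ∑ c ∈ range (n / m), f ((c : ℝ) / ((n / m : ℕ) : ℝ)) := by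
  obtain ⟨k, rfl⟩ := hm
  have hm0 : 0 < m := Nat.pos_of_ne_zero (by rintro rfl; simp at hn)
  have hm' : (m : ℝ) ≠ 0 := by exact_mod_cast hm0.ne'
  rw [Nat.mul_div_cancel_left k hm0]
  have h1 : ∀ b : ℕ, (if m ∣ b then (1 : ℝ) else 0) * f ((b : ℝ) / ((m * k : ℕ) : ℝ)) =
      if m ∣ b then f ((b : ℝ) / ((m * k : ℕ) : ℝ)) else 0 := by
    intro b; split_ifs <;> ring
  simp only [h1]
  rw [← Finset.sum_filter]
  symm
  apply Finset.sum_bij (fun c _ => m * c)
  · intro c hc
    rw [Finset.mem_filter, Finset.mem_range]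
    exact ⟨Nat.mul_lt_mul_of_pos_left (Finset.mem_range.1 hc) hm0, dvd_mul_right _ _⟩
  · intro c _ c' _ h
    exact Nat.eq_of_mul_eq_mul_left hm0 h
  · intro b hb
    rw [Finset.mem_filter, Finset.mem_range] at hb
    obtain ⟨c, rfl⟩ := hb.2
    exact ⟨c, Finset.mem_range.2 (Nat.lt_of_mul_lt_mul_left hb.1), rfl⟩
  · intro c _
    congr 1
    push_cast
    rw [mul_div_mul_left _ _ hm']

/-- inclusion and exclusion -/
lemma sum_U {n : ℕ} (hn : 0 < n) (f : ℝ → ℝ) :
    ∑ b ∈ U n, f ((b : ℝ) / n) = ∑ T ∈ n.primeFactors.powerset, (-1) ^ T.card *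
      ∑ c ∈ range (n / ∏ p ∈ T, p), f ((c : ℝ) / ((n / ∏ p ∈ T, p : ℕ) : ℝ)) := by
  have h1 : ∑ b ∈ U n, f ((b : ℝ) / n) =
      ∑ b ∈ range n, (if n.Coprime b then (1 : ℝ) else 0) * f ((b : ℝ) / n) := by
    unfold U
    rw [Finset.sum_filter]
    apply Finset.sum_congr rfl
    intro b _
    split_ifs <;> ring
  rw [h1]
  simp only [indicator_eq hn, Finset.sum_mul]
  rw [Finset.sum_comm]
  apply Finset.sum_congr rfl
  intro T hT
  have hdvd : (∏ p ∈ T, p) ∣ n := by
    rw [prod_dvd_iff (fun p hp => Nat.prime_of_mem_primeFactors (Finset.mem_powerset.1 hT hp))]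
    intro p hp
    exact Nat.dvd_of_mem_primeFactors (Finset.mem_powerset.1 hT hp)
  rw [← sum_multiples hn hdvd, Finset.mul_sum]
  apply Finset.sum_congr rfl
  intro b _
  ring

/-- the product over a set of prime divisors divides `n` -/
lemma prod_T_dvd {n : ℕ} {T : Finset ℕ} (hT : T ∈ n.primeFactors.powerset) : (∏ p ∈ T, p) ∣ n := by
  rw [prod_dvd_iff (fun p hp => Nat.prime_of_mem_primeFactors (Finset.mem_powerset.1 hT hp))]
  intro p hp
  exact Nat.dvd_of_mem_primeFactors (Finset.mem_powerset.1 hT hp)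

lemma sum_powerset_prod (s : Finset ℕ) (g : ℕ → ℝ) :
    ∑ T ∈ s.powerset, (-1) ^ T.card * ∏ p ∈ T, g p = ∏ p ∈ s, (1 - g p) := by
  have h1 : ∏ p ∈ s, (1 - g p) = ∏ p ∈ s, (-(g p) + 1) := by
    apply Finset.prod_congr rfl; intro p _; ring
  rw [h1, Finset.prod_add]
  apply Finset.sum_congr rfl
  intro T _
  rw [Finset.prod_const_one, mul_one, ← Finset.prod_const, ← Finset.prod_mul_distrib]
  apply Finset.prod_congr rfl; intro p _; ring

/-- the sum of the Bernoulli function over the residues prime to `n` -/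
lemma sum_U_B {n : ℕ} (hn : 0 < n) :
    ∑ b ∈ U n, B ((b : ℝ) / n) = n.totient * (∏ p ∈ n.primeFactors, (-(p : ℝ))) / (6 * n ^ 2) := by
  have hn' : (0 : ℝ) < n := by exact_mod_cast hn
  rw [sum_U hn]
  have h1 : ∀ T ∈ n.primeFactors.powerset, (-1 : ℝ) ^ T.card *
      ∑ c ∈ range (n / ∏ p ∈ T, p), B ((c : ℝ) / ((n / ∏ p ∈ T, p : ℕ) : ℝ)) =
      ((-1) ^ T.card * ∏ p ∈ T, (p : ℝ)) / (6 * n) := by
    intro T hT
    obtain ⟨k, hk⟩ := prod_T_dvd hT
    have hP : 0 < ∏ p ∈ T, p := Nat.pos_of_ne_zero (by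
      intro h0; rw [h0, zero_mul] at hk; omega)
    have hk0 : 0 < k := Nat.pos_of_ne_zero (by rintro rfl; rw [mul_zero] at hk; omega)
    have hq : n / ∏ p ∈ T, p = k := by
      conv_lhs => rw [hk]
      exact Nat.mul_div_cancel_left k hP
    rw [hq]
    have h0 := sum_B hk0 (le_refl (0 : ℝ))
    simp only [add_zero, mul_zero] at h0
    rw [h0]
    have h2 : B 0 = 1 / 6 := by rw [B_of le_rfl one_pos]; norm_num
    rw [h2]
    have h3 : (n : ℝ) = (∏ p ∈ T, (p : ℝ)) * k := by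
      conv_lhs => rw [hk]
      push_cast; rfl
    have h4 : (∏ p ∈ T, (p : ℝ)) ≠ 0 := by
      have : ((∏ p ∈ T, p : ℕ) : ℝ) ≠ 0 := by exact_mod_cast hP.ne'
      push_cast at this; exact this
    have hk' : (k : ℝ) ≠ 0 := by exact_mod_cast hk0.ne'
    rw [h3]
    field_simp
  rw [Finset.sum_congr rfl h1, ← Finset.sum_div, sum_powerset_prod]
  have h5 : (n.totient : ℝ) = n * ∏ p ∈ n.primeFactors, (1 - (p : ℝ)⁻¹) := by
    have := Nat.totient_eq_mul_prod_factors n
    have h6 : ((n.totient : ℚ) : ℝ) = ((n * ∏ p ∈ n.primeFactors, (1 - (p : ℚ)⁻¹) : ℚ) : ℝ) := by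
      rw [this]
    push_cast at h6
    exact h6
  rw [h5]
  have h7 : ∏ p ∈ n.primeFactors, (1 - (p : ℝ)) =
      (∏ p ∈ n.primeFactors, (1 - (p : ℝ)⁻¹)) * ∏ p ∈ n.primeFactors, (-(p : ℝ)) := by
    rw [← Finset.prod_mul_distrib]
    apply Finset.prod_congr rfl
    intro p hp
    have : (p : ℝ) ≠ 0 := by exact_mod_cast (Nat.prime_of_mem_primeFactors hp).ne_zero
    field_simp
    ring
  rw [h7]
  field_simp

/-- the sum of the tent function over the residues prime to `n` -/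
lemma sum_U_tent {K : ℕ} (hK : 2 ≤ K) {n : ℕ} (hn : 0 < n) :
    ∑ b ∈ U n, tent K ((b : ℝ) / n) = n.totient / K +
      ∑ T ∈ n.primeFactors.powerset, (-1) ^ T.card * E K (n / ∏ p ∈ T, p) := by
  have hn' : (0 : ℝ) < n := by exact_mod_cast hn
  rw [sum_U hn]
  have h1 : ∀ T ∈ n.primeFactors.powerset, (-1 : ℝ) ^ T.card *
      ∑ c ∈ range (n / ∏ p ∈ T, p), tent K ((c : ℝ) / ((n / ∏ p ∈ T, p : ℕ) : ℝ)) =
      (n / K) * ((-1) ^ T.card * ∏ p ∈ T, (p : ℝ)⁻¹) +
        (-1) ^ T.card * E K (n / ∏ p ∈ T, p) := by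
    intro T hT
    obtain ⟨k, hk⟩ := prod_T_dvd hT
    have hP : 0 < ∏ p ∈ T, p := Nat.pos_of_ne_zero (by
      intro h0; rw [h0, zero_mul] at hk; omega)
    have hk0 : 0 < k := Nat.pos_of_ne_zero (by rintro rfl; rw [mul_zero] at hk; omega)
    have hq : n / ∏ p ∈ T, p = k := by
      conv_lhs => rw [hk]
      exact Nat.mul_div_cancel_left k hP
    rw [hq, sum_tent hK hk0]
    have h3 : (n : ℝ) = (∏ p ∈ T, (p : ℝ)) * k := by
      conv_lhs => rw [hk]
      push_cast; rfl
    have h4 : (∏ p ∈ T, (p : ℝ)) ≠ 0 := by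
      have : ((∏ p ∈ T, p : ℕ) : ℝ) ≠ 0 := by exact_mod_cast hP.ne'
      push_cast at this; exact this
    rw [h3, Finset.prod_inv_distrib]
    field_simp
  rw [Finset.sum_congr rfl h1, Finset.sum_add_distrib, ← Finset.mul_sum, sum_powerset_prod]
  congr 1
  have h5 : (n.totient : ℝ) = n * ∏ p ∈ n.primeFactors, (1 - (p : ℝ)⁻¹) := by
    have := Nat.totient_eq_mul_prod_factors n
    have h6 : ((n.totient : ℚ) : ℝ) = ((n * ∏ p ∈ n.primeFactors, (1 - (p : ℚ)⁻¹) : ℚ) : ℝ) := by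
      rw [this]
    push_cast at h6
    exact h6
  rw [h5]
  ring

end Pool.Agent.TH295.PC
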