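import Pool.Agent.TH295.PC.Orb

set_option autoImplicit false

/-!
Bounds for the averages, for numbers without small prime factors.
-/

namespace Pool.Agent.TH295.PC

open Finset

/-- all the prime factors of `d` are at least `l` -/
def Rough (l d : ℕ) : Prop := ∀ p : ℕ, p.Prime → p ∣ d → l ≤ p

lemma Rough.dvd {l d e : ℕ} (h : Rough l d) (he : e ∣ d) : Rough l e :=
  fun p hp hpe => h p hp (hpe.trans he)

lemma Rough.le {l d : ℕ} (h : Rough l d) (hd : 1 < d) : l ≤ d := by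
  obtain ⟨p, hp, hpd⟩ := Nat.exists_prime_and_dvd hd.ne'
  exact (h p hp hpd).trans (Nat.le_of_dvd (by omega) hpd)

lemma Rough.sq_le {l d : ℕ} (h : Rough l d) (hd : 1 < d) (hnp : ¬ d.Prime) : l * l ≤ d := by
  obtain ⟨p, hp, e, he⟩ := Nat.exists_prime_and_dvd hd.ne'
  have he1 : 1 < e := by
    rcases Nat.lt_or_ge 1 e with h1 | h1
    · exact h1
    · exfalso
      have h2 : e ≠ 0 := by rintro rfl; omega
      have h3 : e = 1 := by omega
      rw [h3, mul_one] at he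
      rw [he] at hnp
      exact hnp hp
  rw [he]
  exact Nat.mul_le_mul (h p hp ⟨e, he⟩) ((h.dvd ⟨p, by rw [he]; ring⟩).le he1)

lemma bet_eq {d : ℕ} (hd : 0 < d) : bet d = (∏ p ∈ d.primeFactors, (-(p : ℝ))) / (6 * d ^ 2) := by
  unfold bet
  rw [sum_U_B hd]
  have : (d.totient : ℝ) ≠ 0 := by exact_mod_cast (Nat.totient_pos.2 hd).ne'
  field_simp

lemma bet_one : bet 1 = 1 / 6 := by
  rw [bet_eq one_pos]; simp

lemma bet_prime {p : ℕ} (hp : p.Prime) : bet p = -1 / (6 * p) := by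
  rw [bet_eq hp.pos, hp.primeFactors, Finset.prod_singleton]
  have : (p : ℝ) ≠ 0 := by exact_mod_cast hp.ne_zero
  field_simp

lemma abs_bet_le {d : ℕ} (hd : 0 < d) : |bet d| ≤ 1 / (6 * d) := by
  have hd' : (0 : ℝ) < d := by exact_mod_cast hd
  rw [bet_eq hd, abs_div, Finset.abs_prod]
  have h1 : ∏ p ∈ d.primeFactors, |(-(p : ℝ))| = ((∏ p ∈ d.primeFactors, p : ℕ) : ℝ) := by
    push_cast
    apply Finset.prod_congr rfl
    intro p _
    rw [abs_neg, abs_of_nonneg (Nat.cast_nonneg _)]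
  rw [h1, abs_of_pos (show (0 : ℝ) < 6 * d ^ 2 by positivity)]
  have h2 : ((∏ p ∈ d.primeFactors, p : ℕ) : ℝ) ≤ d := by
    exact_mod_cast Nat.le_of_dvd hd (Nat.prod_primeFactors_dvd d)
  rw [div_le_div_iff₀ (by positivity) (by positivity)]
  nlinarith

lemma abs_bet_rough {l d : ℕ} (hl : 0 < l) (h : Rough l d) (hd : 1 < d) (hnp : ¬ d.Prime) :
    |bet d| ≤ 1 / (6 * l ^ 2) := by
  refine (abs_bet_le (by omega)).trans ?_
  have hl' : (0 : ℝ) < l := by exact_mod_cast hl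
  have h1 : ((l * l : ℕ) : ℝ) ≤ d := by exact_mod_cast h.sq_le hd hnp
  push_cast at h1
  exact one_div_le_one_div_of_le (by positivity) (by nlinarith)

lemma U_one : U 1 = {0} := by decide

lemma tent_zero {K : ℕ} (hK : 2 ≤ K) : tent K 0 = 1 := by
  have hK' : (2 : ℝ) ≤ K := by exact_mod_cast hK
  rcases tent_cases hK le_rfl one_pos with ⟨-, e⟩ | ⟨h, -, -⟩ | ⟨h, -⟩
  · rw [e]; ring
  · have : (0 : ℝ) < 1 / K := by positivity
    linarith
  · have : (1 : ℝ) / K ≤ 1 / 2 := one_div_le_one_div_of_le (by norm_num) hK'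
    linarith

lemma tau_one {K : ℕ} (hK : 2 ≤ K) : tau K 1 = 1 := by
  unfold tau
  rw [U_one]
  simp [tent_zero hK]

lemma tau_eq {K : ℕ} (hK : 2 ≤ K) {d : ℕ} (hd : 0 < d) :
    tau K d = 1 / K + (∑ T ∈ d.primeFactors.powerset, (-1) ^ T.card * E K (d / ∏ p ∈ T, p)) /
      d.totient := by
  unfold tau
  rw [sum_U_tent hK hd]
  have : (d.totient : ℝ) ≠ 0 := by exact_mod_cast (Nat.totient_pos.2 hd).ne'
  have hK0 : (K : ℝ) ≠ 0 := by positivity
  field_simp

lemma tau_prime {K : ℕ} (hK : 2 ≤ K) {p : ℕ} (hp : p.Prime) :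
    tau K p ≤ 1 / K + (K / (4 * p) - (1 - 1 / K)) / (p - 1) := by
  have hp1 : (1 : ℝ) < p := by exact_mod_cast hp.one_lt
  rw [tau_eq hK hp.pos, hp.primeFactors, Nat.totient_prime hp]
  have h1 : ((p - 1 : ℕ) : ℝ) = p - 1 := by
    rw [Nat.cast_sub hp.one_lt.le]; norm_num
  have h2 : ({p} : Finset ℕ).powerset = {∅, {p}} := by
    ext T; simp [Finset.subset_singleton_iff]
  have hne : (∅ : Finset ℕ) ≠ {p} := (Finset.singleton_ne_empty p).symm
  rw [h1, h2, Finset.sum_pair hne]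
  have h3 : E K 1 = 1 - 1 / K := by
    rw [E_lt one_pos (by omega)]; norm_num
  simp only [Finset.card_empty, pow_zero, one_mul, Finset.prod_empty, Nat.div_one,
    Finset.card_singleton, pow_one, Finset.prod_singleton, Nat.div_self hp.pos, h3]
  have h4 := E_le K p
  have h5 : E K p + -1 * (1 - 1 / (K : ℝ)) ≤ K / (4 * p) - (1 - 1 / K) := by linarith
  have h6 := div_le_div_of_nonneg_right h5 (show (0 : ℝ) ≤ (p : ℝ) - 1 by linarith)
  linarith

lemma sum_E_le {K : ℕ} (hK : 0 < K) {d : ℕ} (hd : 1 < d) :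
    ∑ T ∈ d.primeFactors.powerset, (-1) ^ T.card * E K (d / ∏ p ∈ T, p) ≤
      2 ^ d.primeFactors.card / 2 := by
  have hne : d.primeFactors.Nonempty := Nat.nonempty_primeFactors.2 hd
  have h0 : ∑ T ∈ d.primeFactors.powerset, (-1 : ℝ) ^ T.card = 0 := by
    have := Finset.sum_powerset_neg_one_pow_card_of_nonempty hne
    have h1 : ((∑ T ∈ d.primeFactors.powerset, (-1 : ℤ) ^ T.card : ℤ) : ℝ) = ((0 : ℤ) : ℝ) := by
      rw [this]
    push_cast at h1
    exact h1
  have h1 : ∑ T ∈ d.primeFactors.powerset, (-1) ^ T.card * E K (d / ∏ p ∈ T, p) =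
      ∑ T ∈ d.primeFactors.powerset, (-1) ^ T.card * (E K (d / ∏ p ∈ T, p) - 1 / 2) := by
    have h2 : ∀ T ∈ d.primeFactors.powerset, (-1 : ℝ) ^ T.card * (E K (d / ∏ p ∈ T, p) - 1 / 2) =
        (-1) ^ T.card * E K (d / ∏ p ∈ T, p) - (-1) ^ T.card * (1 / 2) := fun T _ => by ring
    rw [Finset.sum_congr rfl h2, Finset.sum_sub_distrib, ← Finset.sum_mul, h0]
    ring
  rw [h1]
  calc ∑ T ∈ d.primeFactors.powerset, (-1 : ℝ) ^ T.card * (E K (d / ∏ p ∈ T, p) - 1 / 2)
      ≤ ∑ T ∈ d.primeFactors.powerset, (1 / 2 : ℝ) := by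
        apply Finset.sum_le_sum
        intro T hT
        have hq : 0 < d / ∏ p ∈ T, p := by
          obtain ⟨k, hk⟩ := prod_T_dvd hT
          have hP : 0 < ∏ p ∈ T, p := Nat.pos_of_ne_zero (by
            intro h0; rw [h0, zero_mul] at hk; omega)
          exact Nat.div_pos (Nat.le_of_dvd (by omega) ⟨k, hk⟩) hP
        have e1 := E_nonneg K (d / ∏ p ∈ T, p)
        have e2 := E_le_one hq hK
        rcases neg_one_pow_eq_or ℝ T.card with h | h <;> rw [h] <;> linarith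
    _ = 2 ^ d.primeFactors.card / 2 := by
        rw [Finset.sum_const, Finset.card_powerset, nsmul_eq_mul]; push_cast; ring

lemma totient_real {n : ℕ} : (n.totient : ℝ) = n * ∏ p ∈ n.primeFactors, (1 - (p : ℝ)⁻¹) := by
  have := Nat.totient_eq_mul_prod_factors n
  have h6 : ((n.totient : ℚ) : ℝ) = ((n * ∏ p ∈ n.primeFactors, (1 - (p : ℚ)⁻¹) : ℚ) : ℝ) := by
    rw [this]
  push_cast at h6
  exact h6

lemma totient_real' {n : ℕ} : (n.totient : ℝ) * ∏ p ∈ n.primeFactors, (p : ℝ) =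
    n * ∏ p ∈ n.primeFactors, ((p : ℝ) - 1) := by
  rw [totient_real, mul_assoc, ← Finset.prod_mul_distrib]
  congr 1
  apply Finset.prod_congr rfl
  intro p hp
  have : (p : ℝ) ≠ 0 := by exact_mod_cast (Nat.prime_of_mem_primeFactors hp).ne_zero
  field_simp

/-- `2^(ω(d)) / φ(d)` is small -/
lemma two_pow_le {l d : ℕ} (hl : 3 ≤ l) (h : Rough l d) (hd : 1 < d) (hnp : ¬ d.Prime) :
    (2 : ℝ) ^ d.primeFactors.card * ((l : ℝ) - 1) ^ 2 ≤ 4 * d.totient := by
  have hl' : (3 : ℝ) ≤ l := by exact_mod_cast hl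
  have hd' : (0 : ℝ) < d := by exact_mod_cast (by omega : 0 < d)
  have hP : (0 : ℝ) < ∏ p ∈ d.primeFactors, (p : ℝ) := by
    apply Finset.prod_pos
    intro p hp
    exact_mod_cast (Nat.prime_of_mem_primeFactors hp).pos
  have hPd : (∏ p ∈ d.primeFactors, (p : ℝ)) ≤ d := by
    have : ((∏ p ∈ d.primeFactors, p : ℕ) : ℝ) ≤ d := by
      exact_mod_cast Nat.le_of_dvd (by omega) (Nat.prod_primeFactors_dvd d)
    push_cast at this; exact this
  have hne : d.primeFactors.Nonempty := Nat.nonempty_primeFactors.2 hd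
  have hge : ∀ p ∈ d.primeFactors, (l : ℝ) - 1 ≤ (p : ℝ) - 1 := by
    intro p hp
    have : (l : ℝ) ≤ p := by
      exact_mod_cast h p (Nat.prime_of_mem_primeFactors hp) (Nat.dvd_of_mem_primeFactors hp)
    linarith
  have htot := totient_real' (n := d)
  rcases Nat.lt_or_ge 1 d.primeFactors.card with h2 | h2
  · -- at least two primes
    have h3 : ((l : ℝ) - 1) ^ d.primeFactors.card ≤ ∏ p ∈ d.primeFactors, ((p : ℝ) - 1) := by
      rw [← Finset.prod_const]
      exact Finset.prod_le_prod (fun p _ => by linarith) hge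
    have h4 : ∏ p ∈ d.primeFactors, ((p : ℝ) - 1) ≤ d.totient := by
      have h5 : (0 : ℝ) ≤ ∏ p ∈ d.primeFactors, ((p : ℝ) - 1) :=
        Finset.prod_nonneg (fun p hp => by linarith [hge p hp])
      have h6 : (∏ p ∈ d.primeFactors, (p : ℝ)) * ∏ p ∈ d.primeFactors, ((p : ℝ) - 1) ≤
          (∏ p ∈ d.primeFactors, (p : ℝ)) * d.totient := by
        calc (∏ p ∈ d.primeFactors, (p : ℝ)) * ∏ p ∈ d.primeFactors, ((p : ℝ) - 1)
            ≤ d * ∏ p ∈ d.primeFactors, ((p : ℝ) - 1) := mul_le_mul_of_nonneg_right hPd h5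
          _ = (∏ p ∈ d.primeFactors, (p : ℝ)) * d.totient := by rw [← htot]; ring
      exact le_of_mul_le_mul_left h6 hP
    have h7 : (2 : ℝ) ^ d.primeFactors.card * ((l : ℝ) - 1) ^ 2 ≤
        4 * ((l : ℝ) - 1) ^ d.primeFactors.card := by
      obtain ⟨m, hm⟩ : ∃ m, d.primeFactors.card = m + 2 := ⟨d.primeFactors.card - 2, by omega⟩
      rw [hm, pow_add, pow_add]
      have h8 : (2 : ℝ) ^ m ≤ ((l : ℝ) - 1) ^ m := pow_le_pow_left₀ (by norm_num) (by linarith) m
      have h9 : (0 : ℝ) ≤ ((l : ℝ) - 1) ^ 2 := by positivity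
      nlinarith [mul_le_mul_of_nonneg_right h8 h9]
    linarith
  · -- one prime
    have h3 : d.primeFactors.card = 1 := le_antisymm h2 (Finset.card_pos.2 hne)
    obtain ⟨p, hp⟩ := Finset.card_eq_one.1 h3
    have hpm : p ∈ d.primeFactors := by rw [hp]; exact Finset.mem_singleton_self p
    have hpp := Nat.prime_of_mem_primeFactors hpm
    obtain ⟨e, he⟩ := Nat.dvd_of_mem_primeFactors hpm
    have he1 : 1 < e := by
      rcases Nat.lt_or_ge 1 e with h1 | h1
      · exact h1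
      · exfalso
        have h2 : e ≠ 0 := by rintro rfl; omega
        have h3 : e = 1 := by omega
        rw [h3, mul_one] at he
        rw [he] at hnp
        exact hnp hpp
    have hel : (l : ℝ) ≤ e := by exact_mod_cast (h.dvd ⟨p, by rw [he]; ring⟩).le he1
    rw [hp, Finset.prod_singleton, Finset.prod_singleton] at htot
    have hpl := hge p hpm
    have hp0 : (0 : ℝ) < p := by exact_mod_cast hpp.pos
    have hdr : (d : ℝ) = p * e := by rw [he]; push_cast; ring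
    rw [hdr] at htot
    have h5 : (d.totient : ℝ) = e * (p - 1) := by
      have : (p : ℝ) * d.totient = p * (e * (p - 1)) := by linarith
      exact mul_left_cancel₀ hp0.ne' this
    rw [h5, h3]
    nlinarith [mul_le_mul hel hpl (by linarith) (by linarith)]

lemma tau_rough {K l d : ℕ} (hK : 2 ≤ K) (hl : 3 ≤ l) (h : Rough l d) (hd : 1 < d)
    (hnp : ¬ d.Prime) : tau K d ≤ 1 / K + 2 / ((l : ℝ) - 1) ^ 2 := by
  have hl' : (3 : ℝ) ≤ l := by exact_mod_cast hl
  rw [tau_eq hK (by omega)]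
  have h1 := sum_E_le (K := K) (by omega) hd
  have h2 := two_pow_le hl h hd hnp
  have h3 : (0 : ℝ) < d.totient := by exact_mod_cast Nat.totient_pos.2 (by omega)
  have h4 : (0 : ℝ) < ((l : ℝ) - 1) ^ 2 := by
    have : (0 : ℝ) < (l : ℝ) - 1 := by linarith
    positivity
  have h5 : (∑ T ∈ d.primeFactors.powerset, (-1) ^ T.card * E K (d / ∏ p ∈ T, p)) / d.totient ≤
      2 / ((l : ℝ) - 1) ^ 2 := by
    rw [div_le_div_iff₀ h3 h4]
    calc (∑ T ∈ d.primeFactors.powerset, (-1) ^ T.card * E K (d / ∏ p ∈ T, p)) * ((l : ℝ) - 1) ^ 2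
        ≤ (2 ^ d.primeFactors.card / 2) * ((l : ℝ) - 1) ^ 2 :=
          mul_le_mul_of_nonneg_right h1 h4.le
      _ ≤ 2 * d.totient := by linarith
  linarith

/-- cost of a root with coefficient `-1`: prime or composite order -/
lemma cost_sigma {K l d : ℕ} (hK : 2 ≤ K) (hl : 3 ≤ l) (hKl : K ≤ l) (h : Rough l d) (hd : 1 < d) :
    bet d ≤ 1 / (6 * l ^ 2) ∧ tau K d ≤ 1 / K + 2 / ((l : ℝ) - 1) ^ 2 := by
  have hl' : (3 : ℝ) ≤ l := by exact_mod_cast hl
  have hK' : (2 : ℝ) ≤ K := by exact_mod_cast hK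
  have hKl' : (K : ℝ) ≤ l := by exact_mod_cast hKl
  have h4 : (0 : ℝ) < ((l : ℝ) - 1) ^ 2 := by
    have : (0 : ℝ) < (l : ℝ) - 1 := by linarith
    positivity
  by_cases hp : d.Prime
  · have hdl : (l : ℝ) ≤ d := by exact_mod_cast h.le hd
    constructor
    · rw [bet_prime hp]
      have h1 : -1 / (6 * (d : ℝ)) ≤ 0 := div_nonpos_of_nonpos_of_nonneg (by norm_num) (by positivity)
      have h2 : (0 : ℝ) ≤ 1 / (6 * l ^ 2) := by positivity
      linarith
    · have h1 := tau_prime hK hp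
      have h2 : (K : ℝ) / (4 * d) - (1 - 1 / K) ≤ 0 := by
        have e1 : (K : ℝ) / (4 * d) ≤ 1 / 4 := by
          rw [div_le_div_iff₀ (by linarith) (by norm_num)]; linarith
        have e2 : (1 : ℝ) / K ≤ 1 / 2 := one_div_le_one_div_of_le (by norm_num) hK'
        linarith
      have h3 : ((K : ℝ) / (4 * d) - (1 - 1 / K)) / (d - 1) ≤ 0 :=
        div_nonpos_of_nonpos_of_nonneg h2 (by linarith)
      have h5 : (0 : ℝ) ≤ 2 / ((l : ℝ) - 1) ^ 2 := by positivity
      linarith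
  · exact ⟨(le_abs_self _).trans (abs_bet_rough (by omega) h hd hp), tau_rough hK hl h hd hp⟩

end Pool.Agent.TH295.PC
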