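import Pool.Agent.TH295.PC.Point
import Pool.Agent.TH295.PC.Adm

set_option autoImplicit false

/-!
The averaging argument in general form.
-/

namespace Pool.Agent.TH295.PC

open Finset Pool.Agent.W280.PC

/-- `z` has distance at least `M` from all the multiples of `D` -/
def Far (D M z : ℤ) : Prop := ∀ n : ℤ, M ≤ |z - n * D|

lemma Far.le_neg {D M z : ℤ} (h : Far D M z) (hz : z ≤ 0) : z ≤ -M := by
  have := h 0
  rw [zero_mul, sub_zero, abs_of_nonpos hz] at this
  linarith

lemma Far.le_pos {D M z : ℤ} (h : Far D M z) (hz : 0 ≤ z) : M ≤ z := by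
  have := h 0
  rwa [zero_mul, sub_zero, abs_of_nonneg hz] at this

lemma Far.le_sub {D M z : ℤ} (h : Far D M z) (hz : z ≤ D) : z ≤ D - M := by
  have := h 1
  rw [one_mul, abs_of_nonpos (by linarith)] at this
  linarith

lemma Far.le_add {D M z : ℤ} (h : Far D M z) (hz : -D ≤ z) : -D + M ≤ z := by
  have := h (-1)
  rw [show z - -1 * D = z + D by ring, abs_of_nonneg (by linarith)] at this
  linarith

lemma Far.congr {D M z y : ℤ} (h : Far D M z) (hd : D ∣ z - y) : Far D M y := by
  intro n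
  obtain ⟨k, hk⟩ := hd
  have := h (n + k)
  rwa [show z - (n + k) * D = y - n * D by linear_combination hk] at this

lemma Far.neg {D M z : ℤ} (h : Far D M z) : Far D M (-z) := by
  intro n
  have := h (-n)
  rwa [show z - -n * D = -(-z - n * D) by ring, abs_neg] at this

lemma Far.abs0 {D M z : ℤ} (h : Far D M z) : M ≤ |z| := by
  have := h 0
  rwa [zero_mul, sub_zero] at this

/-- **Averaging.** A pointwise inequality for the units `c` modulo `D`, which improves with the
distance of the numbers `c zᵢ` from the multiples of `D`, gives an inequality between averages. -/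
theorem avg_gen {D : ℕ} (hD : 0 < D) {ι : Type*} [Fintype ι] (z : ι → ℤ) (w : ι → ℤ)
    (hw : ∑ i, w i = 0) {C : ℤ} (hC : 0 ≤ C) {K : ℕ} (hK : 2 ≤ K)
    (h : ∀ c : ℤ, IsCoprime c (D : ℤ) → ∀ M : ℤ, 0 ≤ M → (∀ i, Far D M (c * z i)) →
      ∑ i, w i * Q D (c * z i) ≤ -(C * M * D)) :
    (C : ℝ) / K ≤ ∑ i, ((C : ℝ) / K * tau K (D / Int.gcd (z i) D) -
      w i * bet (D / Int.gcd (z i) D)) := by
  have hDr : (0 : ℝ) < D := by exact_mod_cast hD
  have hKr : (0 : ℝ) < K := by exact_mod_cast (by omega : 0 < K)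
  have hCr : (0 : ℝ) ≤ C := by exact_mod_cast hC
  have hwr : ∑ i, (w i : ℝ) = 0 := by exact_mod_cast hw
  -- pointwise
  have hpt : ∀ c ∈ U D, ∑ i, (w i : ℝ) * B ((c : ℝ) * z i / D) ≤
      -(C / K * (1 - ∑ i, tent K ((c : ℝ) * z i / D))) := by
    intro c hc
    have hcop : IsCoprime (c : ℤ) (D : ℤ) := by
      rw [U, Finset.mem_filter] at hc
      exact Nat.isCoprime_iff_coprime.2 hc.2.symm
    set S := ∑ i, tent K ((c : ℝ) * z i / D) with hS
    set M : ℤ := max 0 ⌈(1 - S) / K * D⌉ with hM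
    have hfar : ∀ i, Far D M (c * z i) := by
      intro i n
      have h1 : tent K ((c : ℝ) * z i / D) ≤ S :=
        Finset.single_le_sum (f := fun i => tent K ((c : ℝ) * z i / D))
          (fun i _ => tent_nonneg hK _) (Finset.mem_univ i)
      have h2 := tent_dist hK ((c : ℝ) * z i / D) n
      rw [hM]
      apply max_le (abs_nonneg _)
      rw [Int.ceil_le]
      have h3 : (c : ℝ) * z i / D - n = (c * z i - n * D) / D := by field_simp
      rw [h3, abs_div, abs_of_pos hDr] at h2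
      have h4 : ((|(c : ℤ) * z i - n * D| : ℤ) : ℝ) = |(c : ℝ) * z i - n * D| := by
        rw [Int.cast_abs]; push_cast; rfl
      rw [h4]
      have h5 : (1 - S) / K ≤ |(c : ℝ) * z i - n * D| / D := by
        refine le_trans ?_ h2
        exact div_le_div_of_nonneg_right (by linarith) hKr.le
      calc (1 - S) / K * D ≤ |(c : ℝ) * z i - n * D| / D * D := mul_le_mul_of_nonneg_right h5 hDr.le
        _ = |(c : ℝ) * z i - n * D| := by field_simp
    have h1 := h c hcop M (le_max_left _ _) hfar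
    have h2 : ∑ i, (w i : ℝ) * (Q D (c * z i) : ℝ) ≤ -(C * M * D) := by exact_mod_cast h1
    have h3 : ∑ i, (w i : ℝ) * (Q D (c * z i) : ℝ) = D ^ 2 * ∑ i, (w i : ℝ) * B ((c : ℝ) * z i / D) := by
      have : ∀ i, (w i : ℝ) * (Q D (c * z i) : ℝ) =
          D ^ 2 * ((w i : ℝ) * B ((c : ℝ) * z i / D)) - D ^ 2 / 6 * w i := by
        intro i
        rw [Q_B hD]
        push_cast
        ring
      simp only [this, Finset.sum_sub_distrib, ← Finset.mul_sum, hwr]
      ring
    rw [h3] at h2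
    have h4 : (1 - S) / K * D ≤ M := (Int.le_ceil _).trans (by exact_mod_cast le_max_right _ _)
    have h5 : (D : ℝ) ^ 2 * ∑ i, (w i : ℝ) * B ((c : ℝ) * z i / D) ≤
        D ^ 2 * (-(C / K * (1 - S))) := by
      refine h2.trans ?_
      have : C * ((1 - S) / K * D) * D ≤ C * M * D :=
        mul_le_mul_of_nonneg_right (mul_le_mul_of_nonneg_left h4 hCr) hDr.le
      calc -(C * M * D : ℝ) ≤ -(C * ((1 - S) / K * D) * D) := by linarith
        _ = _ := by ring
    exact le_of_mul_le_mul_left h5 (by positivity)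
  have hsum := Finset.sum_le_sum hpt
  rw [Finset.sum_comm] at hsum
  simp only [← Finset.mul_sum, Finset.sum_neg_distrib, Finset.sum_sub_distrib] at hsum
  rw [Finset.sum_comm (s := U D) (t := univ)] at hsum
  simp only [orbit_B hD, orbit_tent hD, Finset.sum_const, card_U, nsmul_eq_mul, mul_one] at hsum
  have hphi : (0 : ℝ) < D.totient := by exact_mod_cast Nat.totient_pos.2 hD
  rw [Finset.sum_sub_distrib, ← Finset.mul_sum]
  have e1 : ∑ i, (w i : ℝ) * (D.totient * bet (D / Int.gcd (z i) D)) =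
      D.totient * ∑ i, (w i : ℝ) * bet (D / Int.gcd (z i) D) := by
    rw [Finset.mul_sum]
    exact Finset.sum_congr rfl fun i _ => by ring
  rw [e1, ← Finset.mul_sum] at hsum
  have h6 : (D.totient : ℝ) * (C / K) ≤ D.totient *
      (C / K * ∑ i, tau K (D / Int.gcd (z i) D) - ∑ i, (w i : ℝ) * bet (D / Int.gcd (z i) D)) := by
    linarith
  exact le_of_mul_le_mul_left h6 hphi

/-- contradiction from bounds for the costs -/
theorem avg_false {D : ℕ} (hD : 0 < D) {ι : Type*} [Fintype ι] (z : ι → ℤ) (w : ι → ℤ)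
    (hw : ∑ i, w i = 0) {C : ℤ} (hC : 0 ≤ C) {K : ℕ} (hK : 2 ≤ K)
    (h : ∀ c : ℤ, IsCoprime c (D : ℤ) → ∀ M : ℤ, 0 ≤ M → (∀ i, Far D M (c * z i)) →
      ∑ i, w i * Q D (c * z i) ≤ -(C * M * D))
    (x : ι → ℝ) (hx : ∀ i, (C : ℝ) / K * tau K (D / Int.gcd (z i) D) -
      w i * bet (D / Int.gcd (z i) D) ≤ x i) (hlt : ∑ i, x i < (C : ℝ) / K) : False := by
  have h1 := avg_gen hD z w hw hC hK h
  have h2 := Finset.sum_le_sum (fun i (_ : i ∈ univ) => hx i)
  linarith

end Pool.Agent.TH295.PC
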