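import Pool.Agent.TH295.PC.Avg

set_option autoImplicit false

/-!
Sums over the orbit of a residue under the units.
-/

namespace Pool.Agent.TH295.PC

open Finset

lemma sum_hom {G H : Type*} [Group G] [Group H] [Fintype G] [Fintype H] [DecidableEq H]
    (π : G →* H) (hπ : Function.Surjective π) (F : H → ℝ) :
    (Fintype.card H : ℝ) * ∑ g, F (π g) = Fintype.card G * ∑ h, F h := by
  classical
  have hc : ∀ h : H, (univ.filter (fun g => π g = h)).card = (univ.filter (fun g => π g = 1)).card :=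
    fun h => MonoidHom.card_fiber_eq_of_mem_range π (hπ h) (hπ 1)
  set k := (univ.filter (fun g => π g = 1)).card with hk
  have h1 : ∑ g, F (π g) = ∑ h, (k : ℝ) * F h := by
    rw [← Finset.sum_fiberwise (s := univ) (g := π)]
    apply Finset.sum_congr rfl
    intro h _
    rw [Finset.sum_congr rfl (g := fun _ => F h) (fun g hg => by rw [(Finset.mem_filter.1 hg).2]),
      Finset.sum_const, nsmul_eq_mul, hc]
  have h2 : Fintype.card G = Fintype.card H * k := by
    have := Finset.card_eq_sum_card_fiberwise (f := π) (s := (univ : Finset G)) (t := univ)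
      (fun _ _ => Finset.mem_coe.2 (mem_univ _))
    rw [Finset.card_univ] at this
    rw [this, Finset.sum_congr rfl (fun h _ => hc h), Finset.sum_const, Finset.card_univ, smul_eq_mul]
  rw [h1, ← Finset.mul_sum, h2]
  push_cast
  ring

lemma sum_U_eq {D : ℕ} [NeZero D] (F : ℕ → ℝ) :
    ∑ c ∈ U D, F c = ∑ u : (ZMod D)ˣ, F ((u : ZMod D).val) := by
  symm
  refine Finset.sum_bij (fun (u : (ZMod D)ˣ) _ => (u : ZMod D).val) ?_ ?_ ?_ ?_
  · intro u _
    rw [U, Finset.mem_filter, Finset.mem_range]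
    exact ⟨ZMod.val_lt _, (ZMod.val_coe_unit_coprime u).symm⟩
  · intro u _ v _ h
    exact Units.ext (ZMod.val_injective D h)
  · intro c hc
    rw [U, Finset.mem_filter, Finset.mem_range] at hc
    refine ⟨ZMod.unitOfCoprime c hc.2.symm, mem_univ _, ?_⟩
    rw [ZMod.coe_unitOfCoprime, ZMod.val_natCast, Nat.mod_eq_of_lt hc.1]
  · intro u _; rfl

/-- a function of period one takes the same value at fractions which differ by an integer -/
lemma per_eq {f : ℝ → ℝ} (hf : ∀ (x : ℝ) (n : ℤ), f (x + n) = f x) {d : ℕ} (hd : 0 < d) {a b : ℤ}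
    (h : (d : ℤ) ∣ a - b) : f ((a : ℝ) / d) = f ((b : ℝ) / d) := by
  obtain ⟨k, hk⟩ := h
  have hd' : (d : ℝ) ≠ 0 := by exact_mod_cast hd.ne'
  have h1 : (a : ℝ) = b + d * k := by
    have : a = b + d * k := by linarith
    rw [this]; push_cast; ring
  rw [h1, ← hf ((b : ℝ) / d) k]
  congr 1
  field_simp

/-- the sum over the orbit of `z` -/
theorem orbit {D : ℕ} (hD : 0 < D) (z : ℤ) {f : ℝ → ℝ} (hf : ∀ (x : ℝ) (n : ℤ), f (x + n) = f x) :
    ((D / Int.gcd z D).totient : ℝ) * ∑ c ∈ U D, f ((c : ℝ) * z / D) =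
      D.totient * ∑ b ∈ U (D / Int.gcd z D), f ((b : ℝ) / ((D / Int.gcd z D : ℕ) : ℝ)) := by
  classical
  set g := Int.gcd z D with hg
  have hg0 : 0 < g := Int.gcd_pos_of_ne_zero_right _ (by exact_mod_cast hD.ne')
  have hgD : g ∣ D := by
    have : (g : ℤ) ∣ (D : ℤ) := Int.gcd_dvd_right _ _
    exact_mod_cast this
  have hgz : (g : ℤ) ∣ z := Int.gcd_dvd_left _ _
  set d := D / g with hd
  have hDd : D = g * d := (Nat.mul_div_cancel' hgD).symm
  have hd0 : 0 < d := Nat.pos_of_ne_zero (by intro h; rw [h, mul_zero] at hDd; omega)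
  obtain ⟨z', hz'⟩ := hgz
  have hcop : Int.gcd z' d = 1 := by
    have h1 : Int.gcd z D = g * Int.gcd z' d := by
      rw [hz']
      conv_lhs => rw [show ((D : ℕ) : ℤ) = (g : ℤ) * (d : ℤ) by rw [hDd]; push_cast; ring]
      rw [Int.gcd_mul_left]
      simp
    have h2 : g * 1 = g * Int.gcd z' d := by rw [← h1, mul_one, ← hg]
    exact (Nat.eq_of_mul_eq_mul_left hg0 h2).symm
  haveI : NeZero D := ⟨hD.ne'⟩
  haveI : NeZero d := ⟨hd0.ne'⟩
  have hdD : d ∣ D := ⟨g, by rw [hDd]; ring⟩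
  -- the unit of `z'`
  have hunit : IsUnit (z' : ZMod d) := by
    have h1 : IsCoprime z' (d : ℤ) := Int.isCoprime_iff_gcd_eq_one.2 hcop
    obtain ⟨s, t, hst⟩ := h1
    have h2 : (s : ZMod d) * (z' : ZMod d) = 1 := by
      have := congrArg (fun x : ℤ => (x : ZMod d)) hst
      push_cast at this
      simpa using this
    exact IsUnit.of_mul_eq_one _ (by rw [mul_comm]; exact h2)
  obtain ⟨ζ, hζ⟩ := hunit
  set H : (ZMod d)ˣ → ℝ := fun v => f ((((v : ZMod d).val : ℕ) : ℝ) / d) with hH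
  have hval : ∀ u : (ZMod D)ˣ, f ((((u : ZMod D).val : ℕ) : ℝ) * z / D) = H (ZMod.unitsMap hdD u * ζ) := by
    intro u
    have hD' : (D : ℝ) ≠ 0 := by exact_mod_cast hD.ne'
    have hd' : (d : ℝ) ≠ 0 := by exact_mod_cast hd0.ne'
    have hg' : (g : ℝ) ≠ 0 := by exact_mod_cast hg0.ne'
    have h1 : (((u : ZMod D).val : ℕ) : ℝ) * z / D = (((((u : ZMod D).val : ℕ) : ℤ) * z' : ℤ) : ℝ) / d := by
      have e1 : (z : ℝ) = g * z' := by rw [hz']; push_cast; ring
      have e2 : (D : ℝ) = g * d := by rw [hDd]; push_cast; ring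
      rw [e1, e2]
      push_cast
      field_simp
    rw [h1]
    have h2 : ∀ v : (ZMod d)ˣ, H v = f ((((((v : ZMod d).val : ℕ) : ℤ)) : ℝ) / d) := by
      intro v; simp only [hH]; push_cast; rfl
    rw [h2]
    apply per_eq hf hd0
    rw [← ZMod.intCast_eq_intCast_iff_dvd_sub]
    push_cast
    rw [ZMod.natCast_zmod_val, ZMod.unitsMap_val, hζ, ZMod.cast_eq_val]
  rw [sum_U_eq (D := D) (fun c => f ((c : ℝ) * z / D)), sum_U_eq (D := d) (fun b => f ((b : ℝ) / (d : ℝ)))]
  simp only [hval]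
  have h3 := sum_hom (ZMod.unitsMap hdD) (ZMod.unitsMap_surjective hdD) (fun w => H (w * ζ))
  rw [ZMod.card_units_eq_totient, ZMod.card_units_eq_totient] at h3
  rw [h3]
  congr 1
  exact Equiv.sum_comp (Equiv.mulRight ζ) H

lemma div_gcd_eq_one {D : ℕ} (hD : 0 < D) {z : ℤ} (h : D / Int.gcd z D = 1) : (D : ℤ) ∣ z := by
  have hgD : Int.gcd z D ∣ D := by
    have : ((Int.gcd z D : ℕ) : ℤ) ∣ (D : ℤ) := Int.gcd_dvd_right _ _
    exact_mod_cast this
  have h1 : D = Int.gcd z D := by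
    have := Nat.div_mul_cancel hgD
    rw [h, one_mul] at this
    exact this.symm
  have h2 : ((Int.gcd z D : ℕ) : ℤ) ∣ z := Int.gcd_dvd_left _ _
  rw [← h1] at h2
  exact h2

lemma div_gcd_dvd {D : ℕ} (hD : 0 < D) (z : ℤ) : D / Int.gcd z D ∣ D ∧ 0 < D / Int.gcd z D := by
  have hgD : Int.gcd z D ∣ D := by
    have : ((Int.gcd z D : ℕ) : ℤ) ∣ (D : ℤ) := Int.gcd_dvd_right _ _
    exact_mod_cast this
  have hg0 : 0 < Int.gcd z D := Int.gcd_pos_of_ne_zero_right _ (by exact_mod_cast hD.ne')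
  exact ⟨Nat.div_dvd_of_dvd hgD, Nat.div_pos (Nat.le_of_dvd hD hgD) hg0⟩

/-- the average of the Bernoulli function over the residues prime to `d` -/
noncomputable def bet (d : ℕ) : ℝ := (∑ b ∈ U d, B ((b : ℝ) / d)) / d.totient

/-- the average of the tent function -/
noncomputable def tau (K d : ℕ) : ℝ := (∑ b ∈ U d, tent K ((b : ℝ) / d)) / d.totient

lemma orbit_B {D : ℕ} (hD : 0 < D) (z : ℤ) :
    ∑ c ∈ U D, B ((c : ℝ) * z / D) = D.totient * bet (D / Int.gcd z D) := by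
  have h := orbit hD z (f := B) B_add_int
  have h0 : ((D / Int.gcd z D).totient : ℝ) ≠ 0 := by
    exact_mod_cast (Nat.totient_pos.2 (div_gcd_dvd hD z).2).ne'
  unfold bet
  field_simp
  linarith

lemma orbit_tent {D : ℕ} (hD : 0 < D) (K : ℕ) (z : ℤ) :
    ∑ c ∈ U D, tent K ((c : ℝ) * z / D) = D.totient * tau K (D / Int.gcd z D) := by
  have h := orbit hD z (f := tent K) (tent_add_int K)
  have h0 : ((D / Int.gcd z D).totient : ℝ) ≠ 0 := by
    exact_mod_cast (Nat.totient_pos.2 (div_gcd_dvd hD z).2).ne'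
  unfold tau
  field_simp
  linarith

end Pool.Agent.TH295.PC
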