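import Pool.Agent.TH295.PC.Bounds
import Pool.Agent.W280.PC.Average

set_option autoImplicit false

/-!
The quantitative pointwise inequality in rank two.
-/

namespace Pool.Agent.TH295.PC

open Finset Pool.Agent.W280.PC

lemma Q_B {D : ℕ} (hD : 0 < D) (z : ℤ) : (Q D z : ℝ) = D ^ 2 * (B ((z : ℝ) / D) - 1 / 6) := by
  have hD' : (0 : ℝ) < D := by exact_mod_cast hD
  have hDz : (0 : ℤ) < D := by exact_mod_cast hD
  have h0 := Int.emod_nonneg z hDz.ne'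
  have h1 := Int.emod_lt_of_pos z hDz
  have h2 : B ((z : ℝ) / D) = B (((z % D : ℤ) : ℝ) / D) :=
    per_eq B_add_int hD Int.dvd_self_sub_emod
  have h0' : (0 : ℝ) ≤ ((z % D : ℤ) : ℝ) := by exact_mod_cast h0
  have h1' : ((z % D : ℤ) : ℝ) < D := by exact_mod_cast h1
  rw [h2, B_of (by positivity) (by rwa [div_lt_one hD'])]
  unfold Q
  push_cast
  field_simp
  ring

/-- the distance of `y` from `0`, in terms of the tent function of `z ≡ y` -/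
lemma tent_abs {D K : ℕ} (hD : 0 < D) (hK : 2 ≤ K) {z y : ℤ} (h : (D : ℤ) ∣ z - y) :
    (1 - tent K ((z : ℝ) / D)) / K * D ≤ |(y : ℝ)| := by
  have hD' : (0 : ℝ) < D := by exact_mod_cast hD
  obtain ⟨k, hk⟩ := h
  have h1 := tent_dist hK ((z : ℝ) / D) k
  have h2 : (z : ℝ) / D - k = y / D := by
    have : (z : ℝ) = y + D * k := by
      have : z = y + D * k := by linarith
      rw [this]; push_cast; ring
    rw [this]; field_simp; ring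
  rw [h2, abs_div, abs_of_pos hD'] at h1
  calc (1 - tent K ((z : ℝ) / D)) / K * D ≤ |(y : ℝ)| / D * D := mul_le_mul_of_nonneg_right h1 hD'.le
    _ = |(y : ℝ)| := by field_simp

lemma abs_auxM {x1 x2 w1 w2 w3 M : ℤ} (m1 : M ≤ |w1|) (m2 : M ≤ |w2|) (m3 : M ≤ |w3|)
    (m4 : M ≤ |x1|) (m5 : M ≤ |x2|) (m6 : M ≤ |x1 - x2|) (m7 : M ≤ |x1 - w1|) (m8 : M ≤ |x1 - w2|)
    (m9 : M ≤ |x1 - w3|) (m10 : M ≤ |x2 - w1|) (m11 : M ≤ |x2 - w2|) (m12 : M ≤ |x2 - w3|)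
    (b1 : 0 ≤ w1) (b2 : 0 ≤ w2) (b3 : 0 ≤ w3) (b4 : 0 ≤ x1)
    (hm : w1 + w2 + w3 = x1 + x2) (hx : x1 ≤ x2) (hw1 : w1 ≤ x2) (hw2 : w2 ≤ x2) (hw3 : w3 ≤ x2) :
    |x1 - w1| + |x1 - w2| + |x1 - w3| + |x2 - w1| + |x2 - w2| + |x2 - w3| - (x1 + x2)
      - 2 * |x1 - x2| ≤ -2 * M := by
  rw [abs_of_nonneg b1] at m1
  rw [abs_of_nonneg b2] at m2
  rw [abs_of_nonneg b3] at m3
  rw [abs_of_nonneg b4] at m4
  rw [abs_of_nonneg (show 0 ≤ x2 by omega)] at m5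
  rw [abs_of_nonneg (show 0 ≤ x2 - w1 by omega)] at m10 ⊢
  rw [abs_of_nonneg (show 0 ≤ x2 - w2 by omega)] at m11 ⊢
  rw [abs_of_nonneg (show 0 ≤ x2 - w3 by omega)] at m12 ⊢
  rw [abs_of_nonpos (show x1 - x2 ≤ 0 by omega)] at m6 ⊢
  rcases abs_cases (x1 - w1) with ⟨h1, g1⟩ | ⟨h1, g1⟩ <;>
  rcases abs_cases (x1 - w2) with ⟨h2, g2⟩ | ⟨h2, g2⟩ <;>
  rcases abs_cases (x1 - w3) with ⟨h3, g3⟩ | ⟨h3, g3⟩ <;>
  rw [h1, h2, h3] <;> omega

/-- the sum of the tent functions of the twelve forms -/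
noncomputable def TS (K D : ℕ) (a b r1 r2 r3 : ℤ) : ℝ :=
  tent K ((r1 : ℝ) / D) + tent K ((r2 : ℝ) / D) + tent K ((r3 : ℝ) / D) +
    tent K (((a - b : ℤ) : ℝ) / D) + tent K ((a : ℝ) / D) + tent K (((a + r1 : ℤ) : ℝ) / D) +
    tent K (((a + r2 : ℤ) : ℝ) / D) + tent K (((a + r3 : ℤ) : ℝ) / D) +
    tent K (((a + (r1 + r2) : ℤ) : ℝ) / D) + tent K (((a + (r1 + r3) : ℤ) : ℝ) / D) +
    tent K (((a + (r2 + r3) : ℤ) : ℝ) / D) + tent K (((a + (r1 + r2 + r3) : ℤ) : ℝ) / D)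

lemma phi_le {D K : ℕ} (hD : 0 < D) (hK : 2 ≤ K) {a b r1 r2 r3 : ℤ}
    (hsum : (D : ℤ) ∣ a + b + r1 + r2 + r3)
    (hm : (-r1) % D + (-r2) % D + (-r3) % D = a % D + b % D)
    (hw1 : (-r1) % D ≤ max (a % D) (b % D)) (hw2 : (-r2) % D ≤ max (a % D) (b % D))
    (hw3 : (-r3) % D ≤ max (a % D) (b % D)) :
    (Phi D a b r1 r2 r3 : ℝ) ≤ -(2 * D ^ 2 * (1 - TS K D a b r1 r2 r3) / K) := by
  have hD' : (0 : ℤ) < D := by exact_mod_cast hD
  have hDr : (0 : ℝ) < D := by exact_mod_cast hD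
  have hKr : (0 : ℝ) < K := by exact_mod_cast (by omega : 0 < K)
  -- the common lower bound
  set S := TS K D a b r1 r2 r3 with hS
  set M : ℤ := ⌈(1 - S) / K * D⌉ with hM
  have t1 := tent_nonneg hK ((r1 : ℝ) / D)
  have t2 := tent_nonneg hK ((r2 : ℝ) / D)
  have t3 := tent_nonneg hK ((r3 : ℝ) / D)
  have t4 := tent_nonneg hK (((a - b : ℤ) : ℝ) / D)
  have t5 := tent_nonneg hK ((a : ℝ) / D)
  have t6 := tent_nonneg hK (((a + r1 : ℤ) : ℝ) / D)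
  have t7 := tent_nonneg hK (((a + r2 : ℤ) : ℝ) / D)
  have t8 := tent_nonneg hK (((a + r3 : ℤ) : ℝ) / D)
  have t9 := tent_nonneg hK (((a + (r1 + r2) : ℤ) : ℝ) / D)
  have t10 := tent_nonneg hK (((a + (r1 + r3) : ℤ) : ℝ) / D)
  have t11 := tent_nonneg hK (((a + (r2 + r3) : ℤ) : ℝ) / D)
  have t12 := tent_nonneg hK (((a + (r1 + r2 + r3) : ℤ) : ℝ) / D)
  have key : ∀ z y : ℤ, (D : ℤ) ∣ z - y → tent K ((z : ℝ) / D) ≤ S → M ≤ |y| := by
    intro z y h hle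
    rw [hM, Int.ceil_le]
    have h1 := tent_abs hD hK h
    have h2 : (1 - S) / K * D ≤ (1 - tent K ((z : ℝ) / D)) / K * D := by
      have : (1 - S) / K ≤ (1 - tent K ((z : ℝ) / D)) / K :=
        div_le_div_of_nonneg_right (by linarith) hKr.le
      exact mul_le_mul_of_nonneg_right this hDr.le
    have h3 : ((|y| : ℤ) : ℝ) = |(y : ℝ)| := Int.cast_abs
    rw [h3]; linarith
  have hf := Phi_formula hD hsum (w1 := (-r1) % D) (w2 := (-r2) % D) (w3 := (-r3) % D)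
    (x1 := a % D) (x2 := b % D) rfl rfl rfl rfl rfl hm
  have b1 : 0 ≤ (-r1) % (D : ℤ) := Int.emod_nonneg _ hD'.ne'
  have b2 : 0 ≤ (-r2) % (D : ℤ) := Int.emod_nonneg _ hD'.ne'
  have b3 : 0 ≤ (-r3) % (D : ℤ) := Int.emod_nonneg _ hD'.ne'
  have b4 : 0 ≤ a % (D : ℤ) := Int.emod_nonneg _ hD'.ne'
  have b5 : 0 ≤ b % (D : ℤ) := Int.emod_nonneg _ hD'.ne'
  have c1 : (D : ℤ) ∣ -r1 - (-r1) % D := Int.dvd_self_sub_emod
  have c2 : (D : ℤ) ∣ -r2 - (-r2) % D := Int.dvd_self_sub_emod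
  have c3 : (D : ℤ) ∣ -r3 - (-r3) % D := Int.dvd_self_sub_emod
  have c4 : (D : ℤ) ∣ a - a % D := Int.dvd_self_sub_emod
  have c5 : (D : ℤ) ∣ b - b % D := Int.dvd_self_sub_emod
  rw [hf]
  generalize (-r1) % (D : ℤ) = w1 at *
  generalize (-r2) % (D : ℤ) = w2 at *
  generalize (-r3) % (D : ℤ) = w3 at *
  generalize a % (D : ℤ) = x1 at *
  generalize b % (D : ℤ) = x2 at *
  obtain ⟨k1, e1⟩ := c1
  obtain ⟨k2, e2⟩ := c2
  obtain ⟨k3, e3⟩ := c3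
  obtain ⟨k4, e4⟩ := c4
  obtain ⟨k5, e5⟩ := c5
  have hSdef : S = tent K ((r1 : ℝ) / D) + tent K ((r2 : ℝ) / D) + tent K ((r3 : ℝ) / D) +
    tent K (((a - b : ℤ) : ℝ) / D) + tent K ((a : ℝ) / D) + tent K (((a + r1 : ℤ) : ℝ) / D) +
    tent K (((a + r2 : ℤ) : ℝ) / D) + tent K (((a + r3 : ℤ) : ℝ) / D) +
    tent K (((a + (r1 + r2) : ℤ) : ℝ) / D) + tent K (((a + (r1 + r3) : ℤ) : ℝ) / D) +
    tent K (((a + (r2 + r3) : ℤ) : ℝ) / D) + tent K (((a + (r1 + r2 + r3) : ℤ) : ℝ) / D) := rfl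
  have n1 : M ≤ |w1| := by
    have := key r1 (-w1) ⟨-k1, by linear_combination -e1⟩ (by rw [hSdef]; linarith)
    rwa [abs_neg] at this
  have n2 : M ≤ |w2| := by
    have := key r2 (-w2) ⟨-k2, by linear_combination -e2⟩ (by rw [hSdef]; linarith)
    rwa [abs_neg] at this
  have n3 : M ≤ |w3| := by
    have := key r3 (-w3) ⟨-k3, by linear_combination -e3⟩ (by rw [hSdef]; linarith)
    rwa [abs_neg] at this
  have n4 : M ≤ |x1| := key a x1 ⟨k4, by linear_combination e4⟩ (by rw [hSdef]; linarith)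
  have n5 : M ≤ |x2| := by
    have := key (a + (r1 + r2 + r3)) (-x2) ⟨k4 - k1 - k2 - k3, by
      linear_combination e4 - e1 - e2 - e3 - hm⟩ (by rw [hSdef]; linarith)
    rwa [abs_neg] at this
  have n6 : M ≤ |x1 - x2| := key (a - b) (x1 - x2) ⟨k4 - k5, by linear_combination e4 - e5⟩
    (by rw [hSdef]; linarith)
  have n7 : M ≤ |x1 - w1| := key (a + r1) (x1 - w1) ⟨k4 - k1, by linear_combination e4 - e1⟩
    (by rw [hSdef]; linarith)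
  have n8 : M ≤ |x1 - w2| := key (a + r2) (x1 - w2) ⟨k4 - k2, by linear_combination e4 - e2⟩
    (by rw [hSdef]; linarith)
  have n9 : M ≤ |x1 - w3| := key (a + r3) (x1 - w3) ⟨k4 - k3, by linear_combination e4 - e3⟩
    (by rw [hSdef]; linarith)
  have n10 : M ≤ |x2 - w1| := by
    have := key (a + (r2 + r3)) (w1 - x2) ⟨k4 - k2 - k3, by
      linear_combination e4 - e2 - e3 - hm⟩ (by rw [hSdef]; linarith)
    rwa [abs_sub_comm] at this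
  have n11 : M ≤ |x2 - w2| := by
    have := key (a + (r1 + r3)) (w2 - x2) ⟨k4 - k1 - k3, by
      linear_combination e4 - e1 - e3 - hm⟩ (by rw [hSdef]; linarith)
    rwa [abs_sub_comm] at this
  have n12 : M ≤ |x2 - w3| := by
    have := key (a + (r1 + r2)) (w3 - x2) ⟨k4 - k1 - k2, by
      linear_combination e4 - e1 - e2 - hm⟩ (by rw [hSdef]; linarith)
    rwa [abs_sub_comm] at this
  have hfin : |x1 - w1| + |x1 - w2| + |x1 - w3| + |x2 - w1| + |x2 - w2| + |x2 - w3| - (x1 + x2)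
      - 2 * |x1 - x2| ≤ -2 * M := by
    rcases le_total x1 x2 with hx | hx
    · rw [max_eq_right hx] at hw1 hw2 hw3
      exact abs_auxM n1 n2 n3 n4 n5 n6 n7 n8 n9 n10 n11 n12 b1 b2 b3 b4 hm hx hw1 hw2 hw3
    · rw [max_eq_left hx] at hw1 hw2 hw3
      have := abs_auxM n1 n2 n3 n5 n4 (by rwa [abs_sub_comm]) n10 n11 n12 n7 n8 n9 b1 b2 b3 b5
        (by linarith) hx hw1 hw2 hw3
      rw [abs_sub_comm x2 x1] at this
      linarith
  have hMr : (1 - S) / K * D ≤ M := Int.le_ceil _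
  set X : ℤ := |x1 - w1| + |x1 - w2| + |x1 - w3| + |x2 - w1| + |x2 - w2| + |x2 - w3| - (x1 + x2)
      - 2 * |x1 - x2| with hX
  have h1 : (X : ℝ) ≤ -2 * M := by exact_mod_cast hfin
  push_cast
  have h2 : (D : ℝ) * X ≤ D * (-2 * ((1 - S) / K * D)) :=
    mul_le_mul_of_nonneg_left (by linarith) hDr.le
  calc (D : ℝ) * X ≤ D * (-2 * ((1 - S) / K * D)) := h2
    _ = -(2 * D ^ 2 * (1 - S) / K) := by ring

end Pool.Agent.TH295.PC
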